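import Pool.Agent.NH57.SQ.Stm

/-!
# SQ-KUM: the quadratic characters of the absolute Galois group of the rationals
-/

set_option autoImplicit false
set_option linter.all false

namespace Pool.Agent.NH57.SQ

namespace Kum

open scoped Pointwise

universe u

section gen

variable {K Ω : Type u} [Field K] [Field Ω] [Algebra K Ω] [IsGalois K Ω]

open scoped Classical in
/-- A locally constant quadratic character comes from a square root. -/
theorem exists_root (h2 : (2 : Ω) ≠ 0) (χ : (Ω ≃ₐ[K] Ω) → Ω) (hχ : ∀ σ, χ σ = 1 ∨ χ σ = -1)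
    (hmul : ∀ σ τ, χ (σ * τ) = χ σ * χ τ) (hc : IsLocallyConstant χ) :
    ∃ (s : Ω) (a : K), s ≠ 0 ∧ s ^ 2 = algebraMap K Ω a ∧ ∀ σ, σ s = χ σ * s := by
  have h11 : (1 : Ω) ≠ -1 := by
    intro h'
    exact h2 (by linear_combination h')
  have hfix : ∀ s : Ω, (∀ σ, σ s = χ σ * s) → ∃ a : K, s ^ 2 = algebraMap K Ω a := by
    intro s hs
    have : s ^ 2 ∈ Set.range (algebraMap K Ω) := by
      rw [InfiniteGalois.mem_range_algebraMap_iff_fixed]
      intro σ
      rw [map_pow, hs, mul_pow]
      rcases hχ σ with h | h <;> rw [h] <;> ring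
    obtain ⟨a, ha⟩ := this
    exact ⟨a, ha.symm⟩
  have hone : χ 1 = 1 := by
    have := hmul 1 1
    rw [mul_one] at this
    rcases hχ 1 with h | h
    · exact h
    · rw [h] at this
      exact absurd (by linear_combination -this) h11
  by_cases htriv : ∀ σ, χ σ = 1
  · obtain ⟨a, ha⟩ := hfix 1 (fun σ => by rw [htriv σ, map_one, mul_one])
    exact ⟨1, a, one_ne_zero, ha, fun σ => by rw [htriv σ, map_one, mul_one]⟩
  · push Not at htriv
    obtain ⟨τ, hτ⟩ := htriv
    have hτ' : χ τ = -1 := (hχ τ).resolve_left hτ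
    let H : Subgroup (Ω ≃ₐ[K] Ω) :=
      { carrier := {σ | χ σ = 1}
        mul_mem' := by
          intro a b ha hb
          show χ (a * b) = 1
          rw [hmul, show χ a = 1 from ha, show χ b = 1 from hb, mul_one]
        one_mem' := hone
        inv_mem' := by
          intro a ha
          show χ a⁻¹ = 1
          have := hmul a⁻¹ a
          rw [inv_mul_cancel, hone, show χ a = 1 from ha, mul_one] at this
          exact this.symm }
    have hHo : IsOpen (H : Set (Ω ≃ₐ[K] Ω)) := hc.isOpen_fiber 1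
    let Hc : ClosedSubgroup (Ω ≃ₐ[K] Ω) := ⟨H, H.isClosed_of_isOpen hHo⟩
    have hfx := InfiniteGalois.fixingSubgroup_fixedField Hc
    have hτn : τ ∉ (IntermediateField.fixedField (Hc : Subgroup (Ω ≃ₐ[K] Ω))).fixingSubgroup := by
      rw [hfx]
      intro h
      exact hτ h
    rw [IntermediateField.mem_fixingSubgroup_iff] at hτn
    push Not at hτn
    obtain ⟨x, hx, hx'⟩ := hτn
    have hxH : ∀ σ, χ σ = 1 → σ x = x := by
      intro σ hσ
      exact hx ⟨σ, hσ⟩
    refine ⟨x - τ x, ?_⟩
    have hs : ∀ σ, σ (x - τ x) = χ σ * (x - τ x) := by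
      intro σ
      rw [map_sub]
      rcases hχ σ with h | h
      · have e1 : σ x = x := hxH σ h
        have e2 : σ (τ x) = τ x := by
          have h3 : χ (τ⁻¹ * σ * τ) = 1 := by
            rw [hmul, hmul, h, mul_one, ← hmul, inv_mul_cancel, hone]
          have h4 := hxH _ h3
          rw [AlgEquiv.mul_apply, AlgEquiv.mul_apply] at h4
          have h5 := congrArg τ h4
          rw [← AlgEquiv.mul_apply τ τ⁻¹, mul_inv_cancel, AlgEquiv.one_apply] at h5
          exact h5
        rw [e1, e2, h, one_mul]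
      · have e1 : σ x = τ x := by
          have h3 : χ (τ⁻¹ * σ) = 1 := by
            have h6 : χ τ⁻¹ = -1 := by
              have := hmul τ⁻¹ τ
              rw [inv_mul_cancel, hone, hτ'] at this
              linear_combination this
            rw [hmul, h, h6]; ring
          have h4 := hxH _ h3
          rw [AlgEquiv.mul_apply] at h4
          have h5 := congrArg τ h4
          rw [← AlgEquiv.mul_apply τ τ⁻¹, mul_inv_cancel, AlgEquiv.one_apply] at h5
          exact h5
        have e2 : σ (τ x) = x := by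
          have h3 : χ (σ * τ) = 1 := by
            rw [hmul, h, hτ']; ring
          have h4 := hxH _ h3
          rwa [AlgEquiv.mul_apply] at h4
        rw [e1, e2, h]; ring
    obtain ⟨a, ha⟩ := hfix _ hs
    exact ⟨a, sub_ne_zero.2 (Ne.symm hx'), ha, hs⟩

end gen

/-- the squarefree part of a rational number -/
lemma sqfree_part {q : ℚ} (hq : q ≠ 0) : ∃ (x : ℤ) (w : ℚ), Squarefree x ∧ w ≠ 0 ∧
    q = (x : ℚ) * w ^ 2 := by
  set n : ℤ := q.num * q.den with hn
  have hd : (q.den : ℚ) ≠ 0 := by exact_mod_cast q.den_ne_zero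
  have hnum : q.num ≠ 0 := Rat.num_ne_zero.2 hq
  have hn0 : n ≠ 0 := mul_ne_zero hnum (by exact_mod_cast q.den_ne_zero)
  obtain ⟨a, b, hab, ha⟩ := Nat.sq_mul_squarefree n.natAbs
  have hb : b ≠ 0 := by
    rintro rfl
    apply hn0
    apply Int.natAbs_eq_zero.1
    rw [← hab]
    ring
  have hbq : (b : ℚ) ≠ 0 := by exact_mod_cast hb
  have hnab : n = n.sign * ((b : ℤ) ^ 2 * (a : ℤ)) := by
    conv_lhs => rw [← Int.sign_mul_natAbs n]
    rw [← hab]
    push_cast
    ring
  refine ⟨n.sign * a, (b : ℚ) / q.den, ?_, div_ne_zero hbq hd, ?_⟩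
  · rw [← Int.squarefree_natAbs, Int.natAbs_mul, Int.natAbs_sign_of_ne_zero hn0, one_mul,
      Int.natAbs_natCast]
    exact ha
  · have h1 : (n : ℚ) = (n.sign : ℚ) * ((b : ℚ) ^ 2 * (a : ℚ)) := by
      have := congrArg (fun z : ℤ => (z : ℚ)) hnab
      push_cast at this
      exact this
    have h2 : q = (n : ℚ) / (q.den : ℚ) ^ 2 := by
      rw [hn]
      push_cast
      conv_lhs => rw [← Rat.num_div_den q]
      field_simp
    have h3 : q = ((n.sign : ℚ) * ((b : ℚ) ^ 2 * (a : ℚ))) / (q.den : ℚ) ^ 2 := by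
      rw [← h1]
      exact h2
    refine h3.trans ?_
    push_cast
    field_simp

end Kum

open Kum

/-- the extension is Galois -/
lemma Kum.galQ : IsGalois ℚ QB := by
  haveI : Algebra.IsAlgebraic ℚ QB := AlgebraicClosure.isAlgebraic ℚ
  haveI : IsAlgClosure ℚ QB := ⟨inferInstance, inferInstance⟩
  exact IsAlgClosure.isGalois ℚ QB

/-- SQ-KUM -/
theorem t_KUM : S_KUM := by
  classical
  intro h hc hm
  haveI : IsGalois ℚ QB := galQ
  obtain ⟨s, a, hs0, hsa, hσ⟩ := exists_root (K := ℚ) (Ω := QB)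
    two_ne_zero (fun σ => if h σ = 0 then 1 else -1) (fun σ => by
      show (if h σ = 0 then (1 : QB) else -1) = 1 ∨ (if h σ = 0 then (1 : QB) else -1) = -1
      split_ifs
      · exact Or.inl rfl
      · exact Or.inr rfl) (fun σ τ => by
      show (if h (σ * τ) = 0 then (1 : QB) else -1) = (if h σ = 0 then (1 : QB) else -1) *
        (if h τ = 0 then (1 : QB) else -1)
      rw [hm]
      have h01 : ∀ x : ZMod 2, x = 0 ∨ x = 1 := by decide
      rcases h01 (h σ) with e1 | e1 <;> rcases h01 (h τ) with e2 | e2 <;> rw [e1, e2] <;>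
        simp <;> decide) (hc.comp (fun x : ZMod 2 => if x = 0 then (1 : QB) else -1))
  have ha0 : a ≠ 0 := by
    rintro rfl
    apply hs0
    rw [map_zero] at hsa
    exact pow_eq_zero_iff two_ne_zero |>.1 hsa
  obtain ⟨x, w, hx, hw, e⟩ := sqfree_part ha0
  have hwQ : (w : QB) ≠ 0 := by exact_mod_cast hw
  refine ⟨x, s / (w : QB), hx, ?_, fun σ => ?_⟩
  · rw [div_pow, hsa, e]
    rw [div_eq_iff (pow_ne_zero 2 hwQ)]
    simp
  · have hσw : σ (w : QB) = (w : QB) := map_ratCast σ w
    rw [map_div₀, hσw, div_left_inj' hwQ, hσ]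
    show (if h σ = 0 then (1 : QB) else -1) * s = s ↔ _
    split_ifs with h5
    · simp [h5]
    · simp only [h5, iff_false]
      intro h6
      apply hs0
      have h7 : (2 : QB) * s = 0 := by linear_combination -h6
      exact (mul_eq_zero.1 h7).resolve_left two_ne_zero

end Pool.Agent.NH57.SQ
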