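import Pool.Agent.NH57.SQ.Stm2

/-!
# Project SQ (helper57): assembly for the subfields of `ℚ(i, √D)`
-/

set_option autoImplicit false

open scoped Classical

namespace Pool.Agent.NH57.SQ

open Pool.Agent.R384 (Coc CobOn vl md)
open Pool.Agent.NH3.XT (S_SQ2)

theorem or_of_sq {s : QB} {m : ℤ} (hs : s ^ 2 = (m : QB)) (σ : GQ) : σ s = s ∨ σ s = -s := by
  have h1 : (σ s) ^ 2 = s ^ 2 := by
    rw [← map_pow, hs, map_intCast]
  exact sq_eq_sq_iff_eq_or_eq_neg.1 h1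

theorem ne_zero_of_sq {s : QB} {m : ℤ} (hm : m ≠ 0) (hs : s ^ 2 = (m : QB)) : s ≠ 0 := by
  rintro rfl
  apply hm
  have h1 : ((m : ℤ) : QB) = 0 := by rw [← hs]; ring
  exact_mod_cast h1

theorem ne_neg {s : QB} (hs : s ≠ 0) : s ≠ -s := by
  intro h
  have h1 : (2 : QB) * s = 0 := by linear_combination h
  exact (mul_ne_zero two_ne_zero hs) h1

theorem one_ne_neg : (1 : ℤ_[2]ˣ) ≠ -1 := by
  intro h
  have h1 : ((1 : ℤ_[2]ˣ) : ℤ_[2]) = ((-1 : ℤ_[2]ˣ) : ℤ_[2]) := by rw [← h]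
  rw [Units.val_neg, Units.val_one] at h1
  have h2 : (2 : ℤ_[2]) = 0 := by linear_combination h1
  exact two_ne_zero h2

/-- the quadratic character of a root -/
theorem exists_sgn {s : QB} {m : ℤ} (hm : m ≠ 0) (hs : s ^ 2 = (m : QB)) :
    ∃ ε : GQ →* ℤ_[2]ˣ, Sgn ε s ∧ Continuous ε := by
  have h0 := ne_zero_of_sq hm hs
  have hn := ne_neg h0
  have hor := or_of_sq hs
  let ε : GQ →* ℤ_[2]ˣ :=
    { toFun := fun σ => if σ s = s then 1 else -1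
      map_one' := if_pos rfl
      map_mul' := by
        intro σ τ
        have e1 : (σ * τ) s = σ (τ s) := rfl
        rcases hor τ with h | h
        · rw [e1, h, if_pos rfl, mul_one]
        · rcases hor σ with g | g
          · rw [e1, h, map_neg, g, if_neg hn.symm, if_pos rfl, one_mul]
          · rw [e1, h, map_neg, g, neg_neg, if_pos rfl, if_neg hn.symm]
            simp }
  have hε : ∀ σ, ε σ = if σ s = s then 1 else -1 := fun σ => rfl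
  refine ⟨ε, fun σ => ?_, ?_⟩
  · rcases hor σ with h | h
    · exact Or.inl ⟨h, by rw [hε, if_pos h]⟩
    · refine Or.inr ⟨h, ?_⟩
      rw [hε, if_neg]
      rw [h]
      exact hn.symm
  · apply continuous_of_continuousAt_one
    have halg : Algebra.IsAlgebraic ℚ QB := AlgebraicClosure.isAlgebraic ℚ
    have hint : IsIntegral ℚ s := (halg.isAlgebraic s).isIntegral
    have : FiniteDimensional ℚ (IntermediateField.adjoin ℚ {s}) :=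
      IntermediateField.adjoin.finiteDimensional hint
    have hopen : IsOpen ((IntermediateField.adjoin ℚ {s}).fixingSubgroup : Set GQ) :=
      IntermediateField.fixingSubgroup_isOpen _
    have hnhds : ((IntermediateField.adjoin ℚ {s}).fixingSubgroup : Set GQ) ∈ nhds (1 : GQ) :=
      hopen.mem_nhds (Subgroup.one_mem _)
    have hev : ∀ᶠ σ in nhds (1 : GQ), (1 : ℤ_[2]ˣ) = ε σ := by
      filter_upwards [hnhds] with σ hσ
      have h1 : σ s = s := (IntermediateField.mem_fixingSubgroup_iff _ _).1 hσ s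
        (IntermediateField.mem_adjoin_simple_self ℚ s)
      rw [hε, if_pos h1]
    exact (continuousAt_const (y := (1 : ℤ_[2]ˣ))).congr hev

theorem Sgn.pm {ε : GQ →* ℤ_[2]ˣ} {s : QB} (h : Sgn ε s) (σ : GQ) : ε σ = 1 ∨ ε σ = -1 :=
  (h σ).imp (fun h => h.2) fun h => h.2

theorem Sgn.fix {ε : GQ →* ℤ_[2]ˣ} {s : QB} (h : Sgn ε s) {σ : GQ} (h1 : ε σ = 1) : σ s = s := by
  rcases h σ with h2 | h2
  · exact h2.1
  · exact absurd (h1.symm.trans h2.2) one_ne_neg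

theorem Sgn.mul {ε ε' : GQ →* ℤ_[2]ˣ} {s s' : QB} (h : Sgn ε s) (h' : Sgn ε' s') :
    Sgn (ε * ε') (s * s') := by
  intro σ
  rw [MonoidHom.mul_apply, map_mul]
  rcases h σ with ⟨h1, h2⟩ | ⟨h1, h2⟩ <;> rcases h' σ with ⟨h3, h4⟩ | ⟨h3, h4⟩
  · left; rw [h1, h2, h3, h4]; simp
  · right; rw [h1, h2, h3, h4]; simp
  · right; rw [h1, h2, h3, h4]; simp
  · left; rw [h1, h2, h3, h4]; simp

theorem sgn_one : Sgn (1 : GQ →* ℤ_[2]ˣ) (1 : QB) := fun σ => Or.inl ⟨map_one σ, rfl⟩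

theorem vanH_top {χ : GQ →* ℤ_[2]ˣ} (h : Van χ) : VanH ⊤ χ := by
  intro c hc hI hD
  have h0 : Coc χ c := by
    refine ⟨?_, fun σ τ => hc.mul σ (Subgroup.mem_top σ) τ (Subgroup.mem_top τ)⟩
    have h1 := hc.cont
    rw [Subgroup.coe_top] at h1
    exact continuousOn_univ.1 h1
  have h2 : ∀ (p : ℕ) [Fact p.Prime] (ι : QB →ₐ[ℚ] PadicAlgCl p), p ≠ 2 → CobOn χ (II ι) c := by
    intro p _ ι hp
    obtain ⟨y, hy⟩ := hI p ι hp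
    exact ⟨y, fun σ hσ => hy σ ⟨hσ, Subgroup.mem_top σ⟩⟩
  have h3 : ∀ ι : QB →ₐ[ℚ] PadicAlgCl 2, CobOn χ (DD ι) c := by
    intro ι
    obtain ⟨y, hy⟩ := hD ι
    exact ⟨y, fun σ hσ => hy σ ⟨hσ, Subgroup.mem_top σ⟩⟩
  obtain ⟨y, hy⟩ := h c h0 h2 h3
  exact ⟨y, fun σ _ => hy σ⟩

theorem nsq (hS : S_SQ2) {e : ℤ} (he : Squarefree e) (h8 : e % 8 ≠ 1) [Fact (Nat.Prime 2)] :
    ¬ IsSquare ((e : ℤ) : ℚ_[2]) := by
  intro h
  obtain ⟨k, u, h1, h2⟩ := (hS e he.ne_zero).1 h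
  rcases k with _ | k
  · rw [pow_zero, one_mul] at h1
    omega
  · have h3 : (2 : ℤ) * 2 ∣ e := ⟨4 ^ k * u, by rw [h1, pow_succ]; ring⟩
    have h4 := he 2 h3
    rw [Int.isUnit_iff] at h4
    omega

section asm

variable (hNRM : S_NRM) (hLOCK : S_LOCK) (hKUM : S_KUM) (hSQR : S_SQR) (hRAM : S_RAM)
  (hUNR : S_UNR) (hCYI : S_CYI) (hCYS : S_CYS) (hCC : S_CC) (hSEL : S_SEL) (hVAN : S_VAN)
  (hCHA : S_CHA) (hCHB : S_CHB) (hONE : S_ONE) (hGRP : S_GRP) (hIDX : S_IDX) (hIND : S_IND)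
  (hUP : S_UP) (hNT : S_NT) (hS : S_SQ2)

include hNRM hLOCK hKUM hSQR hRAM hUNR hCYI hCYS hCC hSEL hVAN

theorem van_dt {χ : GQ →* ℤ_[2]ˣ} {e : ℤ} {u : QB} {ρ : ℝ} (h : Dt χ e u ρ) (ho : Only e) :
    VanH ⊤ χ :=
  vanH_top (hVAN hNRM hKUM hSEL hLOCK hSQR hRAM hUNR hCYI hCC h ho)

include hCHA hCHB hONE hS

/-- the four characters over `ℚ` -/
theorem van_char {D : ℤ} (hD : Squarefree D) (hD1 : D % 8 ≠ 1) (hD7 : D % 8 ≠ 7) (oD : Only D)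
    (oD' : Only (-D)) {r : ℤ} (hr : r ≠ 0) {d : ℤ} {s : QB} {ε : GQ →* ℤ_[2]ˣ}
    (hs : s ^ 2 = (d : QB)) (hε : Sgn ε s) (hc : Continuous ε)
    (hd : d = 1 ∨ d = -1 ∨ d = D ∨ d = -D) : VanH ⊤ (cyc ^ r * ε) := by
  have hsq : Squarefree d := by
    rcases hd with rfl | rfl | rfl | rfl
    · exact squarefree_one
    · exact (isUnit_one.neg : IsUnit (-1 : ℤ)).squarefree
    · exact hD
    · rw [← Int.squarefree_natAbs, Int.natAbs_neg, Int.squarefree_natAbs]; exact hD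
  have key : ∀ e : ℤ, (Even r ∧ e = d) ∨ (Odd r ∧ e = -d) → Squarefree e → e % 8 ≠ 1 → Only e →
      VanH ⊤ (cyc ^ r * ε) := by
    intro e he hse he8 hoe
    obtain ⟨u, hu⟩ := hCHA hCYI hCYS r d s ε hsq hs hε hc e he (nsq hS hse he8)
    exact van_dt hNRM hLOCK hKUM hSQR hRAM hUNR hCYI hCYS hCC hSEL hVAN hu hoe
  have key2 : (Even r ∧ d = 1) ∨ (Odd r ∧ d = -1) → VanH ⊤ (cyc ^ r * ε) := by
    intro he
    obtain ⟨u, ρ, hu⟩ := hCHB hCYI hCYS r d s ε hr hs hε hc he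
    exact van_dt hNRM hLOCK hKUM hSQR hRAM hUNR hCYI hCYS hCC hSEL hVAN hu hONE.2
  have hDn : Squarefree (-D) := by
    rw [← Int.squarefree_natAbs, Int.natAbs_neg, Int.squarefree_natAbs]; exact hD
  have h1n : Squarefree (-1 : ℤ) := (isUnit_one.neg : IsUnit (-1 : ℤ)).squarefree
  rcases Int.even_or_odd r with hev | hod
  · rcases hd with h | h | h | h
    · exact key2 (Or.inl ⟨hev, h⟩)
    · exact key (-1) (Or.inl ⟨hev, h.symm⟩) h1n (by norm_num) hONE.1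
    · exact key D (Or.inl ⟨hev, h.symm⟩) hD hD1 oD
    · exact key (-D) (Or.inl ⟨hev, h.symm⟩) hDn (by omega) oD'
  · rcases hd with h | h | h | h
    · exact key (-1) (Or.inr ⟨hod, by rw [h]⟩) h1n (by norm_num) hONE.1
    · exact key2 (Or.inr ⟨hod, h⟩)
    · exact key (-D) (Or.inr ⟨hod, by rw [h]⟩) hDn (by omega) oD'
    · exact key D (Or.inr ⟨hod, by rw [h]; ring⟩) hD hD1 oD

include hGRP hIDX hIND

/-- the group of `ℚ(i, √D)` -/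
theorem van_N {D : ℤ} (hD : Squarefree D) (hD1 : D % 8 ≠ 1) (hD7 : D % 8 ≠ 7) (oD : Only D)
    (oD' : Only (-D)) {r : ℤ} (hr : r ≠ 0) {I s : QB} {ε₁ ε₂ : GQ →* ℤ_[2]ˣ}
    (hI : I ^ 2 = -1) (hs : s ^ 2 = (D : QB)) (h1 : Sgn ε₁ I) (c1 : Continuous ε₁)
    (h2 : Sgn ε₂ s) (c2 : Continuous ε₂) : VanH ((⊤ ⊓ ε₁.ker) ⊓ ε₂.ker) (cyc ^ r) := by
  have hcy : Continuous (cyc ^ r : GQ →* ℤ_[2]ˣ) := by
    have h := (continuous_zpow r).comp hCYI.1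
    exact h
  have A : ∀ {d : ℤ} {s' : QB} {ε : GQ →* ℤ_[2]ˣ}, s' ^ 2 = (d : QB) → Sgn ε s' → Continuous ε →
      (d = 1 ∨ d = -1 ∨ d = D ∨ d = -D) → VanH ⊤ (cyc ^ r * ε) := fun hs' hε hc hd =>
    van_char hNRM hLOCK hKUM hSQR hRAM hUNR hCYI hCYS hCC hSEL hVAN hCHA hCHB hONE hS hD hD1 hD7
      oD oD' hr hs' hε hc hd
  have a1 : VanH ⊤ (cyc ^ r) := by
    have h := A (d := 1) (s' := 1) (ε := 1) (by simp) sgn_one continuous_const (Or.inl rfl)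
    have e : (cyc ^ r * 1 : GQ →* ℤ_[2]ˣ) = cyc ^ r := by
      ext σ
      rw [MonoidHom.mul_apply, MonoidHom.one_apply, mul_one]
    rwa [e] at h
  have a2 : VanH ⊤ (cyc ^ r * ε₁) := A (d := -1) (s' := I) (by rw [hI]; simp) h1 c1 (Or.inr (Or.inl rfl))
  have a3 : VanH ⊤ (cyc ^ r * ε₂) := A (d := D) (s' := s) hs h2 c2 (Or.inr (Or.inr (Or.inl rfl)))
  have a4 : VanH ⊤ (cyc ^ r * ε₂ * ε₁) := by
    have e : (cyc ^ r * ε₂ * ε₁ : GQ →* ℤ_[2]ˣ) = cyc ^ r * (ε₂ * ε₁) := by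
      ext σ
      simp only [MonoidHom.mul_apply, mul_assoc]
    rw [e]
    refine A (d := -D) (s' := s * I) ?_ (h2.mul h1) (c2.mul c1) (Or.inr (Or.inr (Or.inr rfl)))
    rw [mul_pow, hI, hs]
    push_cast
    ring
  have b1 : VanH (⊤ ⊓ ε₁.ker) (cyc ^ r) := hIND hGRP hIDX ⊤ _ ε₁ h1.pm hcy c1 a1 a2
  have b2 : VanH (⊤ ⊓ ε₁.ker) (cyc ^ r * ε₂) :=
    hIND hGRP hIDX ⊤ _ ε₁ h1.pm (hcy.mul c2) c1 a3 a4
  exact hIND hGRP hIDX _ _ ε₂ h2.pm hcy c2 b1 b2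

include hUP hNT

/-- every subgroup that contains the group of `ℚ(i, √D)` -/
theorem van_H {D : ℤ} (hD : Squarefree D) (hD1 : D % 8 ≠ 1) (hD7 : D % 8 ≠ 7) (oD : Only D)
    (oD' : Only (-D)) {r : ℤ} (hr : r ≠ 0) {I s : QB} (hI : I ^ 2 = -1) (hs : s ^ 2 = (D : QB))
    {H : Subgroup GQ} (hH : ∀ σ : GQ, σ I = I → σ s = s → σ ∈ H) :
    VanH H (cyc ^ r) ∧ ∀ ι : QB →ₐ[ℚ] PadicAlgCl 2, ∃ σ ∈ DD ι, σ ∈ H ∧ vl (cyc ^ r) σ ≠ 1 := by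
  obtain ⟨ε₁, h1, c1⟩ := exists_sgn (s := I) (m := -1) (by norm_num) (by rw [hI]; simp)
  obtain ⟨ε₂, h2, c2⟩ := exists_sgn hD.ne_zero hs
  have hv := van_N hNRM hLOCK hKUM hSQR hRAM hUNR hCYI hCYS hCC hSEL hVAN hCHA hCHB hONE hGRP hIDX
    hIND hS hD hD1 hD7 oD oD' hr hI hs h1 c1 h2 c2
  have hNH : (⊤ ⊓ ε₁.ker) ⊓ ε₂.ker ≤ H := by
    rintro σ ⟨⟨-, g1⟩, g2⟩
    exact hH σ (h1.fix g1) (h2.fix g2)
  have hnt : ∀ ι : QB →ₐ[ℚ] PadicAlgCl 2, ∃ σ ∈ DD ι, σ ∈ (⊤ ⊓ ε₁.ker) ⊓ ε₂.ker ∧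
      vl (cyc ^ r) σ ≠ 1 := by
    intro ι
    obtain ⟨σ, g1, g2, g3, g4⟩ := hNT hSQR hCYS hGRP ε₁ ε₂ h1.pm h2.pm ι r hr
    exact ⟨σ, g1, ⟨⟨Subgroup.mem_top σ, g2⟩, g3⟩, g4⟩
  refine ⟨?_, fun ι => ?_⟩
  · have : ((⊤ ⊓ ε₁.ker) ⊓ ε₂.ker : Subgroup GQ).Normal := inferInstance
    have halg : Algebra.IsAlgebraic ℚ QB := AlgebraicClosure.isAlgebraic ℚ
    let ι₀ : QB →ₐ[ℚ] PadicAlgCl 2 := IsAlgClosed.lift
    obtain ⟨σ, -, g2, g3⟩ := hnt ι₀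
    exact hUP H _ (cyc ^ r) inferInstance hNH ⟨σ, g2, g3⟩ hv
  · obtain ⟨σ, g1, g2, g3⟩ := hnt ι
    exact ⟨σ, g1, hNH g2, g3⟩

end asm

end Pool.Agent.NH57.SQ
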