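import Pool.Agent.NH57.SQ.UP

/-!
# Project SQ: twists are not trivial at two, all sign characters (from `UP.lean`)
-/

set_option autoImplicit false

namespace Pool.Agent.NH57.SQ

open Pool.Agent.R384 (Coc CobOn vl md)

open NT in
/-- all sign characters at once -/

theorem t_NT3 (hsqr : S_SQR) (hcys : S_CYS) (hgrp : S_GRP) :
    ∀ (ι : QB →ₐ[ℚ] PadicAlgCl 2) (r : ℤ), r ≠ 0 → ∃ σ ∈ DD ι,
      (∀ ε : GQ →* ℤ_[2]ˣ, (∀ τ, ε τ = 1 ∨ ε τ = -1) → ε σ = 1) ∧ vl (cyc ^ r) σ ≠ 1 := by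
  intro ι r hr
  obtain ⟨u, hu⟩ := IsAlgClosed.exists_pow_nat_eq (2 : QB) (by norm_num : 0 < 2)
  have hex : ∃ σ₀ ∈ DD ι, σ₀ u ≠ u := by
    by_contra hcon
    push Not at hcon
    exact not_sq_two (hsqr 2 ι u 2 (by rw [hu]; norm_num) hcon)
  obtain ⟨σ₀, hσ₀, hne⟩ := hex
  have h8 : ∃ s t : ℤ_[2], (cyc σ₀ : ℤ_[2]) = s * 3 + 8 * t ∧ s * s = 1 := by
    rcases hcys.2 u hu σ₀ with ⟨h, _⟩ | ⟨_, h | h⟩
    · exact absurd h hne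
    · obtain ⟨t, ht⟩ := h
      exact ⟨1, t, by linear_combination ht, by ring⟩
    · obtain ⟨t, ht⟩ := h
      exact ⟨-1, t, by linear_combination ht, by ring⟩
  obtain ⟨s, t, hc, hs⟩ := h8
  have hsq : ∀ e : GQ →* ℤ_[2]ˣ, (∀ σ, e σ = 1 ∨ e σ = -1) → e (σ₀ * σ₀) = 1 := by
    intro e he
    rw [map_mul]
    rcases he σ₀ with h | h <;> rw [h] <;> simp
  refine ⟨σ₀ * σ₀, (hgrp 2 ι).2.2.2.2.1 σ₀ hσ₀ σ₀ hσ₀, hsq, ?_⟩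
  set a : ℤ_[2] := ((cyc (σ₀ * σ₀) : ℤ_[2]ˣ) : ℤ_[2]) with ha
  have ha' : a - 1 = 8 * (1 + 2 * (3 * s * t + 4 * t ^ 2)) := by
    rw [ha, map_mul, Units.val_mul, hc]
    linear_combination 9 * hs
  have h4 : (4 : ℤ_[2]) ∣ a - 1 := ⟨2 * (1 + 2 * (3 * s * t + 4 * t ^ 2)), by rw [ha']; ring⟩
  have ha1 : a ≠ 1 := by
    intro h
    rw [h, sub_self] at ha'
    have h8 : (8 : ℤ_[2]) ≠ 0 := by norm_num
    rcases mul_eq_zero.1 ha'.symm with h0 | h0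
    · exact h8 h0
    · apply not_two_dvd_one
      exact ⟨-(3 * s * t + 4 * t ^ 2), by linear_combination h0⟩
  intro hv
  unfold vl at hv
  have h5 : ((cyc ^ r) (σ₀ * σ₀) : ℤ_[2]ˣ) = 1 := by
    have hv' : (((cyc ^ r) (σ₀ * σ₀) : ℤ_[2]ˣ) : ℤ_[2]) = 1 :=
      PadicInt.ext (by rw [hv, PadicInt.coe_one])
    exact Units.val_eq_one.1 hv'
  have h6 : (cyc (σ₀ * σ₀)) ^ r = 1 := h5
  have h7 : (cyc (σ₀ * σ₀)) ^ r.natAbs = 1 := pow_natAbs_eq_one.2 h6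
  have h9 : a ^ r.natAbs = 1 := by
    rw [ha, ← Units.val_pow_eq_pow_val, h7, Units.val_one]
  exact pow_ne h4 ha1 r.natAbs (Int.natAbs_pos.2 hr) h9

end Pool.Agent.NH57.SQ
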