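import Pool.Agent.NH57.SQ.ONE

/-!
# Project SQ: no solutions for `-2`
-/

set_option autoImplicit false

namespace Pool.Agent.NH57.SQ

theorem only_neg_two : Only (-2) := by
  have : Fact (Nat.Prime 2) := Nat.fact_prime_two
  have hm2 : ¬ IsSquare (-2 : ℚ_[2]) := one_norm _ (by rw [norm_neg, one_two])
  have hp2 : ¬ IsSquare (2 : ℚ_[2]) := one_norm _ one_two
  have hm4 : ¬ IsSquare (-4 : ℚ_[2]) := by
    rintro ⟨z, hz⟩
    apply one_neg
    refine ⟨z / 2, ?_⟩
    have h2 : (2 : ℚ_[2]) ≠ 0 := two_ne_zero
    field_simp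
    linear_combination hz
  intro x hx
  have h1 := hx.sq 2 (Or.inl rfl)
  rcases one_small x hx.sqf (fun p _ hp => hx.odd p hp (by
      intro hd
      rw [dvd_neg] at hd
      have h3 : p ∣ 2 := by exact_mod_cast hd
      exact hp ((Nat.prime_dvd_prime_iff_eq Fact.out Nat.prime_two).1 h3))) with
    rfl | rfl | rfl | rfl
  · left; rfl
  · exfalso
    push_cast at h1
    rcases h1 with h | h
    · exact one_neg h
    · exact hp2 (by simpa using h)
  · exfalso
    push_cast at h1
    rcases h1 with h | h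
    · exact hp2 h
    · exact hm4 (by convert h using 1)
  · right; rfl

end Pool.Agent.NH57.SQ
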