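import Pool.Agent.NH57.SQ.Fin
import Pool.Agent.NH57.SQ.NT3
import Pool.Agent.NH57.SQ.ONE2

/-!
# Project SQ (helper57): the subfields of `ℚ(ζ_8, √D)`
-/

set_option autoImplicit false

open scoped Classical

namespace Pool.Agent.NH57.SQ

open Pool.Agent.R384 (Coc CobOn vl md)
open Pool.Agent.NH3.XT (t_SQ2)

/-- the conditions on the integer `d` for the character `cyc ^ r ε_d` -/
def Ok (r d : ℤ) : Prop := Squarefree d ∧ (Even r → d = 1 ∨ (d % 8 ≠ 1 ∧ Only d)) ∧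
  (Odd r → d = -1 ∨ ((-d) % 8 ≠ 1 ∧ Only (-d)))

theorem sqf_neg {D : ℤ} (h : Squarefree D) : Squarefree (-D) := by
  rw [← Int.squarefree_natAbs, Int.natAbs_neg, Int.squarefree_natAbs]; exact h

theorem van_gen {r d : ℤ} (hr : r ≠ 0) (hok : Ok r d) {s : QB} {ε : GQ →* ℤ_[2]ˣ}
    (hs : s ^ 2 = (d : QB)) (hε : Sgn ε s) (hc : Continuous ε) : VanH ⊤ (cyc ^ r * ε) := by
  obtain ⟨hsq, hev, hod⟩ := hok
  have key : ∀ e : ℤ, (Even r ∧ e = d) ∨ (Odd r ∧ e = -d) → Squarefree e → e % 8 ≠ 1 → Only e →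
      VanH ⊤ (cyc ^ r * ε) := by
    intro e he hse he8 hoe
    obtain ⟨u, hu⟩ := t_CHA t_CYI t_CYS r d s ε hsq hs hε hc e he (nsq t_SQ2 hse he8)
    exact van_dt t_NRM t_LOCK t_KUM t_SQR t_RAM t_UNR t_CYI t_CYS t_CC t_SEL t_VAN hu hoe
  have key2 : (Even r ∧ d = 1) ∨ (Odd r ∧ d = -1) → VanH ⊤ (cyc ^ r * ε) := by
    intro he
    obtain ⟨u, ρ, hu⟩ := t_CHB t_CYI t_CYS r d s ε hr hs hε hc he
    exact van_dt t_NRM t_LOCK t_KUM t_SQR t_RAM t_UNR t_CYI t_CYS t_CC t_SEL t_VAN hu t_ONE.2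
  rcases Int.even_or_odd r with h | h
  · rcases hev h with h1 | ⟨h1, h2⟩
    · exact key2 (Or.inl ⟨h, h1⟩)
    · exact key d (Or.inl ⟨h, rfl⟩) hsq h1 h2
  · rcases hod h with h1 | ⟨h1, h2⟩
    · exact key2 (Or.inr ⟨h, h1⟩)
    · exact key (-d) (Or.inr ⟨h, rfl⟩) (sqf_neg hsq) h1 h2

theorem cont_cyc (r : ℤ) : Continuous (cyc ^ r : GQ →* ℤ_[2]ˣ) := by
  have h := (continuous_zpow r).comp t_CYI.1
  exact h

/-- first step: the kernel of the character of `√-1` -/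
theorem stepA {r d : ℤ} (hr : r ≠ 0) (h1 : Ok r d) (h2 : Ok r (-d)) {I t : QB}
    {ε₁ η : GQ →* ℤ_[2]ˣ} (hI : I ^ 2 = -1) (g1 : Sgn ε₁ I) (c1 : Continuous ε₁)
    (ht : t ^ 2 = (d : QB)) (g : Sgn η t) (c : Continuous η) :
    VanH (⊤ ⊓ ε₁.ker) (cyc ^ r * η) := by
  have e : (cyc ^ r * η * ε₁ : GQ →* ℤ_[2]ˣ) = cyc ^ r * (η * ε₁) := by
    ext σ
    simp only [MonoidHom.mul_apply, mul_assoc]
  have a2 : VanH ⊤ (cyc ^ r * η * ε₁) := by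
    rw [e]
    refine van_gen hr h2 (s := t * I) ?_ (g.mul g1) (c.mul c1)
    rw [mul_pow, hI, ht]
    push_cast
    ring
  exact t_IND t_GRP t_IDX ⊤ _ ε₁ g1.pm ((cont_cyc r).mul c) c1 (van_gen hr h1 ht g c) a2

/-- second step: the kernel of the character of `√2` -/
theorem stepB {r d : ℤ} (hr : r ≠ 0) (h1 : Ok r d) (h2 : Ok r (-d)) (h3 : Ok r (2 * d))
    (h4 : Ok r (-(2 * d))) {I u t : QB} {ε₁ ε₃ η : GQ →* ℤ_[2]ˣ} (hI : I ^ 2 = -1)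
    (g1 : Sgn ε₁ I) (c1 : Continuous ε₁) (hu : u ^ 2 = 2) (g3 : Sgn ε₃ u) (c3 : Continuous ε₃)
    (ht : t ^ 2 = (d : QB)) (g : Sgn η t) (c : Continuous η) :
    VanH ((⊤ ⊓ ε₁.ker) ⊓ ε₃.ker) (cyc ^ r * η) := by
  have e : (cyc ^ r * η * ε₃ : GQ →* ℤ_[2]ˣ) = cyc ^ r * (η * ε₃) := by
    ext σ
    simp only [MonoidHom.mul_apply, mul_assoc]
  have a2 : VanH (⊤ ⊓ ε₁.ker) (cyc ^ r * η * ε₃) := by
    rw [e]
    refine stepA hr h3 h4 hI g1 c1 (t := t * u) ?_ (g.mul g3) (c.mul c3)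
    rw [mul_pow, hu, ht]
    push_cast
    ring
  exact t_IND t_GRP t_IDX _ _ ε₃ g3.pm ((cont_cyc r).mul c) c3 (stepA hr h1 h2 hI g1 c1 ht g c) a2

theorem ok_of {r d : ℤ} (hd : Squarefree d) (h1 : d % 8 ≠ 1) (h2 : (-d) % 8 ≠ 1) (o1 : Only d)
    (o2 : Only (-d)) : Ok r d :=
  ⟨hd, fun _ => Or.inr ⟨h1, o1⟩, fun _ => Or.inr ⟨h2, o2⟩⟩

theorem ok_of' {r d : ℤ} (hd : Squarefree d) (h1 : d % 8 ≠ 1) (h2 : (-d) % 8 ≠ 1) (o1 : Only d)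
    (o2 : Only (-d)) : Ok r (-d) :=
  ok_of (sqf_neg hd) h2 (by rwa [neg_neg]) o2 (by rwa [neg_neg])

/-- the subgroups that contain the group of `ℚ(ζ_8, √D)` -/
theorem f_H8 {D : ℤ} (hD : Squarefree D) (h8 : D % 8 = 3 ∨ D % 8 = 5) (o1 : Only D)
    (o2 : Only (-D)) (o3 : Only (2 * D)) (o4 : Only (-(2 * D))) {r : ℤ} (hr : r ≠ 0)
    {I u s : QB} (hI : I ^ 2 = -1) (hu : u ^ 2 = 2) (hs : s ^ 2 = (D : QB)) {H : Subgroup GQ}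
    (hH : ∀ σ : GQ, σ I = I → σ u = u → σ s = s → σ ∈ H) :
    VanH H (cyc ^ r) ∧ ∀ ι : QB →ₐ[ℚ] PadicAlgCl 2, ∃ σ ∈ DD ι, σ ∈ H ∧ vl (cyc ^ r) σ ≠ 1 := by
  obtain ⟨ε₁, g1, c1⟩ := exists_sgn (s := I) (m := -1) (by norm_num) (by rw [hI]; simp)
  obtain ⟨ε₂, g2, c2⟩ := exists_sgn hD.ne_zero hs
  obtain ⟨ε₃, g3, c3⟩ := exists_sgn (s := u) (m := 2) (by norm_num) (by rw [hu]; simp)
  have s2 : Squarefree (2 : ℤ) := Int.prime_two.squarefree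
  have s2D : Squarefree (2 * D) := by
    rw [← Int.squarefree_natAbs, Int.natAbs_mul]
    refine (Nat.squarefree_mul ?_).2 ⟨?_, Int.squarefree_natAbs.2 hD⟩
    · show Nat.Coprime 2 D.natAbs
      rw [Nat.coprime_two_left]
      rw [Int.natAbs_odd, Int.odd_iff]
      omega
    · exact Nat.prime_two.squarefree
  have k1 : Ok r 1 := ⟨squarefree_one, fun _ => Or.inl rfl, fun _ => Or.inr ⟨by norm_num, t_ONE.1⟩⟩
  have k1' : Ok r (-1) := ⟨sqf_neg squarefree_one, fun _ => Or.inr ⟨by norm_num, t_ONE.1⟩,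
    fun _ => Or.inl rfl⟩
  have k2 : Ok r (2 * 1) := ok_of (by rwa [mul_one]) (by norm_num) (by norm_num)
    (by rw [mul_one]; exact t_ONE.2) (by rw [mul_one]; exact only_neg_two)
  have k2' : Ok r (-(2 * 1)) := ok_of' (by rwa [mul_one]) (by norm_num) (by norm_num)
    (by rw [mul_one]; exact t_ONE.2) (by rw [mul_one]; exact only_neg_two)
  have k3 : Ok r D := ok_of hD (by omega) (by omega) o1 o2
  have k3' : Ok r (-D) := ok_of' hD (by omega) (by omega) o1 o2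
  have k4 : Ok r (2 * D) := ok_of s2D (by omega) (by omega) o3 o4
  have k4' : Ok r (-(2 * D)) := ok_of' s2D (by omega) (by omega) o3 o4
  have b1 : VanH ((⊤ ⊓ ε₁.ker) ⊓ ε₃.ker) (cyc ^ r) := by
    have h := stepB hr k1 k1' k2 k2' hI g1 c1 hu g3 c3 (t := 1) (η := 1) (by simp) sgn_one
      continuous_const
    have e : (cyc ^ r * 1 : GQ →* ℤ_[2]ˣ) = cyc ^ r := by
      ext σ
      rw [MonoidHom.mul_apply, MonoidHom.one_apply, mul_one]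
    rwa [e] at h
  have b2 : VanH ((⊤ ⊓ ε₁.ker) ⊓ ε₃.ker) (cyc ^ r * ε₂) :=
    stepB hr k3 k3' k4 k4' hI g1 c1 hu g3 c3 hs g2 c2
  have hv : VanH (((⊤ ⊓ ε₁.ker) ⊓ ε₃.ker) ⊓ ε₂.ker) (cyc ^ r) :=
    t_IND t_GRP t_IDX _ _ ε₂ g2.pm (cont_cyc r) c2 b1 b2
  have hNH : ((⊤ ⊓ ε₁.ker) ⊓ ε₃.ker) ⊓ ε₂.ker ≤ H := by
    rintro σ ⟨⟨⟨-, q1⟩, q3⟩, q2⟩
    exact hH σ (g1.fix q1) (g3.fix q3) (g2.fix q2)
  have hnt : ∀ ι : QB →ₐ[ℚ] PadicAlgCl 2, ∃ σ ∈ DD ι, σ ∈ ((⊤ ⊓ ε₁.ker) ⊓ ε₃.ker) ⊓ ε₂.ker ∧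
      vl (cyc ^ r) σ ≠ 1 := by
    intro ι
    obtain ⟨σ, q1, q2, q3⟩ := t_NT3 t_SQR t_CYS t_GRP ι r hr
    exact ⟨σ, q1, ⟨⟨⟨Subgroup.mem_top σ, q2 ε₁ g1.pm⟩, q2 ε₃ g3.pm⟩, q2 ε₂ g2.pm⟩, q3⟩
  refine ⟨?_, fun ι => ?_⟩
  · have halg : Algebra.IsAlgebraic ℚ QB := AlgebraicClosure.isAlgebraic ℚ
    let ι₀ : QB →ₐ[ℚ] PadicAlgCl 2 := IsAlgClosed.lift
    obtain ⟨σ, -, q2, q3⟩ := hnt ι₀
    exact t_UP H _ (cyc ^ r) inferInstance hNH ⟨σ, q2, q3⟩ hv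
  · obtain ⟨σ, q1, q2, q3⟩ := hnt ι
    exact ⟨σ, q1, hNH q2, q3⟩

end Pool.Agent.NH57.SQ
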