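import Pool.Agent.NH57.SQ.Stm

/-! Project SQ, job SQ-CC: complex conjugation (helper89). -/

set_option autoImplicit false

namespace Pool.Agent.NH57.SQ

namespace CC

instance enough (i : ℕ) : HasEnoughRootsOfUnity QB (2 ^ i) := by
  have : NeZero ((2 ^ i : ℕ) : QB) := ⟨by push_cast; exact pow_ne_zero _ two_ne_zero⟩
  infer_instance

lemma cyc_spec (σ : GQ) {n : ℕ} {t : QB} (ht : t ^ 2 ^ n = 1) :
    σ t = t ^ (((cyc σ : ℤ_[2]ˣ) : ℤ_[2]).toZModPow n).val :=
  cyclotomicCharacter.spec (L := QB) 2 (n := n) (MulSemiringAction.toRingAut GQ QB σ) t ht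

/-- complex conjugation on the algebraic numbers -/
lemma exists_conj : ∃ (φ : QB →ₐ[ℚ] ℂ) (κ : GQ), ∀ x, φ (κ x) = starRingEnd ℂ (φ x) := by
  have hal : Algebra.IsAlgebraic ℚ QB := AlgebraicClosure.isAlgebraic ℚ
  have hac : IsAlgClosure ℚ QB := ⟨inferInstance, hal⟩
  have hno : Normal ℚ QB := IsAlgClosure.normal ℚ QB
  let φ : QB →ₐ[ℚ] ℂ := IsAlgClosed.lift
  let alg : Algebra QB ℂ := φ.toRingHom.toAlgebra
  have hst : IsScalarTower ℚ QB ℂ := IsScalarTower.of_algebraMap_eq fun x => (φ.commutes x).symm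
  refine ⟨φ, (Complex.conjAe.restrictScalars ℚ).restrictNormal QB, fun x => ?_⟩
  exact AlgEquiv.restrictNormal_commutes (Complex.conjAe.restrictScalars ℚ) QB x

end CC

open CC in
/-- SQ-CC -/
theorem t_CC : S_CC := by
  obtain ⟨φ, κ, hκ⟩ := exists_conj
  have hinj : Function.Injective φ := φ.toRingHom.injective
  refine ⟨κ, ?_, ?_, ?_⟩
  · ext x
    apply hinj
    show φ (κ (κ x)) = φ x
    rw [hκ, hκ, Complex.conj_conj]
  · apply Units.ext
    apply PadicInt.ext_of_toZModPow.mp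
    intro n
    obtain ⟨ζ, hζ⟩ := HasEnoughRootsOfUnity.exists_primitiveRoot QB (2 ^ n)
    have h1 : ζ ^ 2 ^ n = 1 := hζ.pow_eq_one
    have hζ0 : ζ ≠ 0 := hζ.ne_zero (by positivity)
    have h2 := cyc_spec κ h1
    have h3 : κ ζ = ζ⁻¹ := by
      apply hinj
      rw [hκ, map_inv₀]
      have h4 : ‖φ ζ‖ = 1 := by
        have h5 : (φ ζ) ^ 2 ^ n = 1 := by rw [← map_pow, h1, map_one]
        exact Complex.norm_eq_one_of_pow_eq_one h5 (by positivity)
      rw [Complex.inv_def, Complex.normSq_eq_norm_sq, h4]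
      norm_num
    set k := ((((cyc κ : ℤ_[2]ˣ) : ℤ_[2]).toZModPow n).val) with hk
    have h6 : ζ ^ (k + 1) = 1 := by
      rw [pow_succ, ← h2, h3, inv_mul_cancel₀ hζ0]
    have h7 : 2 ^ n ∣ k + 1 := (hζ.pow_eq_one_iff_dvd _).1 h6
    have h8 : ((k + 1 : ℕ) : ZMod (2 ^ n)) = 0 := (ZMod.natCast_eq_zero_iff _ _).2 h7
    have hnz : NeZero (2 ^ n) := ⟨by positivity⟩
    have h9 : ((k : ℕ) : ZMod (2 ^ n)) = ((cyc κ : ℤ_[2]ˣ) : ℤ_[2]).toZModPow n := by
      rw [hk]
      exact ZMod.natCast_zmod_val _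
    rw [Nat.cast_add, Nat.cast_one, h9] at h8
    rw [Units.val_neg, Units.val_one, map_neg, map_one]
    exact eq_neg_of_add_eq_zero_left h8
  · intro t m hm ht
    have h1 : (φ t) ^ 2 = ((m : ℝ) : ℂ) := by
      rw [← map_pow, ht, map_intCast]
      push_cast
      rfl
    constructor
    · intro h
      have h2 : starRingEnd ℂ (φ t) = φ t := by rw [← hκ, h]
      obtain ⟨r, hr⟩ := Complex.conj_eq_iff_real.1 h2
      rw [hr, ← Complex.ofReal_pow] at h1
      have h3 : r ^ 2 = (m : ℝ) := Complex.ofReal_injective h1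
      have h4 : (0 : ℝ) ≤ m := by rw [← h3]; positivity
      have h5 : (0 : ℤ) ≤ m := by exact_mod_cast h4
      omega
    · intro h
      apply hinj
      rw [hκ]
      have h4 : (φ t) ^ 2 = ((Real.sqrt (m : ℝ) : ℝ) : ℂ) ^ 2 := by
        rw [h1, ← Complex.ofReal_pow, Real.sq_sqrt (by exact_mod_cast h.le)]
      rcases sq_eq_sq_iff_eq_or_eq_neg.1 h4 with h5 | h5
      · rw [h5, Complex.conj_ofReal]
      · rw [h5, map_neg, Complex.conj_ofReal]

end Pool.Agent.NH57.SQ
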