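import Pool.Agent.NH57.SQ.Stm

/-!
# Project SQ, part CHA: the characters `cyc ^ r ε`, first case (helper41)
-/

set_option autoImplicit false
set_option linter.unusedVariables false

namespace Pool.Agent.NH57.SQ

open Pool.Agent.R384 (Coc CobOn vl md)

namespace CHA

/-- reduction modulo four -/
noncomputable def φ : ℤ_[2]ˣ →* (ZMod (2 ^ 2))ˣ :=
  Units.map (PadicInt.toZModPow 2 : ℤ_[2] →+* ZMod (2 ^ 2)).toMonoidHom

theorem dvd_iff (z : ℤ_[2]) : (4 : ℤ_[2]) ∣ z ↔ PadicInt.toZModPow (p := 2) 2 z = 0 := by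
  have h : z ∈ RingHom.ker (PadicInt.toZModPow (p := 2) 2) ↔
      z ∈ (Ideal.span {((2 : ℕ) : ℤ_[2]) ^ 2} : Ideal ℤ_[2]) := by
    rw [PadicInt.ker_toZModPow]
  rw [RingHom.mem_ker, Ideal.mem_span_singleton] at h
  have h4 : ((2 : ℕ) : ℤ_[2]) ^ 2 = 4 := by norm_num
  rw [h4] at h
  exact h.symm

theorem phi_one {a : ℤ_[2]ˣ} : φ a = 1 ↔ (4 : ℤ_[2]) ∣ (a : ℤ_[2]) - 1 := by
  rw [dvd_iff, map_sub, map_one, sub_eq_zero, Units.ext_iff]
  rfl

theorem phi_neg_one {a : ℤ_[2]ˣ} : φ a = -1 ↔ (4 : ℤ_[2]) ∣ (a : ℤ_[2]) + 1 := by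
  rw [dvd_iff, map_add, map_one, Units.ext_iff]
  constructor
  · intro h
    have h' : PadicInt.toZModPow (p := 2) 2 (a : ℤ_[2]) = -1 := h
    rw [h']
    ring
  · intro h
    have h' : PadicInt.toZModPow (p := 2) 2 (a : ℤ_[2]) = -1 := by linear_combination h
    exact h'

theorem norm_iff (a : ℤ_[2]ˣ) : ‖((a : ℤ_[2]) : ℚ_[2]) - 1‖ < 1 / 2 ↔ φ a = 1 := by
  have h1 : ((a : ℤ_[2]) : ℚ_[2]) - 1 = (((a : ℤ_[2]) - 1 : ℤ_[2]) : ℚ_[2]) := by push_cast; rfl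
  rw [phi_one, h1, PadicInt.padic_norm_e_of_padicInt]
  have h4 : (4 : ℤ_[2]) = ((2 : ℕ) : ℤ_[2]) ^ 2 := by norm_num
  rw [h4, ← Ideal.mem_span_singleton, ← PadicInt.norm_le_pow_iff_mem_span_pow]
  constructor
  · intro h
    have h2 : ‖(((a : ℤ_[2]) - 1 : ℤ_[2]) : ℚ_[2])‖ < 1 / 2 := by
      rw [PadicInt.padic_norm_e_of_padicInt]
      exact h
    have h3 := Pool.Agent.R384.norm_lt_half h2
    rw [PadicInt.padic_norm_e_of_padicInt] at h3
    refine h3.trans (le_of_eq ?_)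
    norm_num
  · intro h
    refine lt_of_le_of_lt h ?_
    norm_num

theorem phi_sq (a : ℤ_[2]ˣ) : φ a ^ 2 = 1 := by
  have h : ∀ x : (ZMod (2 ^ 2))ˣ, x ^ 2 = 1 := by decide
  exact h _

theorem phi_even {r : ℤ} (hr : Even r) (a : ℤ_[2]ˣ) : φ a ^ r = 1 := by
  obtain ⟨k, rfl⟩ := hr
  rw [← two_mul, zpow_mul]
  have h := phi_sq a
  rw [show (φ a) ^ (2 : ℤ) = 1 from by exact_mod_cast h, one_zpow]

theorem phi_odd {r : ℤ} (hr : Odd r) (a : ℤ_[2]ˣ) : φ a ^ r = φ a := by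
  obtain ⟨k, rfl⟩ := hr
  rw [zpow_add, zpow_one, phi_even (even_two_mul k), one_mul]

theorem one_ne : (1 : (ZMod (2 ^ 2))ˣ) ≠ -1 := by decide

end CHA

open CHA in
theorem t_CHA : S_CHA := by
  intro hcyi hcys r d s ε hd hs hε hεc e he hnsq
  obtain ⟨hcont, hcyi2, -⟩ := hcyi
  obtain ⟨hcys1, -⟩ := hcys
  obtain ⟨I, hI⟩ := IsAlgClosed.exists_pow_nat_eq (-1 : QB) (n := 2) (by norm_num)
  have hd0 : d ≠ 0 := hd.ne_zero
  have hs0 : s ≠ 0 := by
    rintro rfl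
    rw [zero_pow (by norm_num)] at hs
    exact hd0 (by exact_mod_cast hs.symm)
  have hI0 : I ≠ 0 := by
    rintro rfl
    rw [zero_pow (by norm_num)] at hI
    norm_num at hI
  have hval : ∀ σ, (cyc ^ r * ε) σ = (cyc σ) ^ r * ε σ := fun σ => by
    rw [MonoidHom.mul_apply]
    rfl
  have hcon : Continuous (cyc ^ r * ε) := by
    have : (⇑(cyc ^ r * ε) : GQ → ℤ_[2]ˣ) = fun σ => (cyc σ) ^ r * ε σ := funext hval
    rw [this]
    exact (hcont.zpow r).mul hεc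
  have hneg : ∀ v : QB, v ≠ 0 → -v ≠ v := by
    intro v hv h
    apply hv
    have : (2 : QB) * v = 0 := by linear_combination -h
    simpa using this
  have hinr : ∀ (p : ℕ) [Fact p.Prime] (ι : QB →ₐ[ℚ] PadicAlgCl p), p ≠ 2 → ∀ σ ∈ II ι,
      vl (cyc ^ r * ε) σ = 1 ∨ vl (cyc ^ r * ε) σ = -1 := by
    intro p _ ι hp σ hσ
    unfold vl
    rw [hval, hcyi2 p ι hp σ hσ, one_zpow, one_mul]
    rcases hε σ with ⟨-, h⟩ | ⟨-, h⟩
    · left
      rw [h]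
      simp
    · right
      rw [h]
      simp
  have hphi : ∀ σ, φ ((cyc ^ r * ε) σ) = φ (cyc σ) ^ r * φ (ε σ) := by
    intro σ
    rw [hval, map_mul, map_zpow]
  have hm1 : φ (-1) = -1 := by
    rw [phi_neg_one]
    simp
  have hp1 : φ 1 = 1 := map_one _
  have hlt : ∀ σ, ‖vl (cyc ^ r * ε) σ - 1‖ < 1 / 2 ↔ φ (cyc σ) ^ r * φ (ε σ) = 1 := by
    intro σ
    rw [← hphi]
    exact norm_iff _
  have hsqf : Squarefree e := by
    rcases he with ⟨-, rfl⟩ | ⟨-, rfl⟩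
    · exact hd
    · exact hd.squarefree_of_dvd (neg_dvd.2 dvd_rfl)
  have hne : e ≠ 1 := by
    rintro rfl
    exact hnsq ⟨1, by simp⟩
  rcases he with ⟨hr, rfl⟩ | ⟨hr, rfl⟩
  · refine ⟨s, ⟨hcon, hsqf, hne, hnsq, hs, by norm_num, le_rfl,
      Pool.Agent.R384.vl_sub_one, fun σ => ?_, hinr, fun _ he κ hκ => ?_⟩⟩
    · rw [hlt, phi_even hr, one_mul]
      rcases hε σ with ⟨h1, h2⟩ | ⟨h1, h2⟩
      · rw [h2, hp1]
        exact ⟨fun _ => h1, fun _ => rfl⟩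
      · rw [h2, hm1, h1]
        exact ⟨fun h => absurd h.symm one_ne, fun h => absurd h (hneg s hs0)⟩
    · have h1 := (hκ.2.2 s e hd0 hs).2 he
      have h2 : ε κ = 1 := by
        rcases hε κ with ⟨-, h⟩ | ⟨h, -⟩
        · exact h
        · exact absurd (h.symm.trans h1) (hneg s hs0)
      unfold vl
      rw [hval, hκ.2.1, h2, hr.neg_one_zpow]
      simp
  · refine ⟨I * s, ⟨hcon, hsqf, hne, hnsq, by rw [mul_pow, hI, hs]; push_cast; ring, by norm_num,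
      le_rfl, Pool.Agent.R384.vl_sub_one, fun σ => ?_, hinr, fun _ he κ hκ => ?_⟩⟩
    · rw [hlt, phi_odd hr, map_mul]
      have hIs : I * s ≠ 0 := mul_ne_zero hI0 hs0
      rcases hcys1 I hI σ with ⟨g1, g2⟩ | ⟨g1, g2⟩ <;> rcases hε σ with ⟨h1, h2⟩ | ⟨h1, h2⟩
      · rw [phi_one.2 g2, h2, hp1, g1, h1]
        simp
      · rw [phi_one.2 g2, h2, hm1, g1, h1, one_mul, mul_neg]
        exact ⟨fun h => absurd h.symm one_ne, fun h => absurd h (hneg _ hIs)⟩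
      · rw [phi_neg_one.2 g2, h2, hp1, g1, h1, mul_one, neg_mul]
        exact ⟨fun h => absurd h.symm one_ne, fun h => absurd h (hneg _ hIs)⟩
      · rw [phi_neg_one.2 g2, h2, hm1, g1, h1]
        simp
    · have h1 : ¬ κ s = s := fun h => by
        have := (hκ.2.2 s d hd0 hs).1 h
        omega
      have h2 : ε κ = -1 := by
        rcases hε κ with ⟨h, -⟩ | ⟨-, h⟩
        · exact absurd h h1
        · exact h
      unfold vl
      rw [hval, hκ.2.1, h2, hr.neg_one_zpow]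
      simp

end Pool.Agent.NH57.SQ
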