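import Pool.Agent.NH57.SQ.Stm

set_option autoImplicit false
set_option linter.unusedVariables false

/-! # SQ-CHB: the characters `cyc ^ r ε`, second case -/

namespace Pool.Agent.NH57.SQ

open Pool.Agent.R384 (Coc CobOn vl md)

namespace CHBAux

theorem n2 : ‖(2 : ℤ_[2])‖ = 1 / 2 := by
  have h := PadicInt.norm_p (p := 2)
  rw [Nat.cast_ofNat] at h
  rw [h]
  norm_num

theorem norm_odd (t : ℤ_[2]) : ‖1 + 2 * t‖ = 1 := by
  have h1 : ‖2 * t‖ ≤ 1 / 2 := by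
    rw [norm_mul, n2]
    have := PadicInt.norm_le_one t
    linarith
  rw [PadicInt.norm_add_eq_max_of_ne, norm_one, max_eq_left (by linarith)]
  rw [norm_one]
  intro h
  linarith

theorem norm_pow (z : ℤ_[2]) (hz : ‖z - 1‖ ≤ 1 / 4) (m : ℕ) :
    ‖z ^ m - 1‖ = ‖(m : ℤ_[2])‖ * ‖z - 1‖ := by
  induction m using Nat.strong_induction_on with
  | _ m ih =>
    rcases Nat.eq_zero_or_pos m with rfl | hm
    · simp
    rcases Nat.even_or_odd' m with ⟨j, rfl | rfl⟩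
    · have h1 := ih j (by omega)
      have h2 : ‖z ^ j - 1‖ ≤ 1 / 4 := by
        rw [h1]
        have := PadicInt.norm_le_one (j : ℤ_[2])
        nlinarith [norm_nonneg (z - 1)]
      have h3 : ‖z ^ j + 1‖ = 1 / 2 := by
        have : z ^ j + 1 = 2 + (z ^ j - 1) := by ring
        rw [this, PadicInt.norm_add_eq_max_of_ne, n2, max_eq_left (by linarith)]
        rw [n2]
        intro h
        linarith
      have h4 : z ^ (2 * j) - 1 = (z ^ j - 1) * (z ^ j + 1) := by ring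
      rw [h4, norm_mul, h1, h3, Nat.cast_mul, norm_mul, Nat.cast_ofNat, n2]
      ring
    · have h1 := ih (2 * j) (by omega)
      have h5 : ‖((2 * j + 1 : ℕ) : ℤ_[2])‖ = 1 := by
        have := norm_odd (j : ℤ_[2])
        push_cast
        rwa [add_comm]
      rw [h5, one_mul]
      have h4 : z ^ (2 * j + 1) - 1 = (z - 1) + z * (z ^ (2 * j) - 1) := by ring
      by_cases hz1 : z = 1
      · subst hz1
        simp
      have hpos : 0 < ‖z - 1‖ := norm_pos_iff.2 (sub_ne_zero.2 hz1)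
      have h6 : ‖z * (z ^ (2 * j) - 1)‖ ≤ 1 / 2 * ‖z - 1‖ := by
        rw [norm_mul, h1, Nat.cast_mul, norm_mul, Nat.cast_ofNat, n2]
        have e1 := PadicInt.norm_le_one z
        have e2 := PadicInt.norm_le_one (j : ℤ_[2])
        have e3 := norm_nonneg z
        have e4 := norm_nonneg (j : ℤ_[2])
        have e5 : ‖z‖ * ‖(j : ℤ_[2])‖ ≤ 1 := mul_le_one₀ e1 e4 e2
        calc ‖z‖ * (1 / 2 * ‖(j : ℤ_[2])‖ * ‖z - 1‖)
            = (‖z‖ * ‖(j : ℤ_[2])‖) * (1 / 2 * ‖z - 1‖) := by ring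
          _ ≤ 1 * (1 / 2 * ‖z - 1‖) := by gcongr
          _ = _ := by ring
      rw [h4, PadicInt.norm_add_eq_max_of_ne, max_eq_left (by linarith)]
      intro h
      linarith

theorem norm_zpow (z : ℤ_[2]ˣ) (hz : ‖(z : ℤ_[2]) - 1‖ ≤ 1 / 4) (m : ℤ) :
    ‖((z ^ m : ℤ_[2]ˣ) : ℤ_[2]) - 1‖ = ‖(m : ℤ_[2])‖ * ‖(z : ℤ_[2]) - 1‖ := by
  obtain ⟨n, rfl | rfl⟩ := m.eq_nat_or_neg
  · rw [zpow_natCast, Units.val_pow_eq_pow_val, Int.cast_natCast]
    exact norm_pow _ hz n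
  · have h1 : (((z ^ (-(n : ℤ)) : ℤ_[2]ˣ)) : ℤ_[2]) - 1 =
        ((z ^ (-(n : ℤ)) : ℤ_[2]ˣ) : ℤ_[2]) * (1 - (z : ℤ_[2]) ^ n) := by
      rw [mul_sub, mul_one, ← Units.val_pow_eq_pow_val, ← Units.val_mul, zpow_neg, zpow_natCast,
        inv_mul_cancel, Units.val_one]
    rw [h1, norm_mul, PadicInt.norm_units, one_mul, norm_sub_rev, norm_pow _ hz n, Int.cast_neg,
      norm_neg, Int.cast_natCast]

theorem two_not_sq [Fact (Nat.Prime 2)] : ¬ IsSquare (((2 : ℤ)) : ℚ_[2]) := by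
  rintro ⟨y, hy⟩
  have h2 : (((2 : ℤ)) : ℚ_[2]) = ((2 : ℕ) : ℚ_[2]) := by norm_num
  rw [h2] at hy
  have hy0 : y ≠ 0 := by
    rintro rfl
    norm_num at hy
  have h3 := congrArg Padic.valuation hy
  rw [Padic.valuation_p, Padic.valuation_mul hy0 hy0] at h3
  omega

theorem norm_vl {G : Type} [Group G] (χ : G →* ℤ_[2]ˣ) (σ : G) :
    ‖vl χ σ - 1‖ = ‖(χ σ : ℤ_[2]) - 1‖ := by
  unfold vl
  have h1 : ((χ σ : ℤ_[2]) : ℚ_[2]) - 1 = (((χ σ : ℤ_[2]) - 1 : ℤ_[2]) : ℚ_[2]) := by push_cast; rfl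
  rw [h1, PadicInt.padic_norm_e_of_padicInt]

/-- the square of the cyclotomic character -/
theorem sq_near {w : ℤ_[2]} (h : (8 : ℤ_[2]) ∣ w - 1 ∨ (8 : ℤ_[2]) ∣ w + 1) :
    ‖w ^ 2 - 1‖ ≤ 1 / 16 := by
  have key : ∃ a : ℤ_[2], w ^ 2 - 1 = 2 * (2 * (2 * (2 * a))) := by
    rcases h with ⟨k, hk⟩ | ⟨k, hk⟩
    · refine ⟨k + 4 * k ^ 2, ?_⟩
      have : w = 1 + 8 * k := by linear_combination hk
      rw [this]; ring
    · refine ⟨-k + 4 * k ^ 2, ?_⟩
      have : w = -1 + 8 * k := by linear_combination hk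
      rw [this]; ring
  obtain ⟨a, ha⟩ := key
  rw [ha, norm_mul, norm_mul, norm_mul, norm_mul, n2]
  have := PadicInt.norm_le_one a
  linarith

theorem sq_far {w : ℤ_[2]} (h : (8 : ℤ_[2]) ∣ w - 3 ∨ (8 : ℤ_[2]) ∣ w + 3) :
    ‖w ^ 2 - 1‖ = 1 / 8 := by
  have key : ∃ a : ℤ_[2], w ^ 2 - 1 = 2 * (2 * (2 * (1 + 2 * a))) := by
    rcases h with ⟨k, hk⟩ | ⟨k, hk⟩
    · refine ⟨3 * k + 4 * k ^ 2, ?_⟩
      have : w = 3 + 8 * k := by linear_combination hk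
      rw [this]; ring
    · refine ⟨-3 * k + 4 * k ^ 2, ?_⟩
      have : w = -3 + 8 * k := by linear_combination hk
      rw [this]; ring
  obtain ⟨a, ha⟩ := key
  rw [ha, norm_mul, norm_mul, norm_mul, norm_odd, n2]
  norm_num

theorem near {w : ℤ_[2]} (h4 : (4 : ℤ_[2]) ∣ w - 1)
    (h : (8 : ℤ_[2]) ∣ w - 1 ∨ (8 : ℤ_[2]) ∣ w + 1) : ‖w - 1‖ ≤ 1 / 8 := by
  have h8 : (8 : ℤ_[2]) ∣ w - 1 := by
    rcases h with h | ⟨k, hk⟩
    · exact h
    · exfalso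
      obtain ⟨l, hl⟩ := h4
      have h2 : (2 : ℤ_[2]) * (1 + 2 * (l - 2 * k)) = 0 := by linear_combination hk - hl
      have h3 := congrArg norm h2
      rw [norm_mul, norm_odd, n2] at h3
      norm_num at h3
  obtain ⟨a, ha⟩ := h8
  have : w - 1 = 2 * (2 * (2 * a)) := by rw [ha]; ring
  rw [this, norm_mul, norm_mul, norm_mul, n2]
  have := PadicInt.norm_le_one a
  linarith

theorem far {w : ℤ_[2]} (h4 : (4 : ℤ_[2]) ∣ w - 1)
    (h : (8 : ℤ_[2]) ∣ w - 3 ∨ (8 : ℤ_[2]) ∣ w + 3) : ‖w - 1‖ = 1 / 4 := by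
  have key : ∃ a : ℤ_[2], w - 1 = 2 * (2 * (1 + 2 * a)) := by
    rcases h with ⟨k, hk⟩ | ⟨k, hk⟩
    · exfalso
      obtain ⟨l, hl⟩ := h4
      have h2 : (2 : ℤ_[2]) * (1 + 2 * (2 * k - l)) = 0 := by linear_combination hl - hk
      have h3 := congrArg norm h2
      rw [norm_mul, norm_odd, n2] at h3
      norm_num at h3
    · exact ⟨k - 1, by linear_combination hk⟩
  obtain ⟨a, ha⟩ := key
  rw [ha, norm_mul, norm_mul, norm_odd, n2]
  norm_num

end CHBAux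

open CHBAux in
theorem t_CHB : S_CHB := by
  intro hCYI hCYS r d s ε hr hs hε hεc hd
  obtain ⟨u, hu⟩ := IsAlgClosed.exists_pow_nat_eq (2 : QB) (n := 2) (by norm_num)
  have hu0 : u ≠ 0 := by
    rintro rfl
    norm_num at hu
  have hneg : ∀ σ : GQ, σ u = -u → σ u ≠ u := by
    intro σ h1 h2
    rw [h1] at h2
    exact hu0 (self_eq_neg.1 h2.symm)
  have hs0 : s ≠ 0 := by
    rintro rfl
    rcases hd with ⟨_, rfl⟩ | ⟨_, rfl⟩ <;> norm_num at hs
  have hcont : Continuous (cyc ^ r * ε) := by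
    have h1 : Continuous (fun σ => cyc σ ^ r * ε σ) := (hCYI.1.zpow r).mul hεc
    exact h1
  have hinr : ∀ (p : ℕ) [Fact p.Prime] (ι : QB →ₐ[ℚ] PadicAlgCl p), p ≠ 2 → ∀ σ ∈ II ι,
      vl (cyc ^ r * ε) σ = 1 ∨ vl (cyc ^ r * ε) σ = -1 := by
    intro p _ ι hp σ hσ
    have h1 : (cyc ^ r * ε) σ = ε σ := by
      show cyc σ ^ r * ε σ = ε σ
      rw [hCYI.2.1 p ι hp σ hσ, one_zpow, one_mul]
    unfold vl
    rw [h1]
    rcases hε σ with ⟨_, h⟩ | ⟨_, h⟩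
    · left; rw [h]; simp
    · right; rw [h]; simp
  have hfin : ∀ ρ : ℝ, 0 < ρ → ρ ≤ 1 / 2 →
      (∀ σ : GQ, (σ u = u → ‖((cyc ^ r * ε) σ : ℤ_[2]) - 1‖ < ρ) ∧
        (σ u = -u → ‖((cyc ^ r * ε) σ : ℤ_[2]) - 1‖ = ρ)) →
      ∃ (u : QB) (ρ : ℝ), Dt (cyc ^ r * ε) 2 u ρ := by
    intro ρ h0 h1 h
    refine ⟨u, ρ, ⟨hcont, Int.prime_two.squarefree,
      by norm_num, two_not_sq, ?_, h0, h1, ?_, ?_, hinr, ?_⟩⟩
    · rw [hu]; norm_num
    · intro σ
      rw [norm_vl]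
      rcases hCYS.2 u hu σ with ⟨h2, _⟩ | ⟨h2, _⟩
      · exact ((h σ).1 h2).le
      · exact ((h σ).2 h2).le
    · intro σ
      rw [norm_vl]
      rcases hCYS.2 u hu σ with ⟨h2, _⟩ | ⟨h2, _⟩
      · exact ⟨fun _ => h2, fun _ => (h σ).1 h2⟩
      · refine ⟨fun h3 => ?_, fun h3 => absurd h3 (hneg σ h2)⟩
        rw [(h σ).2 h2] at h3
        exact absurd h3 (lt_irrefl _)
    · intro h2
      exact absurd rfl h2
  rcases hd with ⟨⟨m, hm⟩, rfl⟩ | ⟨hodd, rfl⟩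
  · -- the even case
    have hm0 : m ≠ 0 := by
      rintro rfl
      exact hr (by simpa using hm)
    have hε1 : ∀ σ, ε σ = 1 := by
      intro σ
      rcases hε σ with ⟨_, h⟩ | ⟨h1, _⟩
      · exact h
      · exfalso
        have hs2 : s = 1 ∨ s = -1 := by
          have h2 : (s - 1) * (s + 1) = 0 := by
            have h3 : s ^ 2 = 1 := by rw [hs]; norm_num
            linear_combination h3
          rcases mul_eq_zero.1 h2 with h | h
          · left; linear_combination h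
          · right; linear_combination h
        have hs3 : σ s = s := by
          rcases hs2 with rfl | rfl <;> simp
        rw [hs3] at h1
        exact hs0 (self_eq_neg.1 h1)
    have hmn : 0 < ‖(m : ℤ_[2])‖ := norm_pos_iff.2 (by exact_mod_cast hm0)
    have hmle := PadicInt.norm_le_one (m : ℤ_[2])
    have hval : ∀ σ : GQ, ‖(cyc σ : ℤ_[2]) ^ 2 - 1‖ ≤ 1 / 4 →
        ‖((cyc ^ r * ε) σ : ℤ_[2]) - 1‖ = ‖(m : ℤ_[2])‖ * ‖(cyc σ : ℤ_[2]) ^ 2 - 1‖ := by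
      intro σ h
      have h1 : (cyc ^ r * ε) σ = (cyc σ ^ 2) ^ m := by
        show cyc σ ^ r * ε σ = _
        rw [hε1 σ, mul_one, hm, ← two_mul, zpow_mul]
        rfl
      rw [h1]
      have h2 := norm_zpow (cyc σ ^ 2) (by rw [Units.val_pow_eq_pow_val]; exact h) m
      rw [Units.val_pow_eq_pow_val] at h2
      exact h2
    refine hfin (‖(m : ℤ_[2])‖ * (1 / 8)) (by positivity) (by linarith) fun σ => ?_
    rcases hCYS.2 u hu σ with ⟨h2, h3⟩ | ⟨h2, h3⟩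
    · refine ⟨fun _ => ?_, fun h => absurd h2 (hneg σ h)⟩
      have h4 := sq_near h3
      rw [hval σ (by linarith)]
      nlinarith
    · refine ⟨fun h => absurd h (hneg σ h2), fun _ => ?_⟩
      have h4 := sq_far h3
      rw [hval σ (by linarith), h4]
  · -- the odd case
    have hs1 : s ^ 2 = -1 := by rw [hs]; norm_num
    have hrn : ‖(r : ℤ_[2])‖ = 1 := by
      obtain ⟨k, hk⟩ := hodd
      have := norm_odd (k : ℤ_[2])
      rw [hk]
      push_cast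
      rwa [add_comm]
    have h4 : ∀ σ : GQ, (4 : ℤ_[2]) ∣ ((cyc σ * ε σ : ℤ_[2]ˣ) : ℤ_[2]) - 1 := by
      intro σ
      rcases hCYS.1 s hs1 σ with ⟨h1, h2⟩ | ⟨h1, h2⟩ <;> rcases hε σ with ⟨h3, h4⟩ | ⟨h3, h4⟩
      · rw [h4, mul_one]; exact h2
      · exfalso
        rw [h1] at h3
        exact hs0 (self_eq_neg.1 h3)
      · exfalso
        rw [h1] at h3
        exact hs0 (self_eq_neg.1 h3.symm)
      · rw [h4, Units.val_mul, Units.val_neg, Units.val_one]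
        obtain ⟨k, hk⟩ := h2
        exact ⟨-k, by linear_combination -hk⟩
    have hval : ∀ σ : GQ, ‖((cyc σ * ε σ : ℤ_[2]ˣ) : ℤ_[2]) - 1‖ ≤ 1 / 4 →
        ‖((cyc ^ r * ε) σ : ℤ_[2]) - 1‖ = ‖((cyc σ * ε σ : ℤ_[2]ˣ) : ℤ_[2]) - 1‖ := by
      intro σ h
      have h1 : (cyc ^ r * ε) σ = (cyc σ * ε σ) ^ r := by
        show cyc σ ^ r * ε σ = _
        rw [mul_zpow]
        congr 1
        rcases hε σ with ⟨_, h⟩ | ⟨_, h⟩
        · rw [h, one_zpow]
        · rw [h, hodd.neg_one_zpow]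
      rw [h1, norm_zpow _ h r, hrn, one_mul]
    refine hfin (1 / 4) (by norm_num) (by norm_num) fun σ => ?_
    have hpm : ((cyc σ * ε σ : ℤ_[2]ˣ) : ℤ_[2]) = cyc σ ∨
        ((cyc σ * ε σ : ℤ_[2]ˣ) : ℤ_[2]) = -(cyc σ : ℤ_[2]) := by
      rcases hε σ with ⟨_, h⟩ | ⟨_, h⟩
      · left; rw [h, mul_one]
      · right; rw [h, Units.val_mul, Units.val_neg, Units.val_one]; ring
    rcases hCYS.2 u hu σ with ⟨h2, h3⟩ | ⟨h2, h3⟩
    · refine ⟨fun _ => ?_, fun h => absurd h2 (hneg σ h)⟩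
      have h5 := near (h4 σ) (by
        rcases hpm with h | h
        · rw [h]; exact h3
        · rw [h]
          rcases h3 with ⟨k, hk⟩ | ⟨k, hk⟩
          · exact Or.inr ⟨-k, by linear_combination -hk⟩
          · exact Or.inl ⟨-k, by linear_combination -hk⟩)
      rw [hval σ (by linarith)]
      linarith
    · refine ⟨fun h => absurd h (hneg σ h2), fun _ => ?_⟩
      have h5 := far (h4 σ) (by
        rcases hpm with h | h
        · rw [h]; exact h3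
        · rw [h]
          rcases h3 with ⟨k, hk⟩ | ⟨k, hk⟩
          · exact Or.inr ⟨-k, by linear_combination -hk⟩
          · exact Or.inl ⟨-k, by linear_combination -hk⟩)
      rw [hval σ (by linarith), h5]

end Pool.Agent.NH57.SQ
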