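import Pool.Agent.NH57.SQ.Stm

/-!
# SQ-CYI (helper23): the cyclotomic character on the inertia groups, and conjugation
-/

set_option autoImplicit false
set_option linter.unusedSectionVars false

namespace Pool.Agent.NH57.SQ

namespace CYI

/-- automorphisms preserve the norm -/
theorem nrm {p : ℕ} [Fact p.Prime] (τ : PadicAlgCl p ≃ₐ[ℚ_[p]] PadicAlgCl p) (x : PadicAlgCl p) :
    ‖τ x‖ = ‖x‖ := by
  rw [← PadicAlgCl.spectralNorm_eq, ← PadicAlgCl.spectralNorm_eq]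
  exact (spectralNorm_eq_of_equiv τ x).symm

theorem norm_two_odd {p : ℕ} [Fact p.Prime] (hp : p ≠ 2) : ‖(2 : PadicAlgCl p)‖ = 1 := by
  have hpp : p.Prime := Fact.out
  have h : ¬ p ∣ 2 := fun h => hp ((Nat.prime_dvd_prime_iff_eq hpp Nat.prime_two).1 h)
  have h1 : (2 : PadicAlgCl p) = (((2 : ℕ) : ℚ_[p]) : PadicAlgCl p) := by
    norm_cast
  rw [h1, PadicAlgCl.norm_extends, Padic.norm_natCast_eq_one_iff]
  exact ((Fact.out : p.Prime).coprime_iff_not_dvd).2 h

theorem cyc_cont : Continuous cyc := cyclotomicCharacter.continuous 2 ℚ QB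

instance enough (i : ℕ) : HasEnoughRootsOfUnity QB (2 ^ i) := by
  have : NeZero ((2 ^ i : ℕ) : QB) := ⟨by push_cast; exact pow_ne_zero _ two_ne_zero⟩
  infer_instance

theorem cyc_spec (σ : GQ) {n : ℕ} {t : QB} (ht : t ^ 2 ^ n = 1) :
    σ t = t ^ (((cyc σ : ℤ_[2]ˣ) : ℤ_[2]).toZModPow n).val :=
  cyclotomicCharacter.spec (L := QB) 2 (n := n) (MulSemiringAction.toRingAut GQ QB σ) t ht

/-- the roots of unity are fixed by the inertia groups of the odd primes -/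
theorem root_fix {p : ℕ} [Fact p.Prime] (hp : p ≠ 2) {τ : PadicAlgCl p ≃ₐ[ℚ_[p]] PadicAlgCl p}
    (hin : ∀ z : PadicAlgCl p, ‖z‖ ≤ 1 → ‖τ z - z‖ < 1) (n : ℕ) :
    ∀ z : PadicAlgCl p, z ^ 2 ^ n = 1 → τ z = z := by
  intro z hz
  have hz0 : z ≠ 0 := by
    rintro rfl
    rw [zero_pow (by positivity)] at hz
    exact zero_ne_one hz
  have hz1 : ‖z‖ = 1 := by
    have h1 := congrArg norm hz
    rw [norm_pow, norm_one] at h1
    exact (pow_eq_one_iff_of_nonneg (norm_nonneg _) (by positivity)).1 h1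
  set u := τ z / z with hu
  have hu1 : u ^ 2 ^ n = 1 := by
    rw [hu, div_pow, ← map_pow, hz, map_one, div_one]
  have hu2 : ‖u - 1‖ < 1 := by
    have h1 := hin z hz1.le
    have e : u - 1 = (τ z - z) / z := by rw [hu]; field_simp
    rw [e, norm_div, hz1, div_one]
    exact h1
  have key : ∀ m : ℕ, u ^ 2 ^ m = 1 → u = 1 := by
    intro m
    induction m with
    | zero =>
      intro h
      simpa using h
    | succ m ih =>
      intro h
      apply ih
      have h1 : (u ^ 2 ^ m) ^ 2 = 1 := by rw [← pow_mul, ← pow_succ, h]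
      rcases sq_eq_one_iff.1 h1 with h2 | h2
      · exact h2
      · exfalso
        have h3 : ‖u ^ 2 ^ m - 1‖ < 1 := by
          have hun : ‖u‖ = 1 := by rw [hu, norm_div, nrm, hz1, div_one]
          -- the quotient is integral
          have h4 : u ^ 2 ^ m - 1 = (u - 1) * ∑ i ∈ Finset.range (2 ^ m), u ^ i := by
            rw [mul_comm, geom_sum_mul]
          rw [h4, norm_mul]
          have h5 : ‖∑ i ∈ Finset.range (2 ^ m), u ^ i‖ ≤ 1 := by
            apply IsUltrametricDist.norm_sum_le_of_forall_le_of_nonneg (by norm_num)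
            intro i _
            rw [norm_pow, hun, one_pow]
          calc ‖u - 1‖ * _ ≤ ‖u - 1‖ * 1 := mul_le_mul_of_nonneg_left h5 (norm_nonneg _)
            _ < 1 := by rwa [mul_one]
        rw [h2] at h3
        have e : (-1 - 1 : PadicAlgCl p) = -2 := by norm_num
        rw [e, norm_neg, norm_two_odd hp] at h3
        exact lt_irrefl _ h3
  have h1 := key n hu1
  rw [hu, div_eq_one_iff_eq hz0] at h1
  exact h1

theorem cyc_inert {p : ℕ} [Fact p.Prime] (hp : p ≠ 2) {ι : QB →ₐ[ℚ] PadicAlgCl p} {σ : GQ}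
    (hσ : σ ∈ II ι) : cyc σ = 1 := by
  obtain ⟨τ, hτ, hin⟩ := hσ
  apply Units.ext
  apply PadicInt.ext_of_toZModPow.mp
  intro n
  obtain ⟨ζ, hζ⟩ := HasEnoughRootsOfUnity.exists_primitiveRoot QB (2 ^ n)
  have h1 : σ ζ = ζ := by
    apply ι.injective
    show ι (σ ζ) = ι ζ
    rw [← hτ]
    exact root_fix hp hin n (ι ζ) (by rw [← map_pow, hζ.pow_eq_one, map_one])
  have h2 := cyc_spec σ hζ.pow_eq_one
  rw [h1] at h2
  rw [Units.val_one, map_one]
  rcases Nat.eq_zero_or_pos n with rfl | hn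
  · have : Subsingleton (ZMod (2 ^ 0)) := by rw [pow_zero]; infer_instance
    exact Subsingleton.elim _ _
  have h3 : (1 : ℕ) < 2 ^ n := Nat.one_lt_two_pow (by omega)
  have h4 : (((cyc σ : ℤ_[2]ˣ) : ℤ_[2]).toZModPow n).val = 1 := by
    apply hζ.pow_inj (ZMod.val_lt _) h3
    rw [← h2, pow_one]
  have : Fact (1 < 2 ^ n) := ⟨h3⟩
  apply ZMod.val_injective
  rw [h4, ZMod.val_one]

end CYI

open CYI

theorem t_CYI : S_CYI := by
  refine ⟨cyc_cont, fun p _ ι hp σ hσ => cyc_inert hp hσ, ?_⟩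
  rintro p _ ι σ ⟨t₁, h1, h2⟩ τ ⟨t₂, h3⟩
  have h4 : ∀ x, t₂⁻¹ (ι x) = ι (τ⁻¹ x) := by
    intro x
    have h5 : ι x = t₂ (ι (τ⁻¹ x)) := by
      rw [h3, ← AlgEquiv.mul_apply, mul_inv_cancel, AlgEquiv.one_apply]
    rw [h5, ← AlgEquiv.mul_apply, inv_mul_cancel, AlgEquiv.one_apply]
  refine ⟨t₂⁻¹ * t₁ * t₂, fun x => ?_, fun z hz => ?_⟩
  · rw [AlgEquiv.mul_apply, AlgEquiv.mul_apply, h3, h1, h4]
    rfl
  · have h6 : (t₂⁻¹ * t₁ * t₂) z - z = t₂⁻¹ (t₁ (t₂ z) - t₂ z) := by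
      rw [map_sub, AlgEquiv.mul_apply, AlgEquiv.mul_apply, ← AlgEquiv.mul_apply t₂⁻¹ t₂,
        inv_mul_cancel, AlgEquiv.one_apply]
    rw [h6, nrm]
    exact h2 _ (by rwa [nrm])

end Pool.Agent.NH57.SQ
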