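import Pool.Agent.NH57.SQ.Stm

/-!
# SQ-CYS: the cyclotomic character modulo four and modulo eight
-/

set_option autoImplicit false

namespace Pool.Agent.NH57.SQ

namespace CYS

instance enough (i : ℕ) : HasEnoughRootsOfUnity QB (2 ^ i) := by
  have : NeZero ((2 ^ i : ℕ) : QB) := ⟨by push_cast; exact pow_ne_zero _ two_ne_zero⟩
  infer_instance

lemma cyc_spec (σ : GQ) {n : ℕ} {t : QB} (ht : t ^ 2 ^ n = 1) :
    σ t = t ^ (((cyc σ : ℤ_[2]ˣ) : ℤ_[2]).toZModPow n).val :=
  cyclotomicCharacter.spec (L := QB) 2 (n := n) (MulSemiringAction.toRingAut GQ QB σ) t ht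

lemma dvd_four (x : ℤ_[2]) : (4 : ℤ_[2]) ∣ x ↔ PadicInt.toZModPow 2 x = 0 := by
  rw [← RingHom.mem_ker, PadicInt.ker_toZModPow, Ideal.mem_span_singleton]
  norm_num

lemma dvd_eight (x : ℤ_[2]) : (8 : ℤ_[2]) ∣ x ↔ PadicInt.toZModPow 3 x = 0 := by
  rw [← RingHom.mem_ker, PadicInt.ker_toZModPow, Ideal.mem_span_singleton]
  norm_num

end CYS

open CYS in
theorem t_CYS : S_CYS := by
  constructor
  · intro I hI σ
    have h4 : I ^ 2 ^ 2 = 1 := by
      have : I ^ 2 ^ 2 = (I ^ 2) ^ 2 := by ring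
      rw [this, hI]
      norm_num
    have h1 := cyc_spec σ h4
    have hu : IsUnit (((cyc σ : ℤ_[2]ˣ) : ℤ_[2]).toZModPow 2) := (cyc σ).isUnit.map _
    have h01 : ∀ z : ZMod (2 ^ 2), IsUnit z → z = 1 ∨ z = -1 := by decide
    rcases h01 _ hu with h2 | h2
    · left
      rw [h2] at h1
      have h3 : ((1 : ZMod (2 ^ 2))).val = 1 := by decide
      rw [h3, pow_one] at h1
      exact ⟨h1, by rw [dvd_four, map_sub, map_one, h2, sub_self]⟩
    · right
      rw [h2] at h1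
      have h3 : ((-1 : ZMod (2 ^ 2))).val = 3 := by decide
      rw [h3] at h1
      have h5 : I ^ 3 = -I := by
        have : I ^ 3 = I ^ 2 * I := by ring
        rw [this, hI]
        ring
      rw [h5] at h1
      exact ⟨h1, by rw [dvd_four, map_add, map_one, h2, neg_add_cancel]⟩
  · intro u hu2 σ
    obtain ⟨z, hz⟩ : ∃ z : QB, z ^ 4 = -1 := IsAlgClosed.exists_pow_nat_eq (-1 : QB) (by norm_num)
    have h8 : z ^ 2 ^ 3 = 1 := by
      have : z ^ 2 ^ 3 = (z ^ 4) ^ 2 := by ring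
      rw [this, hz]
      norm_num
    have e3 : z ^ 7 = -z ^ 3 := by
      have : z ^ 7 = z ^ 4 * z ^ 3 := by ring
      rw [this, hz]
      ring
    obtain ⟨w, hw⟩ : ∃ w : QB, w = z - z ^ 3 := ⟨_, rfl⟩
    have hw2 : w ^ 2 = 2 := by
      have : w ^ 2 = z ^ 2 - 2 * z ^ 4 + z ^ 4 * z ^ 2 := by rw [hw]; ring
      rw [this, hz]
      ring
    have huw : u = w ∨ u = -w := sq_eq_sq_iff_eq_or_eq_neg.1 (hu2.trans hw2.symm)
    have h1 := cyc_spec σ h8
    have hun : IsUnit (((cyc σ : ℤ_[2]ˣ) : ℤ_[2]).toZModPow 3) := (cyc σ).isUnit.map _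
    have h01 : ∀ z : ZMod (2 ^ 3), IsUnit z → z = 1 ∨ z = 3 ∨ z = -3 ∨ z = -1 := by decide
    have hσw : σ w = σ z - (σ z) ^ 3 := by rw [hw, map_sub, map_pow]
    have key : ∀ (s : QB), σ w = s → s = w → σ u = u := by
      intro s h2 h3
      rw [h3] at h2
      rcases huw with h | h
      · rw [h, h2]
      · rw [h, map_neg, h2]
    have key' : ∀ (s : QB), σ w = s → s = -w → σ u = -u := by
      intro s h2 h3
      rw [h3] at h2
      rcases huw with h | h
      · rw [h, h2]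
      · rw [h, map_neg, h2]
    rcases h01 _ hun with h2 | h2 | h2 | h2
    · left
      rw [h2] at h1
      have h3 : ((1 : ZMod (2 ^ 3))).val = 1 := by decide
      rw [h3, pow_one] at h1
      refine ⟨key _ hσw ?_, Or.inl ?_⟩
      · rw [h1, hw]
      · rw [dvd_eight, map_sub, map_one, h2, sub_self]
    · right
      rw [h2] at h1
      have h3 : ((3 : ZMod (2 ^ 3))).val = 3 := by decide
      rw [h3] at h1
      refine ⟨key' _ hσw ?_, Or.inl ?_⟩
      · rw [h1, hw]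
        have : z ^ 3 - (z ^ 3) ^ 3 = z ^ 3 - z ^ 4 * z ^ 4 * z := by ring
        rw [this, hz]
        ring
      · rw [dvd_eight, map_sub, map_ofNat, h2, sub_self]
    · right
      rw [h2] at h1
      have h3 : ((-3 : ZMod (2 ^ 3))).val = 5 := by decide
      rw [h3] at h1
      refine ⟨key' _ hσw ?_, Or.inr ?_⟩
      · rw [h1, hw]
        have : z ^ 5 - (z ^ 5) ^ 3 = z ^ 4 * z - z ^ 4 * z ^ 4 * z ^ 4 * z ^ 3 := by ring
        rw [this, hz]
        ring
      · rw [dvd_eight, map_add, map_ofNat, h2, neg_add_cancel]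
    · left
      rw [h2] at h1
      have h3 : ((-1 : ZMod (2 ^ 3))).val = 7 := by decide
      rw [h3] at h1
      refine ⟨key _ hσw ?_, Or.inr ?_⟩
      · rw [h1, hw]
        have : z ^ 7 - (z ^ 7) ^ 3 = z ^ 4 * z ^ 3 - z ^ 4 * z ^ 4 * z ^ 4 * z ^ 4 * z ^ 4 * z := by ring
        rw [this, hz]
        ring
      · rw [dvd_eight, map_add, map_one, h2, neg_add_cancel]

end Pool.Agent.NH57.SQ
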