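import Pool.Agent.NH57.SQ.Den
import Pool.Agent.NH57.SQ.XL.SQ
import Pool.Agent.NH57.SQ.XL.CSa
import Pool.Agent.NH57.SQ.XL.CSb
import Pool.Agent.NH57.SQ.XL.CSc
import Pool.Agent.NH57.SQ.XL.TR
import Pool.Agent.NH57.SQ.XL.ASa
import Pool.Agent.NH57.SQ.XL.ASb
import Pool.Agent.NH57.SQ.XL.ASc

/-!
# Project SQ (helper57): the number of the pairs (copy of `card_prod` of `NH3/XT/Cnt.lean`)
-/

set_option autoImplicit false

open scoped Classical

namespace Pool.Agent.NH57.SQ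

open Pool.Agent.NH3.XT (AS CS)
open Pool.Agent.NH4.XG (nx)

theorem as_eq (D : ℤ) : AS D = XL.AS D := rfl

theorem cs_eq (D : ℤ) : CS D = XL.CS D := rfl

/-- the number of the pairs -/
theorem t_CARD : S_CARD := by
  intro D h0 hs
  have h4 : D % 4 ≠ 0 := by
    intro h
    have h1 : (2 : ℤ) * 2 ∣ D := by omega
    have h2 := hs 2 h1
    rw [Int.isUnit_iff] at h2
    omega
  have hp : ∀ p ∈ D.natAbs.primeFactors, p.Prime := fun p hp => Nat.prime_of_mem_primeFactors hp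
  have key : ∀ κ : ℤ, XL.S_CS κ → XL.S_AS κ → D % 4 = κ →
      (AS D ×ˢ CS D).Finite ∧ (AS D ×ˢ CS D).ncard = nx D.natAbs.primeFactors ^ 2 := by
    intro κ hC hA hκ
    obtain ⟨c1, c2⟩ := hC XL.t_SQ D h0 hs hκ
    obtain ⟨a1, a2⟩ := hA XL.t_SQ D h0 hs hκ
    rw [as_eq, cs_eq]
    refine ⟨a1.prod c1, ?_⟩
    rw [Set.ncard_prod, a2, c2, XL.t_TR _ hp, sq]
  have h5 : D % 4 = 1 ∨ D % 4 = 2 ∨ D % 4 = 3 := by omega
  rcases h5 with h | h | h
  · exact key 1 XL.t_CSa XL.t_ASa h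
  · exact key 2 XL.t_CSc XL.t_ASc h
  · exact key 3 XL.t_CSb XL.t_ASb h

end Pool.Agent.NH57.SQ
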