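import Pool.Agent.NH57.SQ.Stm2

/-!
# Project SQ, part SQ-DIO: from the Selmer sets to the local conditions
-/

set_option autoImplicit false

open scoped Classical

namespace Pool.Agent.NH57.SQ

open Pool.Agent.NH3.XT (AS CS S_SQ2 Sq2 A2 C2 H1 H3)

namespace Dio

lemma mod8 (x e : ℤ) (h : x * e % 8 = 1) : x % 8 = e % 8 ∧ x % 2 = 1 ∧ e % 2 = 1 := by
  have h1 : (x % 8) * (e % 8) % 8 = 1 := by rw [← Int.mul_emod]; exact h
  have hx : x % 8 = 0 ∨ x % 8 = 1 ∨ x % 8 = 2 ∨ x % 8 = 3 ∨ x % 8 = 4 ∨ x % 8 = 5 ∨ x % 8 = 6 ∨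
      x % 8 = 7 := by omega
  have he : e % 8 = 0 ∨ e % 8 = 1 ∨ e % 8 = 2 ∨ e % 8 = 3 ∨ e % 8 = 4 ∨ e % 8 = 5 ∨ e % 8 = 6 ∨
      e % 8 = 7 := by omega
  rcases hx with hx | hx | hx | hx | hx | hx | hx | hx <;>
    rcases he with he | he | he | he | he | he | he | he <;>
    rw [hx, he] at h1 <;> omega

lemma mod8' (x e : ℤ) (h : x * e % 8 = 0) : x % 4 = 0 ∨ e % 4 = 0 := by
  have h1 : (x % 8) * (e % 8) % 8 = 0 := by rw [← Int.mul_emod]; exact h
  have hx : x % 8 = 0 ∨ x % 8 = 1 ∨ x % 8 = 2 ∨ x % 8 = 3 ∨ x % 8 = 4 ∨ x % 8 = 5 ∨ x % 8 = 6 ∨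
      x % 8 = 7 := by omega
  have he : e % 8 = 0 ∨ e % 8 = 1 ∨ e % 8 = 2 ∨ e % 8 = 3 ∨ e % 8 = 4 ∨ e % 8 = 5 ∨ e % 8 = 6 ∨
      e % 8 = 7 := by omega
  rcases hx with hx | hx | hx | hx | hx | hx | hx | hx <;>
    rcases he with he | he | he | he | he | he | he | he <;>
    rw [hx, he] at h1 <;> omega

lemma mod4 (x e : ℤ) (h : x * e % 4 = 0) : x % 4 = 0 ∨ e % 4 = 0 ∨ (x % 4 = 2 ∧ e % 4 = 2) := by
  have h1 : (x % 4) * (e % 4) % 4 = 0 := by rw [← Int.mul_emod]; exact h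
  have hx : x % 4 = 0 ∨ x % 4 = 1 ∨ x % 4 = 2 ∨ x % 4 = 3 := by omega
  have he : e % 4 = 0 ∨ e % 4 = 1 ∨ e % 4 = 2 ∨ e % 4 = 3 := by omega
  rcases hx with hx | hx | hx | hx <;> rcases he with he | he | he | he <;>
    rw [hx, he] at h1 <;> omega

lemma sqf4 {x : ℤ} (hx : Squarefree x) : x % 4 ≠ 0 := by
  intro h
  have h1 : (2 : ℤ) * 2 ∣ x := by
    have : (4 : ℤ) ∣ x := Int.dvd_of_emod_eq_zero h
    simpa using this
  have h2 := hx 2 h1
  rw [Int.isUnit_iff] at h2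
  omega

lemma sqf_neg {x : ℤ} (hx : Squarefree x) : Squarefree (-x) := fun y hy => hx y ((dvd_neg).1 hy)

lemma sq2_one {x : ℤ} (hx : Squarefree x) (h : Sq2 x) : x % 8 = 1 := by
  obtain ⟨k, u, h1, h2⟩ := h
  rcases k with _ | k
  · rw [pow_zero, one_mul] at h1
    rw [h1]
    exact h2
  · exfalso
    apply sqf4 hx
    rw [h1, pow_succ]
    have : (4 : ℤ) ^ k * 4 * u = 4 * (4 ^ k * u) := by ring
    omega

lemma sq2_mul {x e : ℤ} (hx : Squarefree x) (he : Squarefree e) (h : Sq2 (x * e)) :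
    (x % 2 = 1 ∧ e % 2 = 1 ∧ x % 8 = e % 8) ∨ (x % 2 = 0 ∧ e % 2 = 0 ∧ x % 16 = e % 16) := by
  obtain ⟨k, u, h1, h2⟩ := h
  have hx4 := sqf4 hx
  have he4 := sqf4 he
  rcases k with _ | _ | k
  · rw [pow_zero, one_mul] at h1
    rw [← h1] at h2
    obtain ⟨h3, h4, h5⟩ := mod8 x e h2
    exact Or.inl ⟨h4, h5, h3⟩
  · rw [zero_add, pow_one] at h1
    rcases mod4 x e (by omega) with h3 | h3 | ⟨h3, h4⟩
    · exact absurd h3 hx4
    · exact absurd h3 he4
    · obtain ⟨a, rfl⟩ : ∃ a, x = 2 * a := ⟨x / 2, by omega⟩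
      obtain ⟨b, rfl⟩ : ∃ b, e = 2 * b := ⟨e / 2, by omega⟩
      have h5 : a * b = u := by linarith [show 2 * a * (2 * b) = 4 * (a * b) by ring]
      rw [← h5] at h2
      obtain ⟨h6, -, -⟩ := mod8 a b h2
      refine Or.inr ⟨by omega, by omega, by omega⟩
  · exfalso
    have h3 : x * e = 16 * (4 ^ k * u) := by rw [h1]; ring
    rcases mod8' x e (by omega) with h4 | h4
    · exact hx4 h4
    · exact he4 h4

lemma one_mem_AS (D : ℤ) : (1 : ℤ) ∈ AS D := by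
  refine ⟨squarefree_one, ?_, ?_⟩
  · unfold A2
    omega
  · intro p _ hp
    refine ⟨fun _ => Or.inl ?_, fun _ h => ?_⟩
    · exact ⟨1, by simp⟩
    · have h1 : (p : ℤ) = 1 := Int.eq_one_of_dvd_one (by positivity) h
      have h2 := (Fact.out : p.Prime).one_lt
      omega

lemma D_mem_AS {D : ℤ} (hD : Squarefree D) : D ∈ AS D := by
  refine ⟨hD, ?_, ?_⟩
  · unfold A2
    have := sqf4 hD
    omega
  · intro p _ hp
    refine ⟨fun _ => Or.inr ?_, fun h => h⟩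
    exact ⟨(D : ℚ_[p]), by push_cast; ring⟩

lemma one_mem_CS {D : ℤ} : (1 : ℤ) ∈ CS D := by
  refine ⟨squarefree_one, one_pos, ?_, ?_⟩
  · unfold C2
    omega
  · intro p _ hp
    refine ⟨fun _ => Or.inl ?_, fun _ h => ?_⟩
    · exact ⟨1, by simp⟩
    · have h1 : (p : ℤ) = 1 := Int.eq_one_of_dvd_one (by positivity) h
      have h2 := (Fact.out : p.Prime).one_lt
      omega

lemma D_mem_CS {D : ℤ} (hD : Squarefree D) (h0 : D < 0) : -D ∈ CS D := by
  refine ⟨(sqf_neg hD), by omega, ?_, ?_⟩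
  · unfold C2
    omega
  · intro p _ hp
    refine ⟨fun _ => Or.inr ?_, fun h h1 => h ((dvd_neg).1 h1)⟩
    exact ⟨(D : ℚ_[p]), by push_cast; ring⟩

lemma mem_AS (hS : S_SQ2) {D x : ℤ} (hD : Squarefree D) (h : LC D x) : x ∈ AS D := by
  have : Fact (Nat.Prime 2) := ⟨Nat.prime_two⟩
  have hx := h.sqf
  have hx0 : x ≠ 0 := hx.ne_zero
  have hD0 : D ≠ 0 := hD.ne_zero
  refine ⟨hx, ?_, ?_⟩
  · rcases h.sq 2 (Or.inl rfl) with h1 | h1
    · have h2 := sq2_one hx ((hS x hx0).1 h1)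
      unfold A2
      omega
    · have h2 := sq2_mul hx hD ((hS (x * D) (mul_ne_zero hx0 hD0)).1 h1)
      have h3 := sqf4 hD
      unfold A2
      omega
  · intro p _ hp
    exact ⟨fun h1 => h.sq p (Or.inr h1), fun h1 => h.odd p hp h1⟩

lemma mem_CS (hS : S_SQ2) {D x : ℤ} (hD : Squarefree D) (h0 : D < 0) (h2' : D ≠ -2)
    (h : LC (-D) x) : x ∈ CS D := by
  have : Fact (Nat.Prime 2) := ⟨Nat.prime_two⟩
  have hx := h.sqf
  have hx0 : x ≠ 0 := hx.ne_zero
  have hD0 : -D ≠ 0 := (sqf_neg hD).ne_zero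
  refine ⟨hx, h.real (by omega) (by omega), ?_, ?_⟩
  · rcases h.sq 2 (Or.inl rfl) with h1 | h1
    · have h2 := sq2_one hx ((hS x hx0).1 h1)
      have h3 := sqf4 hD
      unfold C2
      omega
    · have h2 := sq2_mul hx (sqf_neg hD) ((hS (x * -D) (mul_ne_zero hx0 hD0)).1 h1)
      have h3 := sqf4 hD
      unfold C2
      omega
  · intro p _ hp
    refine ⟨fun h1 => ?_, fun h1 => h.odd p hp (fun h2 => h1 ((dvd_neg).1 h2))⟩
    rcases h.sq p (Or.inr ((dvd_neg).2 h1)) with h3 | h3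
    · exact Or.inl h3
    · refine Or.inr ?_
      rwa [mul_neg] at h3

lemma only_two (hS : S_SQ2) {x : ℤ} (h : LC 2 x) : x = 1 ∨ x = 2 := by
  have : Fact (Nat.Prime 2) := ⟨Nat.prime_two⟩
  have hx := h.sqf
  have hx0 : x ≠ 0 := hx.ne_zero
  have hx4 := sqf4 hx
  have h1 : x.natAbs = 1 ∨ x.natAbs = 2 := by
    rcases Nat.eq_two_pow_or_exists_odd_prime_and_dvd x.natAbs with ⟨k, hk⟩ | ⟨p, hp, hpx, hodd⟩
    · rcases k with _ | _ | k
      · left; simpa using hk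
      · right; simpa using hk
      · exfalso
        have h3 : x.natAbs = 4 * 2 ^ k := by rw [hk]; ring
        omega
    · exfalso
      have : Fact p.Prime := ⟨hp⟩
      have hp2 : p ≠ 2 := by
        rintro rfl
        exact absurd hodd (by decide)
      refine h.odd p hp2 ?_ (Int.natCast_dvd.2 hpx)
      intro h3
      have h4 : p ∣ 2 := by exact_mod_cast h3
      exact hp2 ((Nat.prime_dvd_prime_iff_eq hp Nat.prime_two).1 h4)
  have h2 : Squarefree (2 : ℤ) := Int.prime_two.squarefree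
  rcases h.sq 2 (Or.inl rfl) with h3 | h3
  · have h4 := sq2_one hx ((hS x hx0).1 h3)
    omega
  · have h4 := sq2_mul hx h2 ((hS (x * 2) (mul_ne_zero hx0 two_ne_zero)).1 h3)
    omega

end Dio

open Dio in
theorem t_DIO : S_DIO := by
  intro hS D h0 hD h1 h7 hfin hcard
  have hA : ({1, D} : Set ℤ) ⊆ AS D := by
    rintro y (rfl | rfl)
    · exact one_mem_AS D
    · exact D_mem_AS hD
  have hC : ({1, -D} : Set ℤ) ⊆ CS D := by
    rintro y (rfl | rfl)
    · exact one_mem_CS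
    · exact D_mem_CS hD h0
  have hAf : (AS D).Finite := hfin.of_prod_left ⟨1, one_mem_CS⟩
  have hCf : (CS D).Finite := hfin.of_prod_right ⟨1, one_mem_AS D⟩
  have hA2 : ({1, D} : Set ℤ).ncard = 2 := Set.ncard_pair (by omega)
  have hC2 : ({1, -D} : Set ℤ).ncard = 2 := Set.ncard_pair (by omega)
  have hA3 := Set.ncard_le_ncard hA hAf
  have hC3 := Set.ncard_le_ncard hC hCf
  rw [Set.ncard_prod] at hcard
  have hA4 : (AS D).ncard = 2 := by
    rw [hA2] at hA3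
    rw [hC2] at hC3
    nlinarith
  have hC4 : (CS D).ncard = 2 := by
    rw [hA4] at hcard
    omega
  have hAe : ({1, D} : Set ℤ) = AS D := Set.eq_of_subset_of_ncard_le hA (by omega) hAf
  have hCe : ({1, -D} : Set ℤ) = CS D := Set.eq_of_subset_of_ncard_le hC (by omega) hCf
  constructor
  · intro x hx
    have h3 := mem_AS hS hD hx
    rw [← hAe] at h3
    simpa using h3
  · intro x hx
    by_cases h2 : D = -2
    · subst h2
      have h3 := only_two hS (by simpa using hx)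
      simpa using h3
    · have h3 := mem_CS hS hD h0 h2 hx
      rw [← hCe] at h3
      simpa using h3

end Pool.Agent.NH57.SQ
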