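import Pool.Agent.NH57.SQ.Stm2
import Pool.Agent.NH3.XT.LawStm

/-!
# Project SQ (helper57): the proportion
-/

set_option autoImplicit false

open scoped Classical

namespace Pool.Agent.NH57.SQ

open Finset Filter Topology
open Pool.Agent.NH3.XT (AS CS S_SQ2 S_LAW cneg)
open Pool.Agent.NH4.XG (nx S_XGDEN)
open Pool.Agent.NH4.PJ (law)
open Pool.Agent.NH5.PR (eta S_ETA)

/-- the classes modulo eight -/
def Cl (D : ℤ) : Prop := D % 8 ≠ 1 ∧ D % 8 ≠ 7

theorem law_zero : law 0 0 = eta := by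
  unfold Pool.Agent.NH4.PJ.law Pool.Agent.NH5.PR.eta
  simp only [Nat.cast_zero, zero_mul, ne_eq, OfNat.ofNat_ne_zero, not_false_eq_true, zero_pow,
    sub_zero, zpow_zero, Finset.range_zero, Finset.prod_empty, div_one, one_mul]
  refine tprod_congr fun i => ?_
  rw [show (0 - ((i : ℤ) + 1)) = -((i + 1 : ℕ) : ℤ) by push_cast; ring, zpow_neg, zpow_natCast,
    one_div, inv_pow]

/-- the number of the pairs -/
def S_CARD : Prop := ∀ D : ℤ, D < 0 → Squarefree D →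
  (AS D ×ˢ CS D).Finite ∧ (AS D ×ˢ CS D).ncard = nx D.natAbs.primeFactors ^ 2

theorem mono_cneg {P Q : ℤ → Prop} {X : ℕ} (h : ∀ D : ℤ, D < 0 → Squarefree D → P D → Q D) :
    cneg P X ≤ cneg Q X := by
  unfold cneg
  refine Nat.cast_le.2 (Finset.card_le_card fun D hD => ?_)
  rw [Finset.mem_filter, Finset.mem_Icc] at hD ⊢
  exact ⟨hD.1, hD.2.1, h D (by omega) hD.2.1 hD.2.2⟩

/-- the criterion -/
theorem only_of_nx (hc : S_CARD) (hS : S_SQ2) (hD : S_DIO) {D : ℤ} (h0 : D < 0)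
    (hs : Squarefree D) (h8 : Cl D) (hn : nx D.natAbs.primeFactors = 2) : Only D ∧ Only (-D) := by
  obtain ⟨g5, g6⟩ := hc D h0 hs
  rw [hn] at g6
  exact hD hS D h0 hs h8.1 h8.2 g5 (by rw [g6]; norm_num)

theorem cneg_congr {P Q : ℤ → Prop} {X : ℕ} (h : ∀ D : ℤ, D < 0 → Squarefree D → (P D ↔ Q D)) :
    cneg P X = cneg Q X :=
  le_antisymm (mono_cneg fun D h0 hs => (h D h0 hs).1) (mono_cneg fun D h0 hs => (h D h0 hs).2)

/-- the proportion -/
theorem den (hL : S_LAW) (hX : S_XGDEN) {q : ℕ} {P : ℤ → Prop} (hq : 0 < q)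
    (hper : ∀ D D' : ℤ, D ≡ D' [ZMOD q] → (P D ↔ P D'))
    (hex : ∃ D : ℤ, D < 0 ∧ Squarefree D ∧ P D) :
    Tendsto (fun X : ℕ => cneg (fun D => P D ∧ nx D.natAbs.primeFactors = 2) X / cneg P X) atTop
      (𝓝 eta) ∧
    ∃ (c : ℝ) (X₀ : ℕ), 0 < c ∧ ∀ X : ℕ, X₀ ≤ X → c * X ≤ cneg P X := by
  obtain ⟨h1, h2⟩ := hL hX q P hq hper hex
  refine ⟨?_, h2⟩
  have h3 := h1 1 (fun _ => ∅) (fun _ => 0) (by simp) (Function.injective_of_subsingleton _)
  rw [Fin.prod_univ_one, law_zero] at h3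
  refine h3.congr fun X => ?_
  refine congrArg (· / cneg P X) (cneg_congr fun D _ _ => and_congr_right fun _ => ?_)
  have e : symmDiff D.natAbs.primeFactors (∅ : Finset ℕ) = D.natAbs.primeFactors := by
    ext x; simp [Finset.mem_symmDiff]
  constructor
  · intro g
    have g3 := g 0
    simp only [e, zero_add, pow_one] at g3
    exact g3
  · intro g t
    simp only [e, zero_add, pow_one]
    exact g

/-- from the limit to the lower bounds -/
theorem low {P Q R : ℤ → Prop} {c : ℝ} {X₀ : ℕ} (hc : 0 < c)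
    (h2 : ∀ X : ℕ, X₀ ≤ X → c * X ≤ cneg P X)
    (h1 : Tendsto (fun X : ℕ => cneg (fun D => P D ∧ Q D) X / cneg P X) atTop (𝓝 eta))
    (hR : ∀ D : ℤ, D < 0 → Squarefree D → P D → Q D → R D) {δ : ℝ} (hδ : δ < eta) :
    ∀ᶠ X : ℕ in atTop, δ * cneg P X ≤ cneg (fun D => P D ∧ R D) X := by
  filter_upwards [h1.eventually (lt_mem_nhds hδ), eventually_ge_atTop (max X₀ 1)] with X hX1 hX2
  have hpos : 0 < cneg P X := by
    have h5 := h2 X (le_trans (le_max_left _ _) hX2)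
    have h6 : (1 : ℝ) ≤ X := by exact_mod_cast le_trans (le_max_right _ _) hX2
    have h7 : 0 < c * (X : ℝ) := by positivity
    linarith
  exact ((lt_div_iff₀ hpos).1 hX1).le.trans
    (mono_cneg fun D h0 hs hD => ⟨hD.1, hR D h0 hs hD.1 hD.2⟩)

end Pool.Agent.NH57.SQ
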