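import Pool.Agent.NH57.SQ.Den

/-!
# Project SQ (helper57): the joint proportion for `D` and `2 D`
-/

set_option autoImplicit false

open scoped Classical

namespace Pool.Agent.NH57.SQ

open Finset Filter Topology
open Pool.Agent.NH3.XT (AS CS S_SQ2 S_LAW cneg)
open Pool.Agent.NH4.XG (nx S_XGDEN)
open Pool.Agent.NH4.PJ (law)
open Pool.Agent.NH5.PR (eta S_ETA)

/-- the masks -/
def msk (t : Fin 2) : Finset ℕ := if t = 0 then ∅ else {2}

theorem msk_inj : Function.Injective msk := by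
  intro a b h
  fin_cases a <;> fin_cases b
  · rfl
  · simp [msk] at h
  · simp [msk] at h
  · rfl

theorem symm_two {D : ℤ} (hD : D % 2 = 1) :
    symmDiff D.natAbs.primeFactors ({2} : Finset ℕ) = (2 * D).natAbs.primeFactors := by
  have h0 : D.natAbs ≠ 0 := by omega
  have h2 : 2 ∉ D.natAbs.primeFactors := by
    intro h
    have h1 := Nat.dvd_of_mem_primeFactors h
    omega
  rw [Int.natAbs_mul, Nat.primeFactors_mul (by norm_num) h0]
  have e : (2 : ℤ).natAbs.primeFactors = {2} := Nat.prime_two.primeFactors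
  rw [e]
  ext x
  rw [Finset.mem_symmDiff, Finset.mem_union, Finset.mem_singleton]
  by_cases hx : x = 2
  · subst hx
    simp [h2]
  · simp [hx]

/-- the proportion -/
theorem den8 (hL : S_LAW) (hX : S_XGDEN) {q : ℕ} {P : ℤ → Prop} (hq : 0 < q)
    (hper : ∀ D D' : ℤ, D ≡ D' [ZMOD q] → (P D ↔ P D'))
    (hex : ∃ D : ℤ, D < 0 ∧ Squarefree D ∧ P D) (hodd : ∀ D : ℤ, P D → D % 2 = 1) :
    Tendsto (fun X : ℕ => cneg (fun D => P D ∧ nx D.natAbs.primeFactors = 2 ∧
      nx (2 * D).natAbs.primeFactors = 2) X / cneg P X) atTop (𝓝 (eta ^ 2)) := by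
  obtain ⟨h1, h2⟩ := hL hX q P hq hper hex
  have h3 := h1 2 msk (fun _ => 0) (by
    intro t p hp
    unfold msk at hp
    split_ifs at hp with h
    · simp at hp
    · rw [Finset.mem_singleton] at hp
      rw [hp]
      exact Nat.prime_two) msk_inj
  rw [Fin.prod_univ_two, law_zero, ← sq] at h3
  refine h3.congr fun X => ?_
  refine congrArg (· / cneg P X) (cneg_congr fun D _ _ => and_congr_right fun hP => ?_)
  have e0 : symmDiff D.natAbs.primeFactors (msk 0) = D.natAbs.primeFactors := by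
    ext x; simp [Finset.mem_symmDiff, msk]
  have e1 : symmDiff D.natAbs.primeFactors (msk 1) = (2 * D).natAbs.primeFactors := by
    rw [← symm_two (hodd D hP)]
    rfl
  constructor
  · intro g
    have g0 := g 0
    have g1 := g 1
    rw [e0] at g0
    rw [e1] at g1
    exact ⟨g0, g1⟩
  · rintro ⟨g0, g1⟩ t
    fin_cases t
    · show nx (symmDiff D.natAbs.primeFactors (msk 0)) = 2
      rw [e0]
      exact g0
    · show nx (symmDiff D.natAbs.primeFactors (msk 1)) = 2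
      rw [e1]
      exact g1

/-- from the limit to the lower bounds -/
theorem low' {P Q R : ℤ → Prop} {c κ : ℝ} {X₀ : ℕ} (hc : 0 < c)
    (h2 : ∀ X : ℕ, X₀ ≤ X → c * X ≤ cneg P X)
    (h1 : Tendsto (fun X : ℕ => cneg (fun D => P D ∧ Q D) X / cneg P X) atTop (𝓝 κ))
    (hR : ∀ D : ℤ, D < 0 → Squarefree D → P D → Q D → R D) {δ : ℝ} (hδ : δ < κ) :
    ∀ᶠ X : ℕ in atTop, δ * cneg P X ≤ cneg (fun D => P D ∧ R D) X := by
  filter_upwards [h1.eventually (lt_mem_nhds hδ), eventually_ge_atTop (max X₀ 1)] with X hX1 hX2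
  have hpos : 0 < cneg P X := by
    have h5 := h2 X (le_trans (le_max_left _ _) hX2)
    have h6 : (1 : ℝ) ≤ X := by exact_mod_cast le_trans (le_max_right _ _) hX2
    have h7 : 0 < c * (X : ℝ) := by positivity
    linarith
  exact ((lt_div_iff₀ hpos).1 hX1).le.trans
    (mono_cneg fun D h0 hs hD => ⟨hD.1, hR D h0 hs hD.1 hD.2⟩)

/-- from the limit to all the bounds -/
theorem low_all {P Q R : ℤ → Prop} {c κ κ' : ℝ} {X₀ : ℕ} (hc : 0 < c)
    (h2 : ∀ X : ℕ, X₀ ≤ X → c * X ≤ cneg P X)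
    (h1 : Tendsto (fun X : ℕ => cneg (fun D => P D ∧ Q D) X / cneg P X) atTop (𝓝 κ))
    (hR : ∀ D : ℤ, D < 0 → Squarefree D → P D → Q D → R D) (hκ : 0 < κ') (hκ' : κ' < κ) :
    (∀ δ : ℝ, δ < κ → ∀ᶠ X : ℕ in atTop, δ * cneg P X ≤ cneg (fun D => P D ∧ R D) X) ∧
    ∃ δ : ℝ, 0 < δ ∧ ∀ᶠ X : ℕ in atTop, δ * X ≤ cneg (fun D => P D ∧ R D) X := by
  have h3 : ∀ δ : ℝ, δ < κ → ∀ᶠ X : ℕ in atTop, δ * cneg P X ≤ cneg (fun D => P D ∧ R D) X :=
    fun δ hδ => low' hc h2 h1 hR hδ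
  refine ⟨h3, κ' * c, by positivity, ?_⟩
  filter_upwards [h3 κ' hκ', eventually_ge_atTop X₀] with X h4 h5
  have h6 := h2 X h5
  calc κ' * c * (X : ℝ) = κ' * (c * X) := by ring
    _ ≤ κ' * cneg P X := mul_le_mul_of_nonneg_left h6 hκ.le
    _ ≤ _ := h4

end Pool.Agent.NH57.SQ
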