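import Pool.Agent.NH57.SQ.Den8

/-!
# Project SQ (helper57): the joint proportion for the multiquadratic fields
-/

set_option autoImplicit false

open scoped Classical

namespace Pool.Agent.NH57.SQ

open Finset Filter Topology
open Pool.Agent.NH3.XT (AS CS S_SQ2 S_LAW cneg)
open Pool.Agent.NH4.XG (nx S_XGDEN)
open Pool.Agent.NH4.PJ (law)
open Pool.Agent.NH5.PR (eta S_ETA)

variable {n : ℕ} {m : Fin n → ℕ}

/-- the product is not zero -/
theorem prod_ne (h1 : ∀ i, 1 < m i) (S : Finset (Fin n)) : ∏ i ∈ S, m i ≠ 0 :=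
  Finset.prod_ne_zero_iff.2 fun i _ => by have := h1 i; omega

theorem pf_inj (h1 : ∀ i, 1 < m i) (hc : ∀ i j, i ≠ j → Nat.Coprime (m i) (m j)) :
    Function.Injective fun S : Finset (Fin n) => (∏ i ∈ S, m i).primeFactors := by
  have key : ∀ S T : Finset (Fin n), (∏ i ∈ S, m i).primeFactors = (∏ i ∈ T, m i).primeFactors →
      S ⊆ T := by
    intro S T h i hi
    by_contra hiT
    obtain ⟨p, hp, hpi⟩ := Nat.exists_prime_and_dvd (show m i ≠ 1 by have := h1 i; omega)
    have h2 : p ∈ (∏ i ∈ S, m i).primeFactors :=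
      Nat.mem_primeFactors.2 ⟨hp, hpi.trans (Finset.dvd_prod_of_mem m hi), prod_ne h1 S⟩
    rw [h] at h2
    obtain ⟨j, hj, hpj⟩ := (hp.prime.dvd_finsetProd_iff _).1 (Nat.dvd_of_mem_primeFactors h2)
    have hij : i ≠ j := by
      rintro rfl
      exact hiT hj
    have h3 := Nat.dvd_gcd hpi hpj
    rw [hc i j hij] at h3
    exact hp.one_lt.ne' (Nat.dvd_one.1 h3)
  intro S T h
  exact Finset.Subset.antisymm (key S T h) (key T S h.symm)

theorem symm_mul {D : ℤ} {a : ℕ} (hD : D ≠ 0) (ha : a ≠ 0) (hc : Nat.Coprime D.natAbs a) :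
    symmDiff D.natAbs.primeFactors a.primeFactors = (D * a).natAbs.primeFactors := by
  have h0 : D.natAbs ≠ 0 := by omega
  rw [Int.natAbs_mul, Int.natAbs_natCast, Nat.primeFactors_mul h0 ha]
  have hd : Disjoint D.natAbs.primeFactors a.primeFactors := hc.disjoint_primeFactors
  exact hd.symmDiff_eq_sup

/-- the proportion -/
theorem denM (hL : S_LAW) (hX : S_XGDEN) (h1 : ∀ i, 1 < m i)
    (hc : ∀ i j, i ≠ j → Nat.Coprime (m i) (m j)) {q : ℕ} {P : ℤ → Prop} (hq : 0 < q)
    (hper : ∀ D D' : ℤ, D ≡ D' [ZMOD q] → (P D ↔ P D'))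
    (hex : ∃ D : ℤ, D < 0 ∧ Squarefree D ∧ P D)
    (hcop : ∀ D : ℤ, P D → ∀ i, Nat.Coprime D.natAbs (m i)) :
    Tendsto (fun X : ℕ => cneg (fun D => P D ∧ ∀ S : Finset (Fin n),
      nx (D * ((∏ i ∈ S, m i : ℕ) : ℤ)).natAbs.primeFactors = 2) X / cneg P X) atTop
      (𝓝 (eta ^ (2 ^ n))) := by
  obtain ⟨h2, -⟩ := hL hX q P hq hper hex
  set e := Fintype.equivFin (Finset (Fin n)) with he
  have hk : Fintype.card (Finset (Fin n)) = 2 ^ n := by
    rw [Fintype.card_finset, Fintype.card_fin]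
  have h3 := h2 (Fintype.card (Finset (Fin n))) (fun t => (∏ i ∈ e.symm t, m i).primeFactors)
    (fun _ => 0) (fun t p hp => Nat.prime_of_mem_primeFactors hp)
    ((pf_inj h1 hc).comp e.symm.injective)
  rw [Finset.prod_const, Finset.card_univ, Fintype.card_fin, law_zero] at h3
  rw [← hk]
  refine h3.congr fun X => ?_
  refine congrArg (· / cneg P X) (cneg_congr fun D h0 _ => and_congr_right fun hP => ?_)
  have key : ∀ S : Finset (Fin n), symmDiff D.natAbs.primeFactors (∏ i ∈ S, m i).primeFactors =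
      (D * ((∏ i ∈ S, m i : ℕ) : ℤ)).natAbs.primeFactors := by
    intro S
    exact symm_mul h0.ne (prod_ne h1 S) (Nat.Coprime.prod_right fun i _ => hcop D hP i)
  constructor
  · intro g S
    have h4 := g (e S)
    simp only [Equiv.symm_apply_apply, zero_add, pow_one] at h4
    rw [key S] at h4
    exact h4
  · intro g t
    simp only [zero_add, pow_one]
    rw [key (e.symm t)]
    exact g (e.symm t)

end Pool.Agent.NH57.SQ
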