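import Pool.Agent.NH57.SQ.Stm

/-!
# Project SQ: decomposition and inertia groups (job GRP)
-/

set_option autoImplicit false

namespace Pool.Agent.NH57.SQ

namespace GRP0

theorem nrm {p : ℕ} [Fact p.Prime] (τ : PadicAlgCl p ≃ₐ[ℚ_[p]] PadicAlgCl p) (z : PadicAlgCl p) :
    ‖τ z‖ = ‖z‖ := by
  have h := spectralNorm_eq_of_equiv τ z
  exact h.symm

end GRP0

theorem t_GRP : S_GRP := by
  intro p _ ι
  have mulD : ∀ σ ∈ DD ι, ∀ τ ∈ DD ι, σ * τ ∈ DD ι := by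
    rintro σ ⟨τ₁, h1⟩ τ ⟨τ₂, h2⟩
    refine ⟨τ₁ * τ₂, fun x => ?_⟩
    rw [AlgEquiv.mul_apply, h2, h1]
    rfl
  have invD : ∀ σ ∈ DD ι, σ⁻¹ ∈ DD ι := by
    rintro σ ⟨τ₁, h1⟩
    refine ⟨τ₁⁻¹, fun x => ?_⟩
    apply τ₁.injective
    rw [h1]
    have e1 : τ₁ (τ₁⁻¹ (ι x)) = ι x := τ₁.apply_symm_apply (ι x)
    have e2 : σ (σ⁻¹ x) = x := σ.apply_symm_apply x
    rw [e1, e2]
  refine ⟨⟨1, fun x => rfl, fun z _ => ?_⟩, ⟨1, fun x => rfl⟩, ?_, ?_, mulD, invD, ?_⟩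
  · rw [AlgEquiv.one_apply, sub_self, norm_zero]
    exact one_pos
  · rintro σ ⟨τ₁, h1, g1⟩ τ ⟨τ₂, h2, g2⟩
    refine ⟨τ₁ * τ₂, fun x => ?_, fun z hz => ?_⟩
    · rw [AlgEquiv.mul_apply, h2, h1]
      rfl
    · rw [AlgEquiv.mul_apply]
      have e : τ₁ (τ₂ z) - z = (τ₁ (τ₂ z) - τ₂ z) + (τ₂ z - z) := by ring
      rw [e]
      refine lt_of_le_of_lt (IsUltrametricDist.norm_add_le_max _ _) (max_lt ?_ (g2 z hz))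
      exact g1 (τ₂ z) (by rw [GRP0.nrm]; exact hz)
  · rintro σ ⟨τ₁, h1, g1⟩
    refine ⟨τ₁⁻¹, fun x => ?_, fun z hz => ?_⟩
    · apply τ₁.injective
      rw [h1]
      have e1 : τ₁ (τ₁⁻¹ (ι x)) = ι x := τ₁.apply_symm_apply (ι x)
      have e2 : σ (σ⁻¹ x) = x := σ.apply_symm_apply x
      rw [e1, e2]
    · have e1 : τ₁ (τ₁⁻¹ z) = z := τ₁.apply_symm_apply z
      have h3 := g1 (τ₁⁻¹ z) (by rw [GRP0.nrm]; exact hz)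
      rw [e1, norm_sub_rev] at h3
      exact h3
  · intro t
    refine ⟨ι.comp ((t⁻¹ : GQ) : QB →ₐ[ℚ] QB), ?_, ?_⟩
    · rintro σ ⟨τ₁, h1, g1⟩
      refine ⟨τ₁, fun x => ?_, g1⟩
      show τ₁ (ι (t⁻¹ x)) = ι (t⁻¹ ((t * σ * t⁻¹) x))
      rw [h1]
      congr 1
      show σ (t⁻¹ x) = t⁻¹ (t (σ (t⁻¹ x)))
      exact (t.symm_apply_apply _).symm
    · rintro σ ⟨τ₁, h1⟩
      refine ⟨τ₁, fun x => ?_⟩
      show τ₁ (ι (t⁻¹ x)) = ι (t⁻¹ ((t * σ * t⁻¹) x))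
      rw [h1]
      congr 1
      show σ (t⁻¹ x) = t⁻¹ (t (σ (t⁻¹ x)))
      exact (t.symm_apply_apply _).symm

end Pool.Agent.NH57.SQ
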