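import Pool.Agent.NH57.SQ.Stm

/-!
# Project SQ (helper57), SQ-IDX: coboundary on a subgroup of index two (helper86)
-/

set_option autoImplicit false

namespace Pool.Agent.NH57.SQ

open Pool.Agent.R384 (vl vl_mul)

theorem t_IDX : S_IDX := by
  intro J χ ε c hε hc ⟨y, hy⟩
  by_cases hall : ∀ σ ∈ J, ε σ = 1
  · exact ⟨y, fun σ hσ => hy σ hσ (hall σ hσ)⟩
  push Not at hall
  obtain ⟨σ₀, h0, h0'⟩ := hall
  have hm : ε σ₀ = -1 := (hε σ₀).resolve_left h0'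
  obtain ⟨b, hb⟩ : ∃ b : GQ → ℚ_[2], ∀ σ, b σ = c σ - (vl χ σ - 1) * y := ⟨_, fun _ => rfl⟩
  have hbm : ∀ σ ∈ J, ∀ τ ∈ J, b (σ * τ) = b σ + vl χ σ * b τ := by
    intro σ hσ τ hτ
    rw [hb, hb, hb, hc σ hσ τ hτ, vl_mul]
    ring
  have hb1 : ∀ σ ∈ J, ε σ = 1 → b σ = 0 := by
    intro σ hσ h
    rw [hb, hy σ hσ h, sub_self]
  have hbB : ∀ σ ∈ J, ε σ = -1 → b σ = b σ₀ := by
    intro σ hσ h
    have h1 : σ₀⁻¹ * σ ∈ J := J.mul_mem (J.inv_mem h0) hσ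
    have h2 : ε (σ₀⁻¹ * σ) = 1 := by
      rw [map_mul, map_inv, hm, h]
      exact inv_mul_cancel _
    have h3 := hbm σ₀ h0 _ h1
    rw [mul_inv_cancel_left, hb1 _ h1 h2, mul_zero, add_zero] at h3
    exact h3
  have hneg : ∀ σ ∈ J, ε σ = -1 → (1 + vl χ σ) * b σ₀ = 0 := by
    intro σ hσ h
    have h1 := hbm σ hσ σ hσ
    rw [hb1 _ (J.mul_mem hσ hσ) (by rw [map_mul, h]; simp), hbB σ hσ h] at h1
    rw [add_mul, one_mul]
    exact h1.symm
  have hpos : ∀ σ ∈ J, ε σ = 1 → (vl χ σ - 1) * b σ₀ = 0 := by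
    intro σ hσ h
    have h1 := hbm σ hσ σ₀ h0
    rw [hb1 σ hσ h, hbB _ (J.mul_mem hσ h0) (by rw [map_mul, h, hm, one_mul]), zero_add] at h1
    rw [sub_mul, one_mul, ← h1, sub_self]
  by_cases hB : b σ₀ = 0
  · refine ⟨y, fun σ hσ => ?_⟩
    rcases hε σ with h | h
    · exact hy σ hσ h
    · have h1 := hbB σ hσ h
      rw [hB, hb] at h1
      exact sub_eq_zero.1 h1
  · refine ⟨y - b σ₀ / 2, fun σ hσ => ?_⟩
    rcases hε σ with h | h
    · have h1 := (mul_eq_zero.1 (hpos σ hσ h)).resolve_right hB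
      rw [hy σ hσ h, h1, zero_mul, zero_mul]
    · have h1 := (mul_eq_zero.1 (hneg σ hσ h)).resolve_right hB
      have h2 : vl χ σ = -1 := by linear_combination h1
      have h3 := hbB σ hσ h
      rw [hb, h2] at h3
      rw [h2]
      linear_combination h3

end Pool.Agent.NH57.SQ
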