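import Pool.Agent.NH57.SQ.Stm
import Pool.Agent.R384.X.Coh

/-!
# Project SQ (helper57): from a group to the kernel of a quadratic character
-/

set_option autoImplicit false

namespace Pool.Agent.NH57.SQ

open Pool.Agent.R384 (Coc CobOn vl md CocOn sgc kr cor cor_mul cor_cont cor_loc mem_kr vl_mul vl_inv
  conj_kr vl_sgc_neg vl_sgc_pos)

namespace IND

open scoped Classical in
/-- the character with values `± 1` in `ℤ` -/
noncomputable def sg (ε : GQ →* ℤ_[2]ˣ) (h : ∀ σ, ε σ = 1 ∨ ε σ = -1) : GQ →* ℤˣ where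
  toFun σ := if ε σ = 1 then 1 else -1
  map_one' := if_pos (map_one ε)
  map_mul' σ τ := by
    have hne : (-1 : ℤ_[2]ˣ) ≠ 1 := by
      intro h1
      have h2 : ((-1 : ℤ_[2]ˣ) : ℤ_[2]) = ((1 : ℤ_[2]ˣ) : ℤ_[2]) := by rw [h1]
      push_cast at h2
      have h3 : (2 : ℤ_[2]) = 0 := by linear_combination -h2
      exact two_ne_zero h3
    show (if ε (σ * τ) = 1 then (1 : ℤˣ) else -1) =
      (if ε σ = 1 then 1 else -1) * (if ε τ = 1 then 1 else -1)
    rw [map_mul]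
    rcases h σ with h1 | h1 <;> rcases h τ with h2 | h2
    · simp [h1, h2]
    · rw [h1, h2, one_mul, if_neg hne, if_pos rfl, one_mul]
    · rw [h1, h2, mul_one, if_neg hne, if_pos rfl, mul_one]
    · rw [h1, h2, neg_mul_neg, one_mul, if_pos rfl, if_neg hne]
      rfl

variable {ε : GQ →* ℤ_[2]ˣ} {h : ∀ σ, ε σ = 1 ∨ ε σ = -1}

theorem sg_one {σ : GQ} : sg ε h σ = 1 ↔ ε σ = 1 := by
  classical
  show (if ε σ = 1 then (1 : ℤˣ) else -1) = 1 ↔ _
  split_ifs with h1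
  · simp [h1]
  · simp [h1]

theorem sgc_sg : sgc (sg ε h) = ε := by
  refine MonoidHom.ext fun σ => ?_
  unfold sgc
  rw [MonoidHom.comp_apply]
  rcases h σ with h1 | h1
  · rw [sg_one.2 h1, map_one, h1]
  · have h2 : sg ε h σ = -1 := by
      rcases Int.units_eq_one_or (sg ε h σ) with h3 | h3
      · exfalso
        have h4 := sg_one.1 h3
        rw [h1] at h4
        have h5 : ((-1 : ℤ_[2]ˣ) : ℤ_[2]) = ((1 : ℤ_[2]ˣ) : ℤ_[2]) := by rw [h4]
        push_cast at h5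
        have h6 : (2 : ℤ_[2]) = 0 := by linear_combination -h5
        exact two_ne_zero h6
      · exact h3
    rw [h2, h1]
    ext
    simp

theorem kr_eq (H : Subgroup GQ) : kr (sg ε h) H = H ⊓ ε.ker := by
  ext σ
  rw [mem_kr, sg_one]
  rfl

theorem hop (hε : Continuous ε) (u : ℤˣ) : IsOpen {g : GQ | sg ε h g = u} := by
  have c1 : IsClosed {g : GQ | ε g = 1} := isClosed_singleton.preimage hε
  have c2 : IsClosed {g : GQ | ε g = -1} := isClosed_singleton.preimage hε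
  have hne : (-1 : ℤ_[2]ˣ) ≠ 1 := by
    intro h1
    have h2 : ((-1 : ℤ_[2]ˣ) : ℤ_[2]) = ((1 : ℤ_[2]ˣ) : ℤ_[2]) := by rw [h1]
    push_cast at h2
    have h3 : (2 : ℤ_[2]) = 0 := by linear_combination -h2
    exact two_ne_zero h3
  rcases Int.units_eq_one_or u with rfl | rfl
  · have e : {g : GQ | sg ε h g = 1} = {g : GQ | ε g = -1}ᶜ := by
      ext g
      show sg ε h g = 1 ↔ ¬ ε g = -1
      rw [sg_one]
      rcases h g with h1 | h1
      · simp [h1, hne.symm]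
      · simp [h1, hne]
    rw [e]
    exact c2.isOpen_compl
  · have e : {g : GQ | sg ε h g = -1} = {g : GQ | ε g = 1}ᶜ := by
      ext g
      show sg ε h g = -1 ↔ ¬ ε g = 1
      rw [← sg_one (h := h)]
      rcases Int.units_eq_one_or (sg ε h g) with h1 | h1
      · rw [h1]; decide
      · rw [h1]; decide
    rw [e]
    exact c1.isOpen_compl

theorem vl_conj {χ : GQ →* ℤ_[2]ˣ} (t g : GQ) : vl χ (t⁻¹ * g * t) = vl χ g := by
  rw [vl_mul, vl_mul]
  linear_combination vl χ g * vl_inv (χ := χ) t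

end IND

open IND in
theorem t_IND : S_IND := by
  intro hG _ H χ ε hv hχ hε h1 h2
  set ε' : GQ →* ℤˣ := sg ε hv with hε'
  have hs : sgc ε' = ε := sgc_sg
  have hk : kr ε' H = H ⊓ ε.ker := kr_eq H
  rw [← hk]
  have hop' : ∀ u : ℤˣ, IsOpen {g : GQ | ε' g = u} := fun u => hop hε u
  by_cases hGt : ∃ t ∈ H, ε' t = -1
  · obtain ⟨t, ht, hεt⟩ := hGt
    intro c hc hodd hstr
    have hcm : ∀ σ ∈ kr ε' H, ∀ τ ∈ kr ε' H, c (σ * τ) = c σ + vl χ σ * c τ := hc.mul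
    have hc' : ∀ σ ∈ kr ε' H, ∀ τ ∈ kr ε' H, c (σ * τ) = c σ + vl (χ * ε) σ * c τ := by
      intro σ hσ τ hτ
      rw [← hs, vl_sgc_pos (mem_kr.1 hσ).2]
      exact hc.mul σ hσ τ hτ
    -- the local groups
    have locI : ∀ (p : ℕ) [Fact p.Prime] (ι : QB →ₐ[ℚ] PadicAlgCl p), p ≠ 2 →
        ∀ ψ : GQ →* ℤ_[2]ˣ, (∀ σ ∈ kr ε' H, vl ψ σ = vl χ σ) →
        (∀ σ ∈ kr ε' H, ∀ τ ∈ kr ε' H, c (σ * τ) = c σ + vl ψ σ * c τ) →
        CobOn ψ (II ι ∩ (H : Set GQ)) (cor ψ ε' t c) := by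
      intro p _ ι hp ψ hψ hcψ
      obtain ⟨g1, -, g3, g4, -, -, g7⟩ := hG p ι
      let I : Subgroup GQ :=
        { carrier := II ι
          mul_mem' := fun {a b} ha hb => g3 a ha b hb
          one_mem' := g1
          inv_mem' := fun {a} ha => g4 a ha }
      obtain ⟨ι', h7, -⟩ := g7 t⁻¹
      obtain ⟨y, hy⟩ := hodd p ι hp
      obtain ⟨y', hy'⟩ := hodd p ι' hp
      obtain ⟨z, hz⟩ := cor_loc (I := I) (y := y) (y' := y') ht hεt hcψ
        (fun σ h3 h4 => by rw [hψ σ h4]; exact hy σ ⟨h3, h4⟩)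
        (fun σ h3 h4 => by
          have h5 := h7 σ h3
          rw [inv_inv] at h5
          rw [hψ σ h4, hy' _ ⟨h5, conj_kr ht hεt h4⟩, vl_conj])
      exact ⟨z, fun σ hσ => hz σ hσ.1 hσ.2⟩
    have locD : ∀ (ι : QB →ₐ[ℚ] PadicAlgCl 2),
        ∀ ψ : GQ →* ℤ_[2]ˣ, (∀ σ ∈ kr ε' H, vl ψ σ = vl χ σ) →
        (∀ σ ∈ kr ε' H, ∀ τ ∈ kr ε' H, c (σ * τ) = c σ + vl ψ σ * c τ) →
        CobOn ψ (DD ι ∩ (H : Set GQ)) (cor ψ ε' t c) := by
      intro ι ψ hψ hcψ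
      obtain ⟨-, g2, -, -, g5, g6, g7⟩ := hG 2 ι
      let I : Subgroup GQ :=
        { carrier := DD ι
          mul_mem' := fun {a b} ha hb => g5 a ha b hb
          one_mem' := g2
          inv_mem' := fun {a} ha => g6 a ha }
      obtain ⟨ι', -, h7⟩ := g7 t⁻¹
      obtain ⟨y, hy⟩ := hstr ι
      obtain ⟨y', hy'⟩ := hstr ι'
      obtain ⟨z, hz⟩ := cor_loc (I := I) (y := y) (y' := y') ht hεt hcψ
        (fun σ h3 h4 => by rw [hψ σ h4]; exact hy σ ⟨h3, h4⟩)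
        (fun σ h3 h4 => by
          have h5 := h7 σ h3
          rw [inv_inv] at h5
          rw [hψ σ h4, hy' _ ⟨h5, conj_kr ht hεt h4⟩, vl_conj])
      exact ⟨z, fun σ hσ => hz σ hσ.1 hσ.2⟩
    have hψ2 : ∀ σ ∈ kr ε' H, vl (χ * ε) σ = vl χ σ := fun σ hσ => by
      rw [← hs, vl_sgc_pos (mem_kr.1 hσ).2]
    obtain ⟨y₁, hy₁⟩ := h1 (cor χ ε' t c) ⟨cor_cont ht hεt hop' hc.cont,
      fun σ hσ τ hτ => cor_mul ht hεt hcm hσ hτ⟩
      (fun p _ ι hp => locI p ι hp χ (fun _ _ => rfl) hcm)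
      (fun ι => locD ι χ (fun _ _ => rfl) hcm)
    obtain ⟨y₂, hy₂⟩ := h2 (cor (χ * ε) ε' t c) ⟨cor_cont ht hεt hop' hc.cont,
      fun σ hσ τ hτ => cor_mul ht hεt hc' hσ hτ⟩
      (fun p _ ι hp => locI p ι hp (χ * ε) hψ2 hc')
      (fun ι => locD ι (χ * ε) hψ2 hc')
    refine ⟨(y₁ + y₂) / 2, fun σ hσ => ?_⟩
    obtain ⟨g1, g2⟩ := mem_kr.1 hσ
    have e1 := hy₁ σ g1
    have e2 := hy₂ σ g1
    unfold cor at e1 e2
    rw [if_pos g2] at e1 e2
    rw [← hs, vl_sgc_neg hεt, vl_sgc_pos g2] at e2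
    have h2 : (2 : ℚ_[2]) ≠ 0 := two_ne_zero
    field_simp
    linear_combination e1 + e2
  · push Not at hGt
    have e : kr ε' H = H := by
      ext σ
      constructor
      · exact fun h => (mem_kr.1 h).1
      · intro h
        refine mem_kr.2 ⟨h, ?_⟩
        rcases Int.units_eq_one_or (ε' σ) with h3 | h3
        · exact h3
        · exact absurd h3 (hGt σ h)
    rwa [e]

end Pool.Agent.NH57.SQ
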