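import Pool.Agent.NH57.SQ.Stm

/-!
# Project SQ: a class that is locally trivial, modulo two
-/

set_option autoImplicit false

namespace Pool.Agent.NH57.SQ

open Pool.Agent.R384 (Coc CobOn vl md md_zero)

theorem t_LOCK : S_LOCK := by
  intro G _ _ χ c D ρ h h1 h2 σ₀ h0 h3 hρ
  obtain ⟨y, hy⟩ := h
  have h4 : ρ * ‖y‖ ≤ 1 := by
    have h5 := h1 σ₀
    rw [hy σ₀ h0, norm_mul, h3] at h5
    exact h5
  rcases lt_or_eq_of_le h4 with h5 | h5
  · left
    intro σ hσ
    rw [md_zero, hy σ hσ, norm_mul]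
    exact lt_of_le_of_lt (mul_le_mul_of_nonneg_right (h2 σ) (norm_nonneg y)) h5
  · right
    have hy0 : 0 < ‖y‖ := by
      by_contra hn
      have : ‖y‖ = 0 := le_antisymm (not_lt.mp hn) (norm_nonneg y)
      rw [this, mul_zero] at h5
      exact zero_ne_one h5
    intro σ hσ
    rw [md_zero, hy σ hσ, norm_mul]
    constructor
    · intro h
      rw [← h5] at h
      exact lt_of_mul_lt_mul_right h hy0.le
    · intro h
      rw [← h5]
      exact mul_lt_mul_of_pos_right h hy0

end Pool.Agent.NH57.SQ
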