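import Pool.Agent.NH57.SQ.Stm

/-!
# SQ-NRM (helper79): normalisation of a cocycle that is not a coboundary
-/

set_option autoImplicit false
set_option linter.unusedVariables false

namespace Pool.Agent.NH57.SQ

open Pool.Agent.R384 (Coc CobOn vl md)

theorem t_NRM : S_NRM := by
  intro G _ _ _ χ c hχ hc τ₀ hτ hn
  have hne : vl χ τ₀ - 1 ≠ 0 := sub_ne_zero.2 hτ
  obtain ⟨y0, hy0⟩ : ∃ y0 : ℚ_[2], c τ₀ - (vl χ τ₀ - 1) * y0 = 0 := by
    refine ⟨c τ₀ / (vl χ τ₀ - 1), ?_⟩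
    field_simp
    ring
  have hcont : Continuous fun σ => ‖c σ - (vl χ σ - 1) * y0‖ := by
    have h1 := Pool.Agent.R384.cont_vl hχ
    have h2 := hc.cont
    fun_prop
  obtain ⟨s, -, hs⟩ := isCompact_univ.exists_isMaxOn ⟨(1 : G), trivial⟩ hcont.continuousOn
  have hs' : ∀ σ, ‖c σ - (vl χ σ - 1) * y0‖ ≤ ‖c s - (vl χ s - 1) * y0‖ :=
    fun σ => hs (Set.mem_univ σ)
  have h1 : c s - (vl χ s - 1) * y0 ≠ 0 := by
    intro h0
    apply hn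
    refine ⟨y0, fun σ => ?_⟩
    have h2 := hs' σ
    rw [h0, norm_zero, norm_le_zero_iff] at h2
    exact sub_eq_zero.1 h2
  have hpos : 0 < ‖c s - (vl χ s - 1) * y0‖ := norm_pos_iff.2 h1
  have key : ∀ σ, (c s - (vl χ s - 1) * y0)⁻¹ * c σ +
      (vl χ σ - 1) * (-y0 * (c s - (vl χ s - 1) * y0)⁻¹) =
      (c s - (vl χ s - 1) * y0)⁻¹ * (c σ - (vl χ σ - 1) * y0) := by
    intro σ
    ring
  refine ⟨(c s - (vl χ s - 1) * y0)⁻¹, -y0 * (c s - (vl χ s - 1) * y0)⁻¹, fun σ => ?_,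
    ⟨s, ?_⟩, ?_⟩
  · rw [key, norm_mul, norm_inv, inv_mul_le_iff₀ hpos, mul_one]
    exact hs' σ
  · rw [key, norm_mul, norm_inv, inv_mul_cancel₀ hpos.ne']
  · rw [key, hy0, mul_zero]

end Pool.Agent.NH57.SQ
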