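import Pool.Agent.NH57.SQ.Stm

/-!
# SQ-ONE: no solutions without odd primes
-/

set_option autoImplicit false

namespace Pool.Agent.NH57.SQ

/-- squarefree integers without odd prime divisors -/
lemma one_small (x : ℤ) (hs : Squarefree x)
    (h : ∀ (p : ℕ) [Fact p.Prime], p ≠ 2 → ¬ (p : ℤ) ∣ x) :
    x = 1 ∨ x = -1 ∨ x = 2 ∨ x = -2 := by
  have hn : Squarefree x.natAbs := Int.squarefree_natAbs.2 hs
  have hsub : x.natAbs.primeFactors ⊆ {2} := by
    intro p hp
    rw [Finset.mem_singleton]
    by_contra hne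
    have : Fact p.Prime := ⟨Nat.prime_of_mem_primeFactors hp⟩
    exact h p hne (Int.natCast_dvd.2 (Nat.dvd_of_mem_primeFactors hp))
  have hprod := Nat.prod_primeFactors_of_squarefree hn
  have hx : x.natAbs = 1 ∨ x.natAbs = 2 := by
    rcases Finset.subset_singleton_iff.1 hsub with h1 | h1
    · left
      rw [h1, Finset.prod_empty] at hprod
      exact hprod.symm
    · right
      rw [h1, Finset.prod_singleton] at hprod
      exact hprod.symm
  omega

/-- a number of norm `1 / 2` is not a square -/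
lemma one_norm [Fact (Nat.Prime 2)] (y : ℚ_[2]) (hy : ‖y‖ = (2 : ℝ)⁻¹) : ¬ IsSquare y := by
  rintro ⟨z, rfl⟩
  have hz : z ≠ 0 := by
    rintro rfl
    rw [mul_zero, norm_zero] at hy
    norm_num at hy
  rw [norm_mul, Padic.norm_eq_zpow_neg_valuation hz, ← zpow_add₀ (by norm_num), Nat.cast_ofNat,
    ← zpow_neg_one] at hy
  have h1 := zpow_right_injective₀ (by norm_num : (0 : ℝ) < 2) (by norm_num) hy
  omega

lemma one_two [Fact (Nat.Prime 2)] : ‖(2 : ℚ_[2])‖ = (2 : ℝ)⁻¹ := by
  have := Padic.norm_p (p := 2)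
  exact_mod_cast this

/-- `-1` is not a square -/
lemma one_neg [Fact (Nat.Prime 2)] : ¬ IsSquare (-1 : ℚ_[2]) := by
  rintro ⟨z, hz⟩
  have h1 : ‖z‖ * ‖z‖ = 1 := by
    rw [← norm_mul, ← hz, norm_neg, norm_one]
  have h2 : ‖z‖ ≤ 1 := by
    nlinarith [norm_nonneg z]
  obtain ⟨w, hw⟩ : ∃ w : ℤ_[2], (w : ℚ_[2]) = z := ⟨⟨z, h2⟩, rfl⟩
  have h3 : w * w = -1 := by
    apply PadicInt.ext
    push_cast
    rw [hw, ← hz]
  have h4 : PadicInt.toZModPow 2 w * PadicInt.toZModPow 2 w = (-1 : ZMod (2 ^ 2)) := by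
    rw [← map_mul, h3, map_neg, map_one]
  generalize PadicInt.toZModPow 2 w = a at h4
  revert a
  decide

theorem t_ONE : S_ONE := by
  have : Fact (Nat.Prime 2) := Nat.fact_prime_two
  have hm2 : ¬ IsSquare (-2 : ℚ_[2]) := one_norm _ (by rw [norm_neg, one_two])
  have hp2 : ¬ IsSquare (2 : ℚ_[2]) := one_norm _ one_two
  have hm4 : ¬ IsSquare (-4 : ℚ_[2]) := by
    rintro ⟨z, hz⟩
    apply one_neg
    refine ⟨z / 2, ?_⟩
    have h2 : (2 : ℚ_[2]) ≠ 0 := two_ne_zero
    field_simp
    linear_combination hz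
  constructor
  · intro x hx
    have h1 := hx.sq 2 (Or.inl rfl)
    rcases one_small x hx.sqf (fun p _ hp => hx.odd p hp (by
        intro hd
        rw [dvd_neg] at hd
        have := Int.eq_one_of_dvd_one (by positivity) hd
        have h3 : p = 1 := by exact_mod_cast this
        exact (Fact.out : p.Prime).ne_one h3)) with rfl | rfl | rfl | rfl
    · left; rfl
    · right; rfl
    · exfalso
      push_cast at h1
      rcases h1 with h | h
      · exact hp2 h
      · exact hm2 h
    · exfalso
      push_cast at h1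
      rcases h1 with h | h
      · exact hm2 h
      · exact hp2 h
  · intro x hx
    have h1 := hx.sq 2 (Or.inl rfl)
    rcases one_small x hx.sqf (fun p _ hp => hx.odd p hp (by
        intro hd
        have h3 : p ∣ 2 := by exact_mod_cast hd
        exact hp ((Nat.prime_dvd_prime_iff_eq Fact.out Nat.prime_two).1 h3))) with
      rfl | rfl | rfl | rfl
    · left; rfl
    · exfalso
      push_cast at h1
      rcases h1 with h | h
      · exact one_neg h
      · exact hm2 h
    · right; rfl
    · exfalso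
      push_cast at h1
      rcases h1 with h | h
      · exact hm2 h
      · exact hm4 h

end Pool.Agent.NH57.SQ
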