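import Pool.Agent.NH57.SQ.Stm
import Pool.Agent.R384.Emb

/-!
# Job SQ-RAM: the inertia group moves the roots of the integers of odd valuation
-/

set_option autoImplicit false

namespace Pool.Agent.NH57.SQ

namespace RAM

open Pool.Agent.Y715.Nr (Au Inert inert_of_kur mem_kur norm_ne)

variable {p : ℕ} [Fact p.Prime]

lemma exists_gq (ι : QB →ₐ[ℚ] PadicAlgCl p) (τ : Au p) : ∃ σ : GQ, ∀ x, τ (ι x) = ι (σ x) := by
  let _ : Algebra QB (PadicAlgCl p) := ι.toRingHom.toAlgebra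
  have hst : IsScalarTower ℚ QB (PadicAlgCl p) :=
    IsScalarTower.of_algebraMap_eq (fun x => (ι.commutes x).symm)
  let τ' : PadicAlgCl p ≃ₐ[ℚ] PadicAlgCl p := τ.restrictScalars ℚ
  exact ⟨τ'.restrictNormal QB, fun x => (AlgEquiv.restrictNormal_commutes τ' QB x).symm⟩

lemma norm_int {n : ℤ} (hn : ¬ (p : ℤ) ∣ n) : ‖(n : PadicAlgCl p)‖ = 1 := by
  have h := PadicAlgCl.norm_extends p (n : ℚ_[p])
  have e : algebraMap ℚ_[p] (PadicAlgCl p) (n : ℚ_[p]) = (n : PadicAlgCl p) :=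
    map_intCast (algebraMap ℚ_[p] (PadicAlgCl p)) n
  have h1 : ‖(n : ℚ_[p])‖ = 1 := by
    refine le_antisymm (Padic.norm_int_le_one n) (not_lt.1 fun h2 => ?_)
    exact hn (Padic.norm_intCast_lt_one_iff.1 h2)
  rw [h1] at h
  rw [← e]
  exact h

end RAM

open Pool.Agent.Y715.Nr (Au Inert inert_of_kur mem_kur norm_ne) in
theorem t_RAM : S_RAM := by
  intro p _ ι t m hp hm hpm ht
  by_contra hcon
  push Not at hcon
  have hm0 : m ≠ 0 := hm.ne_zero
  have ht0 : t ≠ 0 := by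
    rintro rfl
    rw [zero_pow two_ne_zero] at ht
    exact hm0 (by exact_mod_cast ht.symm)
  have hfix : ∀ σ ∈ II ι, σ t = t := by
    intro σ hσ
    have h1 : (σ t - t) * (σ t + t) = 0 := by
      have h2 : (σ t) ^ 2 = (m : QB) := by rw [← map_pow, ht, map_intCast]
      linear_combination h2 - ht
    rcases mul_eq_zero.1 h1 with h | h
    · exact sub_eq_zero.1 h
    · exact absurd (eq_neg_of_add_eq_zero_left h) (hcon σ hσ)
  have hιt : ι t ≠ 0 := (map_ne_zero ι).2 ht0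
  obtain ⟨k, hk⟩ := norm_ne hιt (mem_kur fun τ hτ => by
    obtain ⟨σ, hσ⟩ := RAM.exists_gq ι τ
    have hII : σ ∈ II ι := ⟨τ, hσ, inert_of_kur hτ⟩
    rw [hσ, hfix σ hII])
  have h2 : ‖ι t‖ ^ 2 = (p : ℝ)⁻¹ := by
    rw [← norm_pow, ← map_pow, ht, map_intCast]
    obtain ⟨n, rfl⟩ := hpm
    have hn : ¬ (p : ℤ) ∣ n := by
      rintro ⟨v, rfl⟩
      have h3 := hm (p : ℤ) ⟨v, by ring⟩
      exact (Nat.prime_iff_prime_int.1 (Fact.out : p.Prime)).not_isUnit h3
    rw [Int.cast_mul, norm_mul, RAM.norm_int hn, mul_one, Int.cast_natCast]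
    exact Pool.Agent.W571.RK.norm_p_Om
  have p1 : (1 : ℝ) < p := by exact_mod_cast (Fact.out : p.Prime).one_lt
  rw [hk, ← zpow_neg_one, ← zpow_natCast, ← zpow_mul] at h2
  have h4 := zpow_right_injective₀ (a := (p : ℝ)) (by linarith) p1.ne' h2
  push_cast at h4
  omega

end Pool.Agent.NH57.SQ
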