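import Pool.Agent.NH57.SQ.Stm

/-!
# Project SQ: the integer of the reduction satisfies the local conditions
-/

set_option autoImplicit false

namespace Pool.Agent.NH57.SQ

open Pool.Agent.R384 (Coc CobOn vl md)

namespace SELP

theorem sgn {t : QB} {m : ℤ} (h : t ^ 2 = (m : QB)) (σ : GQ) : σ t = t ∨ σ t = -t := by
  have h1 : (σ t) ^ 2 = t ^ 2 := by
    rw [← map_pow, h, map_intCast]
  exact sq_eq_sq_iff_eq_or_eq_neg.1 h1

theorem ne_zero {t : QB} {m : ℤ} (hm : Squarefree m) (h : t ^ 2 = (m : QB)) : t ≠ 0 := by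
  rintro rfl
  have h1 : ((m : ℤ) : QB) = 0 := by
    rw [← h]
    ring
  exact hm.ne_zero (by exact_mod_cast h1)

theorem neg_ne {t : QB} (h : t ≠ 0) : -t ≠ t := fun h1 => h (CharZero.neg_eq_self_iff.1 h1)

theorem exists_emb (p : ℕ) [Fact p.Prime] : Nonempty (QB →ₐ[ℚ] PadicAlgCl p) := by
  have : Algebra.IsAlgebraic ℚ (AlgebraicClosure ℚ) := AlgebraicClosure.isAlgebraic ℚ
  exact ⟨IsAlgClosed.lift (R := ℚ) (S := AlgebraicClosure ℚ) (M := PadicAlgCl p)⟩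

theorem II_sub {p : ℕ} [Fact p.Prime] {ι : QB →ₐ[ℚ] PadicAlgCl p} {σ : GQ} (h : σ ∈ II ι) :
    σ ∈ DD ι := by
  obtain ⟨τ, h1, -⟩ := h
  exact ⟨τ, h1⟩

variable {χ : GQ →* ℤ_[2]ˣ} {e : ℤ} {u : QB} {ρ : ℝ} {c : GQ → ℚ_[2]} {x : ℤ} {s : QB}

/-- the case of a decomposition group which moves `u` -/
theorem loc (hL : S_LOCK) (hS : S_SQR) (d : Dt χ e u ρ) (h1 : ∀ σ, ‖c σ‖ ≤ 1)
    (hsx : s ^ 2 = (x : QB)) (hs : ∀ σ : GQ, σ s = s ↔ md c σ = 0)
    (p : ℕ) [Fact p.Prime] (ι : QB →ₐ[ℚ] PadicAlgCl p) (hD : CobOn χ (DD ι) c) {σ₀ : GQ}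
    (h0 : σ₀ ∈ DD ι) (hu : σ₀ u ≠ u) :
    IsSquare ((x : ℤ) : ℚ_[p]) ∨ IsSquare ((x * e : ℤ) : ℚ_[p]) := by
  have h2 : ‖vl χ σ₀ - 1‖ = ρ := by
    refine le_antisymm (d.le σ₀) (not_lt.1 fun h => hu ((d.lt σ₀).1 h))
  rcases hL ρ hD h1 d.le σ₀ h0 h2 d.pos with h3 | h3
  · left
    exact hS p ι s x hsx fun σ hσ => (hs σ).2 (h3 σ hσ)
  · right
    refine hS p ι (s * u) (x * e) ?_ fun σ hσ => ?_
    · rw [mul_pow, hsx, d.hu]
      push_cast
      ring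
    · have h4 : σ s = s ↔ σ u = u := (hs σ).trans ((h3 σ hσ).trans (d.lt σ))
      rw [map_mul]
      by_cases h5 : σ s = s
      · rw [h5, h4.1 h5]
      · have h6 : σ u ≠ u := fun h => h5 (h4.2 h)
        rw [(sgn hsx σ).resolve_left h5, (sgn d.hu σ).resolve_left h6]
        ring

end SELP

open SELP

theorem t_SEL : S_SEL := by
  intro hL hS hR hU hC hCC χ e u ρ d c hc h1 hI hD2 x s hx hsx hs
  have hs0 : s ≠ 0 := ne_zero hx hsx
  have hu0 : u ≠ 0 := ne_zero d.sqf d.hu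
  refine ⟨hx, ?_, ?_, ?_⟩
  · intro p hp hp2 hpe hpx
    obtain ⟨ι⟩ := exists_emb p
    obtain ⟨σ, hσ, h2⟩ := hR p ι s x hp2 hx hpx hsx
    have h3 : σ u = u := hU p ι u e hp2 hpe d.hu σ hσ
    have h4 : ‖vl χ σ - 1‖ < 1 / 2 := ((d.lt σ).2 h3).trans_le d.half
    have h5 : vl χ σ = 1 := by
      refine (d.inr p ι hp2 σ hσ).resolve_right fun h => ?_
      rw [h] at h4
      have h6 : (-1 - 1 : ℚ_[2]) = -2 := by norm_num
      rw [h6, norm_neg, Pool.Agent.R384.norm_two'] at h4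
      exact lt_irrefl _ h4
    obtain ⟨y, hy⟩ := hI p ι hp2
    have h6 : md c σ = 0 := by
      rw [Pool.Agent.R384.md_zero, hy σ hσ, h5, sub_self, zero_mul, norm_zero]
      norm_num
    have h7 := (hs σ).2 h6
    rw [h2] at h7
    exact neg_ne hs0 h7
  · intro p hp hpe
    obtain ⟨ι⟩ := exists_emb p
    by_cases hp2 : p = 2
    · subst hp2
      have h2 : ∃ σ ∈ DD ι, σ u ≠ u := by
        by_contra hcon
        push Not at hcon
        exact d.sq2 (hS 2 ι u e d.hu hcon)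
      obtain ⟨σ₀, h0, h3⟩ := h2
      exact loc hL hS d h1 hsx hs 2 ι (hD2 ι) h0 h3
    · have hpe' : (p : ℤ) ∣ e := hpe.resolve_left hp2
      obtain ⟨σ₀, h0, h2⟩ := hR p ι u e hp2 d.sqf hpe' d.hu
      have h3 : σ₀ u ≠ u := by
        rw [h2]
        exact neg_ne hu0
      have h4 : vl χ σ₀ = -1 := by
        refine (d.inr p ι hp2 σ₀ h0).resolve_left fun h => h3 ((d.lt σ₀).1 ?_)
        rw [h, sub_self, norm_zero]
        exact d.pos
      exact loc hL hS d h1 hsx hs p ι (Pool.Agent.R384.dec_of_inert hc (hI p ι hp2) h0 h4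
        fun τ hτ => hC.2.2 p ι σ₀ h0 τ hτ) (II_sub h0) h3
  · intro he2 he0
    obtain ⟨κ, hκ⟩ := hCC
    have h2 : vl χ κ = 1 := d.cc he2 he0 κ hκ
    have h3 := hc.mul κ κ
    rw [hκ.1, hc.one, h2, one_mul, ← two_mul] at h3
    have h4 : c κ = 0 := (mul_eq_zero.1 h3.symm).resolve_left two_ne_zero
    have h5 : md c κ = 0 := by
      rw [Pool.Agent.R384.md_zero, h4, norm_zero]
      norm_num
    exact (hκ.2.2 s x hx.ne_zero hsx).1 ((hs κ).2 h5)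

end Pool.Agent.NH57.SQ
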