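import Pool.Agent.NH57.SQ.Stm

/-!
Project SQ, part SQR: an integer whose root is fixed by the decomposition group (helper54).
-/

set_option autoImplicit false

namespace Pool.Agent.NH57.SQ

namespace SQRP

variable {p : ℕ} [Fact p.Prime]

/-- `QB` is normal over `ℚ` -/
theorem normalQB : Normal ℚ QB := by
  have h := @IsAlgClosure.normal ℚ (AlgebraicClosure ℚ) _ _ (AlgebraicClosure.instAlgebra ℚ) _
  convert h
  exact Subsingleton.elim _ _

/-- every automorphism of the algebraic closure of `ℚ_p` restricts to an element of `DD ι` -/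
theorem exists_restrict (ι : QB →ₐ[ℚ] PadicAlgCl p)
    (τ : PadicAlgCl p ≃ₐ[ℚ_[p]] PadicAlgCl p) : ∃ σ : GQ, ∀ x, τ (ι x) = ι (σ x) := by
  let _ : Algebra QB (PadicAlgCl p) := ι.toRingHom.toAlgebra
  have hst : IsScalarTower ℚ QB (PadicAlgCl p) :=
    IsScalarTower.of_algebraMap_eq (fun x => (ι.commutes x).symm)
  have hN : Normal ℚ QB := normalQB
  let τ' : PadicAlgCl p ≃ₐ[ℚ] PadicAlgCl p := τ.restrictScalars ℚ
  exact ⟨τ'.restrictNormal QB, fun x => (AlgEquiv.restrictNormal_commutes τ' QB x).symm⟩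

/-- an element fixed by all automorphisms is in `ℚ_p` -/
theorem mem_base (z : PadicAlgCl p) (h : ∀ τ : PadicAlgCl p ≃ₐ[ℚ_[p]] PadicAlgCl p, τ z = z) :
    ∃ y : ℚ_[p], algebraMap ℚ_[p] (PadicAlgCl p) y = z := by
  have h1 : z ∈ (⊥ : IntermediateField ℚ_[p] (PadicAlgCl p)) :=
    (InfiniteGalois.mem_bot_iff_fixed z).2 h
  exact IntermediateField.mem_bot.1 h1

end SQRP

open SQRP in
theorem t_SQR : S_SQR := by
  intro p _ ι t m ht hfix
  obtain ⟨y, hy⟩ := mem_base (ι t) (fun τ => by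
    obtain ⟨σ, hσ⟩ := exists_restrict ι τ
    rw [hσ t, hfix σ ⟨τ, hσ⟩])
  refine ⟨y, ?_⟩
  apply (algebraMap ℚ_[p] (PadicAlgCl p)).injective
  rw [map_mul, hy, ← map_mul, ← pow_two, ht, map_intCast, map_intCast]

end Pool.Agent.NH57.SQ
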