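import Pool.Agent.NH57.SQ.Stm

/-!
# SQ-UNR: the inertia group fixes the roots of the units
-/

set_option autoImplicit false

namespace Pool.Agent.NH57.SQ

namespace UNRP

theorem norm_int {p : ℕ} [Fact p.Prime] {m : ℤ} (h : ¬ (p : ℤ) ∣ m) :
    ‖(m : PadicAlgCl p)‖ = 1 := by
  have h1 : ((((m : ℚ_[p])) : ℚ_[p]) : PadicAlgCl p) = (m : PadicAlgCl p) :=
    map_intCast (algebraMap ℚ_[p] (PadicAlgCl p)) m
  rw [← h1, PadicAlgCl.norm_extends]
  refine le_antisymm (Padic.norm_int_le_one m) ?_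
  by_contra h2
  rw [not_le] at h2
  exact h (Padic.norm_intCast_lt_one_iff.1 h2)

end UNRP

open UNRP in
theorem t_UNR : S_UNR := by
  intro p _ ι t m hp hm ht σ hσ
  obtain ⟨τ, h1, h2⟩ := hσ
  have h3 : (σ t) ^ 2 = t ^ 2 := by
    rw [← map_pow, ht, map_intCast]
  rcases sq_eq_sq_iff_eq_or_eq_neg.1 h3 with h4 | h4
  · exact h4
  · exfalso
    have h5 : ‖ι t‖ = 1 := by
      have h6 : (ι t) ^ 2 = (m : PadicAlgCl p) := by
        rw [← map_pow, ht, map_intCast]
      have h7 : ‖ι t‖ ^ 2 = 1 := by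
        rw [← norm_pow, h6]
        exact norm_int hm
      exact (pow_eq_one_iff_of_nonneg (norm_nonneg _) two_ne_zero).1 h7
    have h8 := h2 (ι t) h5.le
    have h9 : τ (ι t) - ι t = -((2 : ℤ) : PadicAlgCl p) * ι t := by
      rw [h1, h4, map_neg]
      push_cast
      ring
    have h10 : ¬ (p : ℤ) ∣ 2 := by
      intro h
      have h11 : p ∣ 2 := by exact_mod_cast h
      exact hp ((Nat.prime_dvd_prime_iff_eq (Fact.out : p.Prime) Nat.prime_two).1 h11)
    rw [h9, norm_mul, norm_neg, norm_int h10, h5] at h8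
    norm_num at h8

end Pool.Agent.NH57.SQ
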