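import Pool.Agent.NH57.SQ.Stm

/-!
# From a normal subgroup to a larger subgroup; twists are not trivial at two
-/

set_option autoImplicit false

namespace Pool.Agent.NH57.SQ

open Pool.Agent.R384 (Coc CobOn vl md)

theorem t_UP : S_UP := by
  intro H N χ hN hNH hne hvan c hc h1 h2
  obtain ⟨y, hy⟩ := hvan c ⟨hc.cont.mono hNH, fun σ hσ τ hτ => hc.mul σ (hNH hσ) τ (hNH hτ)⟩
    (fun p _ ι hp => by
      obtain ⟨y, hy⟩ := h1 p ι hp
      exact ⟨y, fun σ hσ => hy σ ⟨hσ.1, hNH hσ.2⟩⟩)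
    (fun ι => by
      obtain ⟨y, hy⟩ := h2 ι
      exact ⟨y, fun σ hσ => hy σ ⟨hσ.1, hNH hσ.2⟩⟩)
  obtain ⟨τ, hτ, hτ1⟩ := hne
  refine ⟨y, fun σ hσ => ?_⟩
  have hσ' : σ ∈ H := hσ
  have hcj : σ⁻¹ * τ * σ ∈ N := by
    have := hN.conj_mem τ hτ σ⁻¹
    rwa [inv_inv] at this
  have e1 : c (τ * σ) = c τ + vl χ τ * c σ := hc.mul τ (hNH hτ) σ hσ'
  have e2 : c (σ * (σ⁻¹ * τ * σ)) = c σ + vl χ σ * c (σ⁻¹ * τ * σ) := hc.mul σ hσ' _ (hNH hcj)
  have e3 : σ * (σ⁻¹ * τ * σ) = τ * σ := by group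
  have e4 : vl χ (σ⁻¹ * τ * σ) = vl χ τ := by
    unfold vl
    rw [map_mul, map_mul, map_inv, mul_comm, ← mul_assoc, mul_inv_cancel, one_mul]
  rw [e3, e1, hy τ hτ, hy _ hcj, e4] at e2
  have e5 : (vl χ τ - 1) * (c σ - (vl χ σ - 1) * y) = 0 := by linear_combination e2
  rcases mul_eq_zero.1 e5 with h | h
  · exact absurd (sub_eq_zero.1 h) hτ1
  · exact sub_eq_zero.1 h

namespace NT

lemma not_two_dvd_one : ¬ (2 : ℤ_[2]) ∣ 1 := by
  intro h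
  have h1 : IsUnit (2 : ℤ_[2]) := isUnit_of_dvd_one h
  have h2 := (PadicInt.prime_p (p := 2)).not_isUnit
  exact h2 (by exact_mod_cast h1)

lemma pow_ne {a : ℤ_[2]} (h4 : (4 : ℤ_[2]) ∣ a - 1) (ha : a ≠ 1) : ∀ n : ℕ, 0 < n → a ^ n ≠ 1 := by
  intro n
  induction n using Nat.strong_induction_on with
  | _ n ih =>
    intro hn h
    have h4' : ∀ m : ℕ, (4 : ℤ_[2]) ∣ a ^ m - 1 := fun m => by
      have := sub_dvd_pow_sub_pow a 1 m
      rw [one_pow] at this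
      exact h4.trans this
    rcases Nat.even_or_odd n with he | ho
    · obtain ⟨m, hm⟩ := he
      have e1 : (a ^ m - 1) * (a ^ m + 1) = 0 := by
        have : a ^ n = a ^ m * a ^ m := by rw [hm, pow_add]
        linear_combination h - this
      rcases mul_eq_zero.1 e1 with h0 | h0
      · exact ih m (by omega) (by omega) (sub_eq_zero.1 h0)
      · obtain ⟨t, ht⟩ := h4' m
        apply not_two_dvd_one
        refine ⟨-t, ?_⟩
        have h2 : (2 : ℤ_[2]) ≠ 0 := two_ne_zero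
        apply mul_left_cancel₀ h2
        linear_combination h0 - ht
    · have e1 := geom_sum_mul a n
      rw [h, sub_self] at e1
      rcases mul_eq_zero.1 e1 with h0 | h0
      · have e2 : (2 : ℤ_[2]) ∣ ∑ i ∈ Finset.range n, (a ^ i - 1) := by
          apply Finset.dvd_sum
          intro i _
          exact (Dvd.intro 2 (by norm_num : (2 : ℤ_[2]) * 2 = 4)).trans (h4' i)
        rw [Finset.sum_sub_distrib, h0, Finset.sum_const, Finset.card_range, nsmul_one, zero_sub,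
          dvd_neg] at e2
        obtain ⟨k, hk⟩ := ho
        rw [hk] at e2
        push_cast at e2
        apply not_two_dvd_one
        have e3 := dvd_sub e2 (Dvd.intro (k : ℤ_[2]) rfl : (2 : ℤ_[2]) ∣ 2 * k)
        rwa [add_sub_cancel_left] at e3
      · exact ha (sub_eq_zero.1 h0)

lemma not_sq_two : ¬ IsSquare (((2 : ℤ)) : ℚ_[2]) := by
  rintro ⟨x, hx⟩
  have h1 : ‖(2 : ℚ_[2])‖ = 1 / 2 := Pool.Agent.R384.norm_two'
  have hx' : (2 : ℚ_[2]) = x * x := by exact_mod_cast hx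
  have hx0 : x ≠ 0 := by
    rintro rfl
    rw [mul_zero] at hx'
    exact two_ne_zero hx'
  obtain ⟨n, hn⟩ := Padic.padicNormE.image hx0
  rw [hx', norm_mul, hn] at h1
  have h2 : ((2 : ℝ) ^ (-n)) * (2 : ℝ) ^ (-n) = (2 : ℝ) ^ (-1 : ℤ) := by
    rw [zpow_neg_one, ← one_div, ← h1]
    norm_num
  rw [← zpow_add₀ (by norm_num)] at h2
  have h3 := zpow_right_injective₀ (by norm_num : (0 : ℝ) < 2) (by norm_num) h2
  omega

end NT

open NT in
theorem t_NT : S_NT := by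
  intro hsqr hcys hgrp ε ε' hε hε' ι r hr
  obtain ⟨u, hu⟩ := IsAlgClosed.exists_pow_nat_eq (2 : QB) (by norm_num : 0 < 2)
  have hex : ∃ σ₀ ∈ DD ι, σ₀ u ≠ u := by
    by_contra hcon
    push Not at hcon
    exact not_sq_two (hsqr 2 ι u 2 (by rw [hu]; norm_num) hcon)
  obtain ⟨σ₀, hσ₀, hne⟩ := hex
  have h8 : ∃ s t : ℤ_[2], (cyc σ₀ : ℤ_[2]) = s * 3 + 8 * t ∧ s * s = 1 := by
    rcases hcys.2 u hu σ₀ with ⟨h, _⟩ | ⟨_, h | h⟩
    · exact absurd h hne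
    · obtain ⟨t, ht⟩ := h
      exact ⟨1, t, by linear_combination ht, by ring⟩
    · obtain ⟨t, ht⟩ := h
      exact ⟨-1, t, by linear_combination ht, by ring⟩
  obtain ⟨s, t, hc, hs⟩ := h8
  have hsq : ∀ e : GQ →* ℤ_[2]ˣ, (∀ σ, e σ = 1 ∨ e σ = -1) → e (σ₀ * σ₀) = 1 := by
    intro e he
    rw [map_mul]
    rcases he σ₀ with h | h <;> rw [h] <;> simp
  refine ⟨σ₀ * σ₀, (hgrp 2 ι).2.2.2.2.1 σ₀ hσ₀ σ₀ hσ₀, hsq ε hε, hsq ε' hε', ?_⟩
  set a : ℤ_[2] := ((cyc (σ₀ * σ₀) : ℤ_[2]ˣ) : ℤ_[2]) with ha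
  have ha' : a - 1 = 8 * (1 + 2 * (3 * s * t + 4 * t ^ 2)) := by
    rw [ha, map_mul, Units.val_mul, hc]
    linear_combination 9 * hs
  have h4 : (4 : ℤ_[2]) ∣ a - 1 := ⟨2 * (1 + 2 * (3 * s * t + 4 * t ^ 2)), by rw [ha']; ring⟩
  have ha1 : a ≠ 1 := by
    intro h
    rw [h, sub_self] at ha'
    have h8 : (8 : ℤ_[2]) ≠ 0 := by norm_num
    rcases mul_eq_zero.1 ha'.symm with h0 | h0
    · exact h8 h0
    · apply not_two_dvd_one
      exact ⟨-(3 * s * t + 4 * t ^ 2), by linear_combination h0⟩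
  intro hv
  unfold vl at hv
  have h5 : ((cyc ^ r) (σ₀ * σ₀) : ℤ_[2]ˣ) = 1 := by
    have hv' : (((cyc ^ r) (σ₀ * σ₀) : ℤ_[2]ˣ) : ℤ_[2]) = 1 :=
      PadicInt.ext (by rw [hv, PadicInt.coe_one])
    exact Units.val_eq_one.1 hv'
  have h6 : (cyc (σ₀ * σ₀)) ^ r = 1 := h5
  have h7 : (cyc (σ₀ * σ₀)) ^ r.natAbs = 1 := pow_natAbs_eq_one.2 h6
  have h9 : a ^ r.natAbs = 1 := by
    rw [ha, ← Units.val_pow_eq_pow_val, h7, Units.val_one]
  exact pow_ne h4 ha1 r.natAbs (Int.natAbs_pos.2 hr) h9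

end Pool.Agent.NH57.SQ
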