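import Pool.Agent.NH57.SQ.Stm

/-!
# Project SQ, SQ-VAN: the vanishing theorem for one character
-/

set_option autoImplicit false

namespace Pool.Agent.NH57.SQ

open Pool.Agent.R384 (Coc CobOn vl md)

namespace VAN

theorem alg : Algebra.IsAlgebraic ℚ QB := AlgebraicClosure.isAlgebraic ℚ

theorem clos : IsAlgClosure ℚ QB := ⟨inferInstance, alg⟩

theorem gal : IsGalois ℚ QB :=
  have := clos
  IsAlgClosure.isGalois ℚ QB

theorem comp : CompactSpace GQ :=
  have := gal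
  inferInstance

/-- a root of a squarefree integer `≠ 1` is moved by the Galois group -/
lemma exists_moved {e : ℤ} {u : QB} (hsq : Squarefree e) (hne : e ≠ 1) (hu : u ^ 2 = (e : QB)) :
    ∃ τ : GQ, τ u ≠ u := by
  have := gal
  by_contra hcon
  push Not at hcon
  have h1 : u ∈ (⊥ : IntermediateField ℚ QB) := (InfiniteGalois.mem_bot_iff_fixed u).2 hcon
  obtain ⟨a, rfl⟩ := IntermediateField.mem_bot.1 h1
  have h2 : a ^ 2 = (e : ℚ) := by
    apply (algebraMap ℚ QB).injective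
    rw [map_pow, hu, map_intCast]
  have h3 : IsSquare e := by
    rw [← Rat.isSquare_intCast_iff]
    exact ⟨a, by rw [← h2, sq]⟩
  obtain ⟨k, hk⟩ := h3
  have h4 : IsUnit k := hsq k ⟨1, by rw [hk, mul_one]⟩
  rcases Int.isUnit_iff.1 h4 with h5 | h5
  · exact hne (by rw [hk, h5]; norm_num)
  · exact hne (by rw [hk, h5]; norm_num)

end VAN

theorem t_VAN : S_VAN := by
  intro hNRM hKUM hSEL hLOCK hSQR hRAM hUNR hCYI hCC χ e u ρ hD hO c hc hI hDD
  have := VAN.comp
  by_contra hn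
  obtain ⟨τ₀, hτ⟩ := VAN.exists_moved hD.sqf hD.ne hD.hu
  have hv : vl χ τ₀ ≠ 1 := by
    intro h
    apply hτ
    rw [← hD.lt τ₀, h, sub_self, norm_zero]
    exact hD.pos
  obtain ⟨a, y, h1, ⟨σ₁, h2⟩, h3⟩ := hNRM hD.cont hc τ₀ hv hn
  have hc' := hc.twist hD.cont a y
  obtain ⟨x, s, hx, hs, hmd⟩ := hKUM _ (Pool.Agent.R384.md_cont hc') (Pool.Agent.R384.md_mul hc' h1)
  have hLC : LC e x := hSEL hLOCK hSQR hRAM hUNR hCYI hCC hD hc' h1
    (fun p _ ι hp => (hI p ι hp).twist a y) (fun ι => (hDD ι).twist a y) hx hs hmd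
  rcases hO x hLC with h | h
  · have h4 : σ₁ s = s := by
      rw [h, Int.cast_one] at hs
      rcases (sq_eq_sq_iff_eq_or_eq_neg (a := s) (b := 1)).1 (by rw [hs, one_pow]) with h5 | h5
      · rw [h5, map_one]
      · rw [h5, map_neg, map_one]
    have h5 := Pool.Agent.R384.md_zero.1 ((hmd σ₁).1 h4)
    exact absurd h2 (ne_of_lt h5)
  · have h4 : τ₀ s = s := by
      refine (hmd τ₀).2 (Pool.Agent.R384.md_zero.2 ?_)
      show ‖a * c τ₀ + (vl χ τ₀ - 1) * y‖ < 1
      rw [h3, norm_zero]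
      exact one_pos
    rw [h, ← hD.hu] at hs
    rcases sq_eq_sq_iff_eq_or_eq_neg.1 hs with h5 | h5
    · exact hτ (by rw [← h5, h4])
    · rw [h5, map_neg] at h4
      exact hτ (neg_injective h4)

end Pool.Agent.NH57.SQ
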