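import Pool.Agent.NH57.SQ.Asm
import Pool.Agent.NH57.SQ.NRM
import Pool.Agent.NH57.SQ.LOCK
import Pool.Agent.NH57.SQ.KUM
import Pool.Agent.NH57.SQ.SQR
import Pool.Agent.NH57.SQ.RAM
import Pool.Agent.NH57.SQ.UNR
import Pool.Agent.NH57.SQ.CYI
import Pool.Agent.NH57.SQ.CYS
import Pool.Agent.NH57.SQ.CC
import Pool.Agent.NH57.SQ.SEL
import Pool.Agent.NH57.SQ.VAN
import Pool.Agent.NH57.SQ.CHA
import Pool.Agent.NH57.SQ.CHB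
import Pool.Agent.NH57.SQ.ONE
import Pool.Agent.NH57.SQ.GRP
import Pool.Agent.NH57.SQ.IDX
import Pool.Agent.NH57.SQ.IND
import Pool.Agent.NH57.SQ.UP
import Pool.Agent.NH3.XT.L2R

/-!
# Project SQ (helper57): the criterion
-/

set_option autoImplicit false

namespace Pool.Agent.NH57.SQ

open Pool.Agent.R384 (vl)

theorem f_H {D : ℤ} (hD : Squarefree D) (hD1 : D % 8 ≠ 1) (hD7 : D % 8 ≠ 7) (oD : Only D)
    (oD' : Only (-D)) {r : ℤ} (hr : r ≠ 0) {I s : QB} (hI : I ^ 2 = -1) (hs : s ^ 2 = (D : QB))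
    {H : Subgroup GQ} (hH : ∀ σ : GQ, σ I = I → σ s = s → σ ∈ H) :
    VanH H (cyc ^ r) ∧ ∀ ι : QB →ₐ[ℚ] PadicAlgCl 2, ∃ σ ∈ DD ι, σ ∈ H ∧ vl (cyc ^ r) σ ≠ 1 :=
  van_H t_NRM t_LOCK t_KUM t_SQR t_RAM t_UNR t_CYI t_CYS t_CC t_SEL t_VAN t_CHA t_CHB t_ONE t_GRP
    t_IDX t_IND t_UP t_NT Pool.Agent.NH3.XT.t_SQ2 hD hD1 hD7 oD oD' hr hI hs hH

end Pool.Agent.NH57.SQ
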