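import Pool.Agent.NH57.SQ.XL.R4
import Pool.Agent.NH57.SQ.XL.NM

/-!
# Project SQ, NF (helper5; light imports): no ideal class of order four, in terms of the kernel of the Rédei matrix
-/

set_option autoImplicit false

open scoped Classical

namespace Pool.Agent.NH57.SQ

open Finset
open Pool.Agent.NH4.XG (nx Ram SolG)
open Pool.Agent.NH57.SQ.XL (G4)

/-- the class number of `ℚ(√-3)` is one -/
theorem cl_three (K : Type) [Field K] [NumberField K] (hK : Module.finrank ℚ K = 2)
    (ha : ∃ a : K, a ^ 2 = ((-3 : ℤ) : K)) (c : ClassGroup (NumberField.RingOfIntegers K)) : c = 1 := by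
  obtain ⟨a, ha⟩ := ha
  push_cast at ha
  set z : K := (-1 + a) / 2 with hz
  have h1 : z ^ 2 + z + 1 = 0 := by
    rw [hz]
    field_simp
    linear_combination ha
  have h3 : z ^ 3 = 1 := by linear_combination (z - 1) * h1
  have hne : z ≠ 1 := by
    intro h
    rw [h] at h1
    norm_num at h1
  have hprim : IsPrimitiveRoot z 3 := by
    refine IsPrimitiveRoot.iff_orderOf.2 ?_
    exact orderOf_eq_prime h3 hne
  have hcyc : IsCyclotomicExtension {3} ℚ (IntermediateField.adjoin ℚ {z}) :=
    hprim.intermediateField_adjoin_isCyclotomicExtension ℚ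
  have hfr : Module.finrank ℚ (IntermediateField.adjoin ℚ {z}) = 2 := by
    have := IsCyclotomicExtension.finrank (n := 3) (K := ℚ) (IntermediateField.adjoin ℚ {z})
      (Polynomial.cyclotomic.irreducible_rat (by norm_num))
    rw [this]
    rfl
  have htop : IntermediateField.adjoin ℚ {z} = ⊤ := by
    apply IntermediateField.eq_of_le_of_finrank_eq le_top
    rw [hfr, IntermediateField.finrank_top', hK]
  have hcyc' : IsCyclotomicExtension {3} ℚ K := by
    rw [htop] at hcyc
    exact IsCyclotomicExtension.equiv {3} ℚ (⊤ : IntermediateField ℚ K) IntermediateField.topEquiv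
  have hpid : IsPrincipalIdealRing (NumberField.RingOfIntegers K) :=
    IsCyclotomicExtension.Rat.three_pid K
  have hsub : Subsingleton (ClassGroup (NumberField.RingOfIntegers K)) :=
    (@Fintype.card_le_one_iff_subsingleton _ instFintypeClassGroupOfIsPrincipalIdealRing).1
      card_classGroup_eq_one.le
  exact Subsingleton.elim c 1

/-- the Rédei kernel for the prime three -/
theorem nx_three : nx {3} = 2 := by
  have hR : Ram {3} = {3} := by
    unfold Ram
    rw [prod_singleton, if_pos rfl]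
  have hS : ∀ T ∈ ({3} : Finset ℕ).powerset, SolG {3} fun p => if p ∈ T then 1 else 0 := by
    intro T hT p hp
    have h3 : p = 3 := mem_singleton.1 (mem_of_mem_erase hp)
    have h2 : (2 : ℕ) ∉ T := fun h => by
      have := mem_singleton.1 (mem_powerset.1 hT h)
      omega
    have h2' : (2 : ℕ) ∉ ({3} : Finset ℕ) := by decide
    rw [sum_singleton, h3, if_neg h2']
    have e : ((fun p => if p ∈ T then 1 else 0) : ℕ → ZMod 2) 2 = 0 := if_neg h2
    have h5 : ∀ x : ZMod 2, x + x = 0 := by decide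
    rw [e, h5, mul_zero, mul_zero, add_zero]
  unfold nx
  rw [hR, filter_true_of_mem hS, card_powerset, card_singleton, pow_one]

theorem t_NF : ∀ D : ℤ, D < 0 → Squarefree D → D % 8 ≠ 7 → D % 8 ≠ 1 →
    ∀ (K : Type) [Field K] [NumberField K], Module.finrank ℚ K = 2 → (∃ a : K, a ^ 2 = (D : K)) →
    ((∀ c : ClassGroup (NumberField.RingOfIntegers K), c ^ 4 = 1 → c ^ 2 = 1) ↔
      nx D.natAbs.primeFactors = 2) := by
  intro D h0 hs h7 _ K _ _ hK ha
  by_cases h3 : D = -3
  · subst h3
    have e : ((-3 : ℤ).natAbs).primeFactors = {3} := by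
      rw [show (-3 : ℤ).natAbs = 3 from rfl]
      exact Nat.Prime.primeFactors Nat.prime_three
    rw [e]
    refine ⟨fun _ => nx_three, fun _ c _ => ?_⟩
    rw [cl_three K hK ha c, one_pow]
  · have hsn : Squarefree D.natAbs := Int.squarefree_natAbs.2 hs
    have e : (-(D.natAbs : ℤ)) = D := by omega
    have h1 : D ≠ -1 := by
      rintro rfl
      exact h7 rfl
    have h4 : 2 * Nat.card (G4 K) = nx D.natAbs.primeFactors := by
      rw [Pool.Agent.NH57.SQ.XL.t_R4 D.natAbs hsn (by omega) (by omega) K hK (by rw [e]; exact ha),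
        Pool.Agent.NH57.SQ.XL.t_NM _ hsn]
    rw [← h4]
    have h5 : 2 * Nat.card (G4 K) = 2 ↔ Nat.card (G4 K) = 1 := by omega
    rw [h5, Nat.card_eq_one_iff_unique]
    constructor
    · intro h
      refine ⟨⟨fun x y => ?_⟩, ⟨⟨1, one_pow 2, 1, one_pow 2⟩⟩⟩
      have key : ∀ x : G4 K, x.1 = 1 := by
        rintro ⟨x, hx, b, rfl⟩
        exact h b (by rw [← hx]; group)
      exact Subtype.ext ((key x).trans (key y).symm)
    · rintro ⟨h, -⟩ c hc
      have h6 : (c ^ 2) ^ 2 = 1 := by rw [← hc]; group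
      have h8 := h.elim (⟨c ^ 2, h6, c, rfl⟩ : G4 K) ⟨1, one_pow 2, 1, one_pow 2⟩
      exact congrArg Subtype.val h8

theorem exists_K : ∀ D : ℤ, D < 0 → Squarefree D → ∃ (K : Type) (_ : Field K) (_ : NumberField K),
    Module.finrank ℚ K = 2 ∧ ∃ a : K, a ^ 2 = (D : K) := by
  intro D h0 _
  obtain ⟨s, hs⟩ : ∃ s : AlgebraicClosure ℚ, s ^ 2 = (D : AlgebraicClosure ℚ) :=
    IsAlgClosed.exists_pow_nat_eq _ (by norm_num)
  have hirr : Irreducible (Polynomial.X ^ 2 - Polynomial.C (D : ℚ)) := by
    refine X_pow_sub_C_irreducible_of_prime Nat.prime_two fun b hb => ?_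
    have h1 : (0 : ℚ) ≤ b ^ 2 := sq_nonneg b
    rw [hb] at h1
    have h2 : (0 : ℤ) ≤ D := by exact_mod_cast h1
    omega
  have hroot : Polynomial.aeval s (Polynomial.X ^ 2 - Polynomial.C (D : ℚ)) = 0 := by
    rw [map_sub, map_pow, Polynomial.aeval_X, Polynomial.aeval_C, hs]
    simp
  have hmon : (Polynomial.X ^ 2 - Polynomial.C (D : ℚ)).Monic :=
    Polynomial.monic_X_pow_sub_C _ (by norm_num)
  have hmin : minpoly ℚ s = Polynomial.X ^ 2 - Polynomial.C (D : ℚ) :=
    (minpoly.eq_of_irreducible_of_monic hirr hroot hmon).symm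
  have hint : IsIntegral ℚ s := ⟨_, hmon, by rw [← Polynomial.aeval_def]; exact hroot⟩
  have hfin : FiniteDimensional ℚ (IntermediateField.adjoin ℚ {s}) :=
    IntermediateField.adjoin.finiteDimensional hint
  have hfr : Module.finrank ℚ (IntermediateField.adjoin ℚ {s}) = 2 := by
    rw [IntermediateField.adjoin.finrank hint, hmin, Polynomial.natDegree_X_pow_sub_C]
  have : CharZero (IntermediateField.adjoin ℚ {s}) := inferInstance
  refine ⟨IntermediateField.adjoin ℚ {s}, inferInstance, ⟨⟩, hfr,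
    ⟨s, IntermediateField.mem_adjoin_simple_self ℚ s⟩, ?_⟩
  apply Subtype.ext
  push_cast
  exact hs

end Pool.Agent.NH57.SQ
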