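import Pool.Agent.NH57.SQ.Asm8
import Pool.Agent.NH57.SQ.DIO
import Pool.Agent.NH57.SQ.NFl

/-!
# Project SQ (helper57): all quadratic fields, half of the twists
-/

set_option autoImplicit false

open scoped Classical

namespace Pool.Agent.NH57.SQ

open Finset
open Pool.Agent.NH3.XT (AS CS S_SQ2 t_SQ2 A2 C2 H1 H3 Sq2)
open Pool.Agent.NH4.XG (nx Ram SolG)
open Pool.Agent.NH57.SQ.XL (G4)
open Pool.Agent.R384 (Coc CobOn vl md)

open Dio in
/-- DIO without congruence conditions -/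
theorem dio_gen (hS : S_SQ2) {D : ℤ} (h0 : D < 0) (hD : Squarefree D) (h1 : D ≠ -1)
    (hfin : (AS D ×ˢ CS D).Finite) (hcard : (AS D ×ˢ CS D).ncard = 4) : Only D ∧ Only (-D) := by
  have hA : ({1, D} : Set ℤ) ⊆ AS D := by
    rintro y (rfl | rfl)
    · exact one_mem_AS D
    · exact D_mem_AS hD
  have hC : ({1, -D} : Set ℤ) ⊆ CS D := by
    rintro y (rfl | rfl)
    · exact one_mem_CS
    · exact D_mem_CS hD h0
  have hAf : (AS D).Finite := hfin.of_prod_left ⟨1, one_mem_CS⟩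
  have hCf : (CS D).Finite := hfin.of_prod_right ⟨1, one_mem_AS D⟩
  have hA2 : ({1, D} : Set ℤ).ncard = 2 := Set.ncard_pair (by omega)
  have hC2 : ({1, -D} : Set ℤ).ncard = 2 := Set.ncard_pair (by omega)
  have hA3 := Set.ncard_le_ncard hA hAf
  have hC3 := Set.ncard_le_ncard hC hCf
  rw [Set.ncard_prod] at hcard
  have hA4 : (AS D).ncard = 2 := by
    rw [hA2] at hA3
    rw [hC2] at hC3
    nlinarith
  have hC4 : (CS D).ncard = 2 := by
    rw [hA4] at hcard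
    omega
  have hAe : ({1, D} : Set ℤ) = AS D := Set.eq_of_subset_of_ncard_le hA (by omega) hAf
  have hCe : ({1, -D} : Set ℤ) = CS D := Set.eq_of_subset_of_ncard_le hC (by omega) hCf
  constructor
  · intro x hx
    have h3 := mem_AS hS hD hx
    rw [← hAe] at h3
    simpa using h3
  · intro x hx
    by_cases h2 : D = -2
    · subst h2
      have h3 := only_two hS (by simpa using hx)
      simpa using h3
    · have h3 := mem_CS hS hD h0 h2 hx
      rw [← hCe] at h3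
      simpa using h3


/-- NF without congruence conditions -/
theorem nf_gen : ∀ D : ℤ, D < 0 → Squarefree D → D ≠ -1 →
    ∀ (K : Type) [Field K] [NumberField K], Module.finrank ℚ K = 2 → (∃ a : K, a ^ 2 = (D : K)) →
    ((∀ c : ClassGroup (NumberField.RingOfIntegers K), c ^ 4 = 1 → c ^ 2 = 1) ↔
      nx D.natAbs.primeFactors = 2) := by
  intro D h0 hs h1 K _ _ hK ha
  by_cases h3 : D = -3
  · subst h3
    have e : ((-3 : ℤ).natAbs).primeFactors = {3} := by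
      rw [show (-3 : ℤ).natAbs = 3 from rfl]
      exact Nat.Prime.primeFactors Nat.prime_three
    rw [e]
    refine ⟨fun _ => nx_three, fun _ c _ => ?_⟩
    rw [cl_three K hK ha c, one_pow]
  · have hsn : Squarefree D.natAbs := Int.squarefree_natAbs.2 hs
    have e : (-(D.natAbs : ℤ)) = D := by omega
    have h4 : 2 * Nat.card (G4 K) = nx D.natAbs.primeFactors := by
      rw [Pool.Agent.NH57.SQ.XL.t_R4 D.natAbs hsn (by omega) (by omega) K hK (by rw [e]; exact ha),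
        Pool.Agent.NH57.SQ.XL.t_NM _ hsn]
    rw [← h4]
    have h5 : 2 * Nat.card (G4 K) = 2 ↔ Nat.card (G4 K) = 1 := by omega
    rw [h5, Nat.card_eq_one_iff_unique]
    constructor
    · intro h
      refine ⟨⟨fun x y => ?_⟩, ⟨⟨1, one_pow 2, 1, one_pow 2⟩⟩⟩
      have key : ∀ x : G4 K, x.1 = 1 := by
        rintro ⟨x, hx, b, rfl⟩
        exact h b (by rw [← hx]; group)
      exact Subtype.ext ((key x).trans (key y).symm)
    · rintro ⟨h, -⟩ c hc
      have h6 : (c ^ 2) ^ 2 = 1 := by rw [← hc]; group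
      have h8 := h.elim (⟨c ^ 2, h6, c, rfl⟩ : G4 K) ⟨1, one_pow 2, 1, one_pow 2⟩
      exact congrArg Subtype.val h8


/-- one quadratic field -/
theorem f_quad {r d : ℤ} (hr : r ≠ 0) (hok : Ok r d) {t : QB} (ht : t ^ 2 = (d : QB))
    {H : Subgroup GQ} (hH : ∀ σ : GQ, σ t = t → σ ∈ H) :
    VanH H (cyc ^ r) ∧ ∀ ι : QB →ₐ[ℚ] PadicAlgCl 2, ∃ σ ∈ DD ι, σ ∈ H ∧ vl (cyc ^ r) σ ≠ 1 := by
  obtain ⟨ε, g, c⟩ := exists_sgn hok.1.ne_zero ht
  have k1 : Ok r 1 := ⟨squarefree_one, fun _ => Or.inl rfl, fun _ => Or.inr ⟨by norm_num, t_ONE.1⟩⟩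
  have b1 : VanH ⊤ (cyc ^ r) := by
    have h := van_gen hr k1 (s := 1) (ε := 1) (by simp) sgn_one continuous_const
    have e : (cyc ^ r * 1 : GQ →* ℤ_[2]ˣ) = cyc ^ r := by
      ext σ
      rw [MonoidHom.mul_apply, MonoidHom.one_apply, mul_one]
    rwa [e] at h
  have hv : VanH (⊤ ⊓ ε.ker) (cyc ^ r) :=
    t_IND t_GRP t_IDX ⊤ _ ε g.pm (cont_cyc r) c b1 (van_gen hr hok ht g c)
  have hNH : ⊤ ⊓ ε.ker ≤ H := by
    rintro σ ⟨-, q1⟩
    exact hH σ (g.fix q1)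
  have hnt : ∀ ι : QB →ₐ[ℚ] PadicAlgCl 2, ∃ σ ∈ DD ι, σ ∈ ⊤ ⊓ ε.ker ∧
      vl (cyc ^ r) σ ≠ 1 := by
    intro ι
    obtain ⟨σ, q1, q2, q3⟩ := t_NT3 t_SQR t_CYS t_GRP ι r hr
    exact ⟨σ, q1, ⟨Subgroup.mem_top σ, q2 ε g.pm⟩, q3⟩
  refine ⟨?_, fun ι => ?_⟩
  · have halg : Algebra.IsAlgebraic ℚ QB := AlgebraicClosure.isAlgebraic ℚ
    let ι₀ : QB →ₐ[ℚ] PadicAlgCl 2 := IsAlgClosed.lift
    obtain ⟨σ, -, q2, q3⟩ := hnt ι₀
    exact t_UP H _ (cyc ^ r) inferInstance hNH ⟨σ, q2, q3⟩ hv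
  · obtain ⟨σ, q1, q2, q3⟩ := hnt ι
    exact ⟨σ, q1, hNH q2, q3⟩

/-- the conditions for `±D` -/
theorem ok_quad {r d : ℤ} (hd : Squarefree d) (o1 : Only (-|d|)) (o2 : Only (-(-|d|)))
    (h : (Even r ∧ d % 8 ≠ 1) ∨ (Odd r ∧ d % 8 ≠ 7)) : Ok r d := by
  have hb : Only d ∧ Only (-d) := by
    rcases abs_choice d with e | e
    · rw [e] at o1 o2
      rw [neg_neg] at o2
      exact ⟨o2, o1⟩
    · rw [e] at o1 o2
      rw [neg_neg] at o1
      rw [neg_neg] at o2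
      exact ⟨o1, o2⟩
  refine ⟨hd, fun hev => Or.inr ⟨?_, hb.1⟩, fun hod => Or.inr ⟨?_, hb.2⟩⟩
  · rcases h with h | h
    · exact h.2
    · exact absurd hev (Int.not_even_iff_odd.2 h.1)
  · rcases h with h | h
    · exact absurd h.1 (Int.not_even_iff_odd.2 hod)
    · have := h.2
      omega

end Pool.Agent.NH57.SQ
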