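import Pool.Agent.NH57.SQ.Sq2
import Pool.Agent.NH57.SQ.Den8

/-!
# Project SQ (helper57): multiquadratic fields of any degree
-/

set_option autoImplicit false

open scoped Classical

namespace Pool.Agent.NH57.SQ

open Pool.Agent.R384 (Coc CobOn vl md)
open Pool.Agent.NH4.XG (nx)

variable {n : ℕ}

/-- the group of the field -/
noncomputable def NJ (ε₁ : GQ →* ℤ_[2]ˣ) (ε : Fin n → GQ →* ℤ_[2]ˣ) (J : Finset (Fin n)) : Subgroup GQ :=
  (⊤ ⊓ ε₁.ker) ⊓ J.inf fun i => (ε i).ker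

theorem NJ_insert (ε₁ : GQ →* ℤ_[2]ˣ) (ε : Fin n → GQ →* ℤ_[2]ˣ) {J : Finset (Fin n)} {j : Fin n} :
    NJ ε₁ ε (insert j J) = NJ ε₁ ε J ⊓ (ε j).ker := by
  unfold NJ
  rw [Finset.inf_insert, inf_assoc, inf_assoc, inf_assoc, inf_comm (ε j).ker]

theorem NJ_mem {ε₁ : GQ →* ℤ_[2]ˣ} {ε : Fin n → GQ →* ℤ_[2]ˣ} {J : Finset (Fin n)} {σ : GQ} :
    σ ∈ NJ ε₁ ε J ↔ ε₁ σ = 1 ∧ ∀ i ∈ J, ε i σ = 1 := by
  induction J using Finset.induction_on with
  | empty =>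
    unfold NJ
    simp [MonoidHom.mem_ker]
  | insert j J hj ih =>
    rw [NJ_insert, Subgroup.mem_inf, ih, MonoidHom.mem_ker]
    constructor
    · rintro ⟨⟨h1, h2⟩, h3⟩
      refine ⟨h1, fun i hi => ?_⟩
      rcases Finset.mem_insert.1 hi with rfl | hi
      · exact h3
      · exact h2 i hi
    · rintro ⟨h1, h2⟩
      exact ⟨⟨h1, fun i hi => h2 i (Finset.mem_insert_of_mem hi)⟩,
        h2 j (Finset.mem_insert_self j J)⟩

theorem NJ_normal (ε₁ : GQ →* ℤ_[2]ˣ) (ε : Fin n → GQ →* ℤ_[2]ˣ) (J : Finset (Fin n)) :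
    (NJ ε₁ ε J).Normal := by
  constructor
  intro σ hσ g
  rw [NJ_mem] at hσ ⊢
  refine ⟨?_, fun i hi => ?_⟩
  · rw [map_mul, map_mul, hσ.1, mul_one, ← map_mul, mul_inv_cancel, map_one]
  · rw [map_mul, map_mul, hσ.2 i hi, mul_one, ← map_mul, mul_inv_cancel, map_one]

/-- the induction -/
theorem van_multi {r : ℤ} (hr : r ≠ 0) {I : QB} {ε₁ : GQ →* ℤ_[2]ˣ} (hI : I ^ 2 = -1)
    (g1 : Sgn ε₁ I) (c1 : Continuous ε₁) {m : Fin n → ℕ} {s : Fin n → QB}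
    {ε : Fin n → GQ →* ℤ_[2]ˣ} (hs : ∀ i, s i ^ 2 = ((m i : ℕ) : QB)) (g : ∀ i, Sgn (ε i) (s i))
    (c : ∀ i, Continuous (ε i)) (J : Finset (Fin n)) :
    ∀ (d : ℤ) (t : QB) (η : GQ →* ℤ_[2]ˣ), t ^ 2 = (d : QB) → Sgn η t → Continuous η →
      (∀ S ⊆ J, Okk r (d * ((∏ i ∈ S, m i : ℕ) : ℤ)) ∧ Okk r (-(d * ((∏ i ∈ S, m i : ℕ) : ℤ)))) →
      VanH (NJ ε₁ ε J) (cyc ^ r * η) := by
  induction J using Finset.induction_on with
  | empty =>
    intro d t η ht hη hc h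
    have h1 := h ∅ (Finset.Subset.refl _)
    rw [Finset.prod_empty, Nat.cast_one, mul_one] at h1
    have e : NJ ε₁ ε ∅ = ⊤ ⊓ ε₁.ker := by
      unfold NJ
      rw [Finset.inf_empty, inf_top_eq]
    rw [e]
    exact stepA' hr h1.1 h1.2 hI g1 c1 ht hη hc
  | insert j J hj ih =>
    intro d t η ht hη hc h
    rw [NJ_insert]
    have h1 : VanH (NJ ε₁ ε J) (cyc ^ r * η) :=
      ih d t η ht hη hc fun S hS => h S (hS.trans (Finset.subset_insert j J))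
    have e : (cyc ^ r * η * ε j : GQ →* ℤ_[2]ˣ) = cyc ^ r * (η * ε j) := by
      ext σ
      simp only [MonoidHom.mul_apply, mul_assoc]
    have h2 : VanH (NJ ε₁ ε J) (cyc ^ r * η * ε j) := by
      rw [e]
      refine ih (d * m j) (t * s j) (η * ε j) ?_ (hη.mul (g j)) (hc.mul (c j)) fun S hS => ?_
      · rw [mul_pow, ht, hs j]
        push_cast
        ring
      · have h3 := h (insert j S) (Finset.insert_subset_insert j hS)
        rw [Finset.prod_insert (fun hjS => hj (hS hjS))] at h3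
        push_cast at h3 ⊢
        rw [mul_assoc]
        exact h3
    exact t_IND t_GRP t_IDX _ _ (ε j) (g j).pm ((cont_cyc r).mul hc) (c j) h1 h2

/-- the multiquadratic field -/
theorem g_multi {r : ℤ} (hr : r ≠ 0) {m : Fin n → ℕ}
    (hm : ∀ S : Finset (Fin n), S.Nonempty → Squarefree (-((∏ i ∈ S, m i : ℕ) : ℤ)) ∧
      1 < ∏ i ∈ S, m i ∧ OkE (-((∏ i ∈ S, m i : ℕ) : ℤ)) ∧ OkE (((∏ i ∈ S, m i : ℕ) : ℤ)))
    {I : QB} {s : Fin n → QB} (hI : I ^ 2 = -1) (hs : ∀ i, s i ^ 2 = ((m i : ℕ) : QB))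
    {H : Subgroup GQ} (hH : ∀ σ : GQ, σ I = I → (∀ i, σ (s i) = s i) → σ ∈ H) :
    VanH H (cyc ^ r) ∧ ∀ ι : QB →ₐ[ℚ] PadicAlgCl 2, ∃ σ ∈ DD ι, σ ∈ H ∧ vl (cyc ^ r) σ ≠ 1 := by
  obtain ⟨ε₁, g1, c1⟩ := exists_sgn (s := I) (m := -1) (by norm_num) (by rw [hI]; simp)
  have hmi : ∀ i, (m i : ℤ) ≠ 0 := by
    intro i h
    have h1 := (hm {i} (Finset.singleton_nonempty i)).2.1
    rw [Finset.prod_singleton] at h1
    omega
  have hex : ∀ i, ∃ ε : GQ →* ℤ_[2]ˣ, Sgn ε (s i) ∧ Continuous ε := fun i =>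
    exists_sgn (hmi i) (by rw [hs i]; push_cast; rfl)
  choose ε g c using hex
  have hv : VanH (NJ ε₁ ε Finset.univ) (cyc ^ r) := by
    have h := van_multi hr hI g1 c1 hs g c Finset.univ 1 1 1 (by simp) sgn_one continuous_const
      fun S _ => by
        rw [one_mul]
        rcases S.eq_empty_or_nonempty with rfl | hS
        · rw [Finset.prod_empty, Nat.cast_one]
          exact ⟨okk_one r, okk_neg_one r⟩
        · obtain ⟨h1, h2, h3, h4⟩ := hm S hS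
          have h5 : Okk r (-((∏ i ∈ S, m i : ℕ) : ℤ)) :=
            okk_of h1 (by omega) (by omega) h3 (by rwa [neg_neg])
          have h6 : Okk r (-(-((∏ i ∈ S, m i : ℕ) : ℤ))) :=
            okk_of' h1 (by omega) (by omega) h3 (by rwa [neg_neg])
          rw [neg_neg] at h6
          exact ⟨h6, h5⟩
    rwa [one_eq] at h
  refine up_gen (NJ_normal ε₁ ε Finset.univ) (fun σ hσ => ?_) hv fun ι => ?_
  · rw [NJ_mem] at hσ
    exact hH σ (g1.fix hσ.1) fun i => (g i).fix (hσ.2 i (Finset.mem_univ i))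
  · obtain ⟨σ, q1, q2, q3⟩ := t_NT3 t_SQR t_CYS t_GRP ι r hr
    exact ⟨σ, q1, NJ_mem.2 ⟨q2 ε₁ g1.pm, fun i _ => q2 (ε i) (g i).pm⟩, q3⟩

end Pool.Agent.NH57.SQ
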