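import Pool.Agent.NH57.SQ.SEL
import Pool.Agent.NH57.SQ.LOCK
import Pool.Agent.NH57.SQ.NRM
import Pool.Agent.NH57.SQ.KUM
import Pool.Agent.NH57.SQ.SQR
import Pool.Agent.NH57.SQ.RAM
import Pool.Agent.NH57.SQ.UNR
import Pool.Agent.NH57.SQ.CYI
import Pool.Agent.NH57.SQ.CYS
import Pool.Agent.NH57.SQ.CC
import Pool.Agent.NH57.SQ.VAN
import Pool.Agent.NH57.SQ.CHA
import Pool.Agent.NH57.SQ.CHB
import Pool.Agent.NH57.SQ.ONE

/-!
# Project SQ (helper57): the case of a 2-adic square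
-/

set_option autoImplicit false
set_option linter.unusedVariables false

namespace Pool.Agent.NH57.SQ

open Pool.Agent.R384 (Coc CobOn vl md)

/-- as `Dt`, without the condition at two -/
structure DtS (χ : GQ →* ℤ_[2]ˣ) (e : ℤ) (u : QB) (ρ : ℝ) : Prop where
  cont : Continuous χ
  sqf : Squarefree e
  ne : e ≠ 1
  hu : u ^ 2 = (e : QB)
  pos : 0 < ρ
  half : ρ ≤ 1 / 2
  le : ∀ σ, ‖vl χ σ - 1‖ ≤ ρ
  lt : ∀ σ, ‖vl χ σ - 1‖ < ρ ↔ σ u = u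
  inr : ∀ (p : ℕ) [Fact p.Prime] (ι : QB →ₐ[ℚ] PadicAlgCl p), p ≠ 2 → ∀ σ ∈ II ι,
    vl χ σ = 1 ∨ vl χ σ = -1
  cc : e ≠ 2 → 0 < e → ∀ κ : GQ, IsCC κ → vl χ κ = 1

/-- the behaviour at two: the first digit is the character of `√2` -/
def AtTwo (χ : GQ →* ℤ_[2]ˣ) : Prop := ∀ ι : QB →ₐ[ℚ] PadicAlgCl 2, ∃ (v : QB) (ρ : ℝ),
  v ^ 2 = 2 ∧ 0 < ρ ∧ ∀ σ ∈ DD ι, ‖vl χ σ - 1‖ ≤ ρ ∧ (‖vl χ σ - 1‖ < ρ ↔ σ v = v)

/-- the local conditions for a 2-adic square -/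
structure LS (e x : ℤ) : Prop where
  sqf : Squarefree x
  odd : ∀ (p : ℕ) [Fact p.Prime], p ≠ 2 → ¬ (p : ℤ) ∣ e → ¬ (p : ℤ) ∣ x
  sq : ∀ (p : ℕ) [Fact p.Prime], p ≠ 2 → (p : ℤ) ∣ e →
    IsSquare ((x : ℤ) : ℚ_[p]) ∨ IsSquare ((x * e : ℤ) : ℚ_[p])
  two : ∀ [Fact (Nat.Prime 2)], IsSquare ((x : ℤ) : ℚ_[2]) ∨ IsSquare ((x * 2 : ℤ) : ℚ_[2])
  real : e ≠ 2 → 0 < e → 0 < x

/-- only the trivial solutions -/
def OnlyS (e : ℤ) : Prop := ∀ x : ℤ, LS e x → x = 1 ∨ x = e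

namespace SELS

open SELP

variable {χ : GQ →* ℤ_[2]ˣ} {e : ℤ} {u : QB} {ρ : ℝ} {c : GQ → ℚ_[2]} {x : ℤ} {s : QB}

/-- the case of a decomposition group which moves `u` -/
theorem loc (hL : S_LOCK) (hS : S_SQR) (d : DtS χ e u ρ) (h1 : ∀ σ, ‖c σ‖ ≤ 1)
    (hsx : s ^ 2 = (x : QB)) (hs : ∀ σ : GQ, σ s = s ↔ md c σ = 0)
    (p : ℕ) [Fact p.Prime] (ι : QB →ₐ[ℚ] PadicAlgCl p) (hD : CobOn χ (DD ι) c) {σ₀ : GQ}
    (h0 : σ₀ ∈ DD ι) (hu : σ₀ u ≠ u) :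
    IsSquare ((x : ℤ) : ℚ_[p]) ∨ IsSquare ((x * e : ℤ) : ℚ_[p]) := by
  have h2 : ‖vl χ σ₀ - 1‖ = ρ := by
    refine le_antisymm (d.le σ₀) (not_lt.1 fun h => hu ((d.lt σ₀).1 h))
  rcases hL ρ hD h1 d.le σ₀ h0 h2 d.pos with h3 | h3
  · left
    exact hS p ι s x hsx fun σ hσ => (hs σ).2 (h3 σ hσ)
  · right
    refine hS p ι (s * u) (x * e) ?_ fun σ hσ => ?_
    · rw [mul_pow, hsx, d.hu]
      push_cast
      ring
    · have h4 : σ s = s ↔ σ u = u := (hs σ).trans ((h3 σ hσ).trans (d.lt σ))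
      rw [map_mul]
      by_cases h5 : σ s = s
      · rw [h5, h4.1 h5]
      · have h6 : σ u ≠ u := fun h => h5 (h4.2 h)
        rw [(sgn hsx σ).resolve_left h5, (sgn d.hu σ).resolve_left h6]
        ring

/-- the condition at two -/
theorem locS (hS : S_SQR) (hsx : s ^ 2 = (x : QB)) (hs : ∀ σ : GQ, σ s = s ↔ md c σ = 0)
    (h1 : ∀ σ, ‖c σ‖ ≤ 1) (ι : QB →ₐ[ℚ] PadicAlgCl 2) (hD : CobOn χ (DD ι) c)
    (hat : ∃ (v : QB) (ρ : ℝ), v ^ 2 = 2 ∧ 0 < ρ ∧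
      ∀ σ ∈ DD ι, ‖vl χ σ - 1‖ ≤ ρ ∧ (‖vl χ σ - 1‖ < ρ ↔ σ v = v)) :
    IsSquare ((x : ℤ) : ℚ_[2]) ∨ IsSquare ((x * 2 : ℤ) : ℚ_[2]) := by
  obtain ⟨v, ρ, hv, hρ, hat⟩ := hat
  obtain ⟨y, hy⟩ := hD
  have hv2 : v ^ 2 = ((2 : ℤ) : QB) := by rw [hv]; norm_num
  by_cases hall : ∀ σ ∈ DD ι, md c σ = 0
  · left
    exact hS 2 ι s x hsx fun σ hσ => (hs σ).2 (hall σ hσ)
  · right
    push Not at hall
    obtain ⟨σ₁, h2, h3⟩ := hall
    have h4 : ‖c σ₁‖ = 1 := by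
      refine le_antisymm (h1 σ₁) (not_lt.1 fun h => h3 (Pool.Agent.R384.md_zero.2 h))
    -- some element moves `v`
    have hmv : ∃ σ ∈ DD ι, σ v ≠ v := by
      by_contra hcon
      push Not at hcon
      exact one_norm (2 : ℚ_[2]) one_two (by
        have := hS 2 ι v 2 hv2 hcon
        exact_mod_cast this)
    obtain ⟨σ₀, h5, h6⟩ := hmv
    have h7 : ‖vl χ σ₀ - 1‖ = ρ :=
      le_antisymm (hat σ₀ h5).1 (not_lt.1 fun h => h6 ((hat σ₀ h5).2.1 h))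
    have h8 : ρ * ‖y‖ ≤ 1 := by
      have := h1 σ₀
      rw [hy σ₀ h5, norm_mul, h7] at this
      exact this
    have h9 : 1 ≤ ρ * ‖y‖ := by
      rw [hy σ₁ h2, norm_mul] at h4
      rw [← h4]
      exact mul_le_mul_of_nonneg_right (hat σ₁ h2).1 (norm_nonneg _)
    have h10 : ρ * ‖y‖ = 1 := le_antisymm h8 h9
    have hy0 : 0 < ‖y‖ := by
      by_contra hcon
      have : ‖y‖ = 0 := le_antisymm (not_lt.1 hcon) (norm_nonneg _)
      rw [this, mul_zero] at h10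
      exact zero_ne_one h10
    have key : ∀ σ ∈ DD ι, (md c σ = 0 ↔ ‖vl χ σ - 1‖ < ρ) := by
      intro σ hσ
      rw [Pool.Agent.R384.md_zero, hy σ hσ, norm_mul]
      constructor
      · intro h
        by_contra hcon
        have h11 := le_antisymm (hat σ hσ).1 (not_lt.1 hcon)
        rw [h11, h10] at h
        exact lt_irrefl _ h
      · intro h
        rw [← h10]
        exact mul_lt_mul_of_pos_right h hy0
    refine hS 2 ι (s * v) (x * 2) ?_ fun σ hσ => ?_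
    · rw [mul_pow, hsx, hv2]
      push_cast
      ring
    · have h4 : σ s = s ↔ σ v = v := (hs σ).trans ((key σ hσ).trans (hat σ hσ).2)
      rw [map_mul]
      by_cases h5 : σ s = s
      · rw [h5, h4.1 h5]
      · have h6 : σ v ≠ v := fun h => h5 (h4.2 h)
        rw [(sgn hsx σ).resolve_left h5, (sgn hv2 σ).resolve_left h6]
        ring

end SELS

open SELP SELS

theorem t_SELS (hL : S_LOCK) (hS : S_SQR) (hR : S_RAM) (hU : S_UNR) (hC : S_CYI) (hCC : S_CC)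
    {χ : GQ →* ℤ_[2]ˣ} {e : ℤ} {u : QB} {ρ : ℝ} (d : DtS χ e u ρ) (hat : AtTwo χ)
    {c : GQ → ℚ_[2]} (hc : Coc χ c) (h1 : ∀ σ, ‖c σ‖ ≤ 1)
    (hI : ∀ (p : ℕ) [Fact p.Prime] (ι : QB →ₐ[ℚ] PadicAlgCl p), p ≠ 2 → CobOn χ (II ι) c)
    (hD2 : ∀ ι : QB →ₐ[ℚ] PadicAlgCl 2, CobOn χ (DD ι) c) {x : ℤ} {s : QB} (hx : Squarefree x)
    (hsx : s ^ 2 = (x : QB)) (hs : ∀ σ : GQ, σ s = s ↔ md c σ = 0) : LS e x := by
  have hs0 : s ≠ 0 := ne_zero hx hsx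
  have hu0 : u ≠ 0 := ne_zero d.sqf d.hu
  refine ⟨hx, ?_, ?_, ?_, ?_⟩
  · intro p hp hp2 hpe hpx
    obtain ⟨ι⟩ := exists_emb p
    obtain ⟨σ, hσ, h2⟩ := hR p ι s x hp2 hx hpx hsx
    have h3 : σ u = u := hU p ι u e hp2 hpe d.hu σ hσ
    have h4 : ‖vl χ σ - 1‖ < 1 / 2 := ((d.lt σ).2 h3).trans_le d.half
    have h5 : vl χ σ = 1 := by
      refine (d.inr p ι hp2 σ hσ).resolve_right fun h => ?_
      rw [h] at h4
      have h6 : (-1 - 1 : ℚ_[2]) = -2 := by norm_num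
      rw [h6, norm_neg, Pool.Agent.R384.norm_two'] at h4
      exact lt_irrefl _ h4
    obtain ⟨y, hy⟩ := hI p ι hp2
    have h6 : md c σ = 0 := by
      rw [Pool.Agent.R384.md_zero, hy σ hσ, h5, sub_self, zero_mul, norm_zero]
      norm_num
    have h7 := (hs σ).2 h6
    rw [h2] at h7
    exact neg_ne hs0 h7
  · intro p hp hp2 hpe'
    obtain ⟨ι⟩ := exists_emb p
    · obtain ⟨σ₀, h0, h2⟩ := hR p ι u e hp2 d.sqf hpe' d.hu
      have h3 : σ₀ u ≠ u := by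
        rw [h2]
        exact neg_ne hu0
      have h4 : vl χ σ₀ = -1 := by
        refine (d.inr p ι hp2 σ₀ h0).resolve_left fun h => h3 ((d.lt σ₀).1 ?_)
        rw [h, sub_self, norm_zero]
        exact d.pos
      exact SELS.loc hL hS d h1 hsx hs p ι (Pool.Agent.R384.dec_of_inert hc (hI p ι hp2) h0 h4
        fun τ hτ => hC.2.2 p ι σ₀ h0 τ hτ) (II_sub h0) h3
  · intro _
    obtain ⟨ι⟩ := exists_emb 2
    exact locS hS hsx hs h1 ι (hD2 ι) (hat ι)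
  · intro he2 he0
    obtain ⟨κ, hκ⟩ := hCC
    have h2 : vl χ κ = 1 := d.cc he2 he0 κ hκ
    have h3 := hc.mul κ κ
    rw [hκ.1, hc.one, h2, one_mul, ← two_mul] at h3
    have h4 : c κ = 0 := (mul_eq_zero.1 h3.symm).resolve_left two_ne_zero
    have h5 : md c κ = 0 := by
      rw [Pool.Agent.R384.md_zero, h4, norm_zero]
      norm_num
    exact (hκ.2.2 s x hx.ne_zero hsx).1 ((hs κ).2 h5)

theorem t_VANS {χ : GQ →* ℤ_[2]ˣ} {e : ℤ} {u : QB} {ρ : ℝ} (hD : DtS χ e u ρ) (hat : AtTwo χ)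
    (hO : OnlyS e) : Van χ := by
  intro c hc hI hDD
  have := VAN.comp
  by_contra hn
  obtain ⟨τ₀, hτ⟩ := VAN.exists_moved hD.sqf hD.ne hD.hu
  have hv : vl χ τ₀ ≠ 1 := by
    intro h
    apply hτ
    rw [← hD.lt τ₀, h, sub_self, norm_zero]
    exact hD.pos
  obtain ⟨a, y, h1, ⟨σ₁, h2⟩, h3⟩ := t_NRM hD.cont hc τ₀ hv hn
  have hc' := hc.twist hD.cont a y
  obtain ⟨x, s, hx, hs, hmd⟩ := t_KUM _ (Pool.Agent.R384.md_cont hc') (Pool.Agent.R384.md_mul hc' h1)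
  have hLC : LS e x := t_SELS t_LOCK t_SQR t_RAM t_UNR t_CYI t_CC hD hat hc' h1
    (fun p _ ι hp => (hI p ι hp).twist a y) (fun ι => (hDD ι).twist a y) hx hs hmd
  rcases hO x hLC with h | h
  · have h4 : σ₁ s = s := by
      rw [h, Int.cast_one] at hs
      rcases (sq_eq_sq_iff_eq_or_eq_neg (a := s) (b := 1)).1 (by rw [hs, one_pow]) with h5 | h5
      · rw [h5, map_one]
      · rw [h5, map_neg, map_one]
    have h5 := Pool.Agent.R384.md_zero.1 ((hmd σ₁).1 h4)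
    exact absurd h2 (ne_of_lt h5)
  · have h4 : τ₀ s = s := by
      refine (hmd τ₀).2 (Pool.Agent.R384.md_zero.2 ?_)
      show ‖a * c τ₀ + (vl χ τ₀ - 1) * y‖ < 1
      rw [h3, norm_zero]
      exact one_pos
    rw [h, ← hD.hu] at hs
    rcases sq_eq_sq_iff_eq_or_eq_neg.1 hs with h5 | h5
    · exact hτ (by rw [← h5, h4])
    · rw [h5, map_neg] at h4
      exact hτ (neg_injective h4)

open CHA in
theorem t_CHAS (hcyi : S_CYI) (hcys : S_CYS) (r d : ℤ) (s : QB) (ε : GQ →* ℤ_[2]ˣ)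
    (hd : Squarefree d) (hs : s ^ 2 = (d : QB)) (hε : Sgn ε s) (hεc : Continuous ε) (e : ℤ)
    (he : (Even r ∧ e = d) ∨ (Odd r ∧ e = -d)) (hne : e ≠ 1) :
    ∃ u : QB, DtS (cyc ^ r * ε) e u (1 / 2) := by
  obtain ⟨hcont, hcyi2, -⟩ := hcyi
  obtain ⟨hcys1, -⟩ := hcys
  obtain ⟨I, hI⟩ := IsAlgClosed.exists_pow_nat_eq (-1 : QB) (n := 2) (by norm_num)
  have hd0 : d ≠ 0 := hd.ne_zero
  have hs0 : s ≠ 0 := by
    rintro rfl
    rw [zero_pow (by norm_num)] at hs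
    exact hd0 (by exact_mod_cast hs.symm)
  have hI0 : I ≠ 0 := by
    rintro rfl
    rw [zero_pow (by norm_num)] at hI
    norm_num at hI
  have hval : ∀ σ, (cyc ^ r * ε) σ = (cyc σ) ^ r * ε σ := fun σ => by
    rw [MonoidHom.mul_apply]
    rfl
  have hcon : Continuous (cyc ^ r * ε) := by
    have : (⇑(cyc ^ r * ε) : GQ → ℤ_[2]ˣ) = fun σ => (cyc σ) ^ r * ε σ := funext hval
    rw [this]
    exact (hcont.zpow r).mul hεc
  have hneg : ∀ v : QB, v ≠ 0 → -v ≠ v := by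
    intro v hv h
    apply hv
    have : (2 : QB) * v = 0 := by linear_combination -h
    simpa using this
  have hinr : ∀ (p : ℕ) [Fact p.Prime] (ι : QB →ₐ[ℚ] PadicAlgCl p), p ≠ 2 → ∀ σ ∈ II ι,
      vl (cyc ^ r * ε) σ = 1 ∨ vl (cyc ^ r * ε) σ = -1 := by
    intro p _ ι hp σ hσ
    unfold vl
    rw [hval, hcyi2 p ι hp σ hσ, one_zpow, one_mul]
    rcases hε σ with ⟨-, h⟩ | ⟨-, h⟩
    · left
      rw [h]
      simp
    · right
      rw [h]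
      simp
  have hphi : ∀ σ, φ ((cyc ^ r * ε) σ) = φ (cyc σ) ^ r * φ (ε σ) := by
    intro σ
    rw [hval, map_mul, map_zpow]
  have hm1 : φ (-1) = -1 := by
    rw [phi_neg_one]
    simp
  have hp1 : φ 1 = 1 := map_one _
  have hlt : ∀ σ, ‖vl (cyc ^ r * ε) σ - 1‖ < 1 / 2 ↔ φ (cyc σ) ^ r * φ (ε σ) = 1 := by
    intro σ
    rw [← hphi]
    exact norm_iff _
  have hsqf : Squarefree e := by
    rcases he with ⟨-, rfl⟩ | ⟨-, rfl⟩
    · exact hd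
    · exact hd.squarefree_of_dvd (neg_dvd.2 dvd_rfl)
  rcases he with ⟨hr, rfl⟩ | ⟨hr, rfl⟩
  · refine ⟨s, ⟨hcon, hsqf, hne, hs, by norm_num, le_rfl,
      Pool.Agent.R384.vl_sub_one, fun σ => ?_, hinr, fun _ he κ hκ => ?_⟩⟩
    · rw [hlt, phi_even hr, one_mul]
      rcases hε σ with ⟨h1, h2⟩ | ⟨h1, h2⟩
      · rw [h2, hp1]
        exact ⟨fun _ => h1, fun _ => rfl⟩
      · rw [h2, hm1, h1]
        exact ⟨fun h => absurd h.symm one_ne, fun h => absurd h (hneg s hs0)⟩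
    · have h1 := (hκ.2.2 s e hd0 hs).2 he
      have h2 : ε κ = 1 := by
        rcases hε κ with ⟨-, h⟩ | ⟨h, -⟩
        · exact h
        · exact absurd (h.symm.trans h1) (hneg s hs0)
      unfold vl
      rw [hval, hκ.2.1, h2, hr.neg_one_zpow]
      simp
  · refine ⟨I * s, ⟨hcon, hsqf, hne, by rw [mul_pow, hI, hs]; push_cast; ring, by norm_num,
      le_rfl, Pool.Agent.R384.vl_sub_one, fun σ => ?_, hinr, fun _ he κ hκ => ?_⟩⟩
    · rw [hlt, phi_odd hr, map_mul]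
      have hIs : I * s ≠ 0 := mul_ne_zero hI0 hs0
      rcases hcys1 I hI σ with ⟨g1, g2⟩ | ⟨g1, g2⟩ <;> rcases hε σ with ⟨h1, h2⟩ | ⟨h1, h2⟩
      · rw [phi_one.2 g2, h2, hp1, g1, h1]
        simp
      · rw [phi_one.2 g2, h2, hm1, g1, h1, one_mul, mul_neg]
        exact ⟨fun h => absurd h.symm one_ne, fun h => absurd h (hneg _ hIs)⟩
      · rw [phi_neg_one.2 g2, h2, hp1, g1, h1, mul_one, neg_mul]
        exact ⟨fun h => absurd h.symm one_ne, fun h => absurd h (hneg _ hIs)⟩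
      · rw [phi_neg_one.2 g2, h2, hm1, g1, h1]
        simp
    · have h1 : ¬ κ s = s := fun h => by
        have := (hκ.2.2 s d hd0 hs).1 h
        omega
      have h2 : ε κ = -1 := by
        rcases hε κ with ⟨h, -⟩ | ⟨-, h⟩
        · exact absurd h h1
        · exact h
      unfold vl
      rw [hval, hκ.2.1, h2, hr.neg_one_zpow]
      simp

end Pool.Agent.NH57.SQ
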