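import Pool.Agent.NH57.SQ.Sq
import Pool.Agent.NH57.SQ.Gen

/-!
# Project SQ (helper57): all twists for `D` not `1` modulo `8`
-/

set_option autoImplicit false

open scoped Classical

namespace Pool.Agent.NH57.SQ

open Finset
open Pool.Agent.NH3.XT (AS CS S_SQ2 t_SQ2 A2 C2 H1 H3 Sq2)
open Pool.Agent.NH4.XG (nx Ram SolG)
open Pool.Agent.R384 (Coc CobOn vl md)

/-- the decomposition group fixes the roots of local squares -/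
theorem fix_sq (ι : QB →ₐ[ℚ] PadicAlgCl 2) {t : QB} {m : ℤ} (ht : t ^ 2 = (m : QB))
    (h : IsSquare ((m : ℤ) : ℚ_[2])) : ∀ σ ∈ DD ι, σ t = t := by
  rintro σ ⟨τ, hτ⟩
  obtain ⟨z, hz⟩ := h
  have h1 : (ι t) ^ 2 = (algebraMap ℚ_[2] (PadicAlgCl 2) z) ^ 2 := by
    rw [← map_pow, ht, map_intCast, sq, ← map_mul, ← hz, map_intCast]
  apply ι.toRingHom.injective
  show ι (σ t) = ι t
  rw [← hτ]
  rcases sq_eq_sq_iff_eq_or_eq_neg.1 h1 with h2 | h2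
  · rw [h2]
    exact τ.commutes z
  · rw [h2, map_neg]
    congr 1
    exact τ.commutes z

theorem isSq_of_mod {e : ℤ} (h : e % 8 = 1) : IsSquare ((e : ℤ) : ℚ_[2]) := by
  have : Fact (Nat.Prime 2) := ⟨Nat.prime_two⟩
  have he : e ≠ 0 := by rintro rfl; omega
  exact (t_SQ2 e he).2 ⟨0, e, by ring, h⟩

theorem atTwo {r d : ℤ} (hr : r ≠ 0) {s : QB} {ε : GQ →* ℤ_[2]ˣ} (hs0 : s ≠ 0)
    (hs : s ^ 2 = (d : QB)) (hε : Sgn ε s)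
    (h : (Even r ∧ d % 8 = 1) ∨ (Odd r ∧ (-d) % 8 = 1)) : AtTwo (cyc ^ r * ε) := by
  intro ι
  have hval : ∀ (η : GQ →* ℤ_[2]ˣ) (σ : GQ), vl (cyc ^ r * η) σ =
      vl (cyc ^ r) σ * vl η σ := by
    intro η σ
    unfold vl
    rw [MonoidHom.mul_apply]
    push_cast
    rfl
  rcases h with ⟨hev, h8⟩ | ⟨hod, h8⟩
  · obtain ⟨v, ρ, hv⟩ := t_CHB t_CYI t_CYS r 1 1 1 hr (by simp) sgn_one continuous_const
      (Or.inl ⟨hev, rfl⟩)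
    refine ⟨v, ρ, by rw [hv.hu]; norm_num, hv.pos, fun σ hσ => ?_⟩
    have h1 : ε σ = (1 : GQ →* ℤ_[2]ˣ) σ := by
      rcases hε σ with ⟨-, h2⟩ | ⟨h2, -⟩
      · exact h2
      · have h3 := fix_sq ι hs (isSq_of_mod h8) σ hσ
        rw [h2] at h3
        exact absurd h3.symm (ne_neg hs0)
    have h2 : vl (cyc ^ r * ε) σ = vl (cyc ^ r * 1) σ := by
      unfold vl
      rw [MonoidHom.mul_apply, MonoidHom.mul_apply, h1]
    rw [h2]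
    exact ⟨hv.le σ, hv.lt σ⟩
  · obtain ⟨I, hI⟩ := IsAlgClosed.exists_pow_nat_eq (-1 : QB) (n := 2) (by norm_num)
    obtain ⟨ε₁, g1, c1⟩ := exists_sgn (s := I) (m := -1) (by norm_num) (by rw [hI]; simp)
    obtain ⟨v, ρ, hv⟩ := t_CHB t_CYI t_CYS r (-1) I ε₁ hr (by rw [hI]; simp) g1 c1
      (Or.inr ⟨hod, rfl⟩)
    refine ⟨v, ρ, by rw [hv.hu]; norm_num, hv.pos, fun σ hσ => ?_⟩
    have hI0 : I ≠ 0 := by
      rintro rfl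
      rw [zero_pow (by norm_num)] at hI
      norm_num at hI
    have hIs : (I * s) ^ 2 = ((-d : ℤ) : QB) := by
      rw [mul_pow, hI, hs]
      push_cast
      ring
    have h3 := fix_sq ι hIs (isSq_of_mod h8) σ hσ
    rw [map_mul] at h3
    have h1 : ε σ = ε₁ σ := by
      rcases hε σ with ⟨q1, q2⟩ | ⟨q1, q2⟩ <;> rcases g1 σ with ⟨q3, q4⟩ | ⟨q3, q4⟩
      · rw [q2, q4]
      · rw [q1, q3, neg_mul] at h3
        exact absurd h3.symm (ne_neg (mul_ne_zero hI0 hs0))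
      · rw [q1, q3, mul_neg] at h3
        exact absurd h3.symm (ne_neg (mul_ne_zero hI0 hs0))
      · rw [q2, q4]
    have h2 : vl (cyc ^ r * ε) σ = vl (cyc ^ r * ε₁) σ := by
      unfold vl
      rw [MonoidHom.mul_apply, MonoidHom.mul_apply, h1]
    rw [h2]
    exact ⟨hv.le σ, hv.lt σ⟩

/-- the conditions on `e = (-1) ^ r d` -/
def OkE (e : ℤ) : Prop := (e % 8 ≠ 1 ∧ Only e) ∨ (e % 8 = 1 ∧ OnlyS e)

/-- the conditions on the integer `d` for the character `cyc ^ r ε_d` -/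
def Okk (r d : ℤ) : Prop := Squarefree d ∧ (Even r → d = 1 ∨ (d ≠ 1 ∧ OkE d)) ∧
  (Odd r → d = -1 ∨ (d ≠ -1 ∧ OkE (-d)))

theorem van_gen' {r d : ℤ} (hr : r ≠ 0) (hok : Okk r d) {s : QB} {ε : GQ →* ℤ_[2]ˣ}
    (hs : s ^ 2 = (d : QB)) (hε : Sgn ε s) (hc : Continuous ε) : VanH ⊤ (cyc ^ r * ε) := by
  obtain ⟨hsq, hev, hod⟩ := hok
  have hs0 := ne_zero_of_sq hsq.ne_zero hs
  rcases Int.even_or_odd r with h | h
  · rcases hev h with rfl | ⟨h1, h2 | ⟨h2, h3⟩⟩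
    · exact van_gen hr ⟨hsq, fun _ => Or.inl rfl, fun hod => absurd h (Int.not_even_iff_odd.2 hod)⟩
        hs hε hc
    · exact van_gen hr ⟨hsq, fun _ => Or.inr h2, fun hod => absurd h (Int.not_even_iff_odd.2 hod)⟩
        hs hε hc
    · obtain ⟨u, hu⟩ := t_CHAS t_CYI t_CYS r d s ε hsq hs hε hc d (Or.inl ⟨h, rfl⟩) h1
      exact vanH_top (t_VANS hu (atTwo hr hs0 hs hε (Or.inl ⟨h, h2⟩)) h3)
  · rcases hod h with rfl | ⟨h1, h2 | ⟨h2, h3⟩⟩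
    · exact van_gen hr ⟨hsq, fun hev => absurd hev (Int.not_even_iff_odd.2 h), fun _ => Or.inl rfl⟩
        hs hε hc
    · exact van_gen hr ⟨hsq, fun hev => absurd hev (Int.not_even_iff_odd.2 h), fun _ => Or.inr h2⟩
        hs hε hc
    · obtain ⟨u, hu⟩ := t_CHAS t_CYI t_CYS r d s ε hsq hs hε hc (-d) (Or.inr ⟨h, rfl⟩)
        (by omega)
      exact vanH_top (t_VANS hu (atTwo hr hs0 hs hε (Or.inr ⟨h, h2⟩)) h3)

open Dio in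
/-- `D = 7` modulo `8`: the local conditions of `-D` -/
theorem onlyS_gen {D : ℤ} (h0 : D < 0) (hD : Squarefree D) (h1 : D ≠ -1) (h7 : D % 8 = 7)
    (hfin : (AS D ×ˢ CS D).Finite) (hcard : (AS D ×ˢ CS D).ncard = 4) : OnlyS (-D) := by
  have hA : ({1, D} : Set ℤ) ⊆ AS D := by
    rintro y (rfl | rfl)
    · exact one_mem_AS D
    · exact D_mem_AS hD
  have hC : ({1, -D} : Set ℤ) ⊆ CS D := by
    rintro y (rfl | rfl)
    · exact one_mem_CS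
    · exact D_mem_CS hD h0
  have hAf : (AS D).Finite := hfin.of_prod_left ⟨1, one_mem_CS⟩
  have hCf : (CS D).Finite := hfin.of_prod_right ⟨1, one_mem_AS D⟩
  have hA2 : ({1, D} : Set ℤ).ncard = 2 := Set.ncard_pair (by omega)
  have hC2 : ({1, -D} : Set ℤ).ncard = 2 := Set.ncard_pair (by omega)
  have hA3 := Set.ncard_le_ncard hA hAf
  have hC3 := Set.ncard_le_ncard hC hCf
  rw [Set.ncard_prod] at hcard
  have hA4 : (AS D).ncard = 2 := by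
    rw [hA2] at hA3
    rw [hC2] at hC3
    nlinarith
  have hC4 : (CS D).ncard = 2 := by
    rw [hA4] at hcard
    omega
  have hCe : ({1, -D} : Set ℤ) = CS D := Set.eq_of_subset_of_ncard_le hC (by omega) hCf
  intro x hx
  have h3 : x ∈ CS D := by
    have : Fact (Nat.Prime 2) := ⟨Nat.prime_two⟩
    have hxs := hx.sqf
    have hx0 : x ≠ 0 := hxs.ne_zero
    refine ⟨hxs, hx.real (by omega) (by omega), ?_, ?_⟩
    · rcases hx.two with g1 | g1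
      · have h2 := sq2_one hxs ((t_SQ2 x hx0).1 g1)
        unfold C2
        omega
      · have h2 := sq2_mul hxs Int.prime_two.squarefree
          ((t_SQ2 (x * 2) (mul_ne_zero hx0 two_ne_zero)).1 g1)
        unfold C2
        omega
    · intro p _ hp
      refine ⟨fun g1 => ?_, fun g1 => hx.odd p hp (fun g2 => g1 ((dvd_neg).1 g2))⟩
      rcases hx.sq p hp ((dvd_neg).2 g1) with g3 | g3
      · exact Or.inl g3
      · refine Or.inr ?_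
        rwa [mul_neg] at g3
  rw [← hCe] at h3
  simpa using h3

/-- the two integers `D`, `-D` -/
theorem okE_gen {D : ℤ} (h0 : D < 0) (hD : Squarefree D) (h1 : D ≠ -1) (h8 : D % 8 ≠ 1)
    (hfin : (AS D ×ˢ CS D).Finite) (hcard : (AS D ×ˢ CS D).ncard = 4) : OkE D ∧ OkE (-D) := by
  obtain ⟨o1, o2⟩ := dio_gen t_SQ2 h0 hD h1 hfin hcard
  refine ⟨Or.inl ⟨h8, o1⟩, ?_⟩
  by_cases h7 : D % 8 = 7
  · exact Or.inr ⟨by omega, onlyS_gen h0 hD h1 h7 hfin hcard⟩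
  · exact Or.inl ⟨by omega, o2⟩

/-- first step -/
theorem stepA' {r d : ℤ} (hr : r ≠ 0) (h1 : Okk r d) (h2 : Okk r (-d)) {I t : QB}
    {ε₁ η : GQ →* ℤ_[2]ˣ} (hI : I ^ 2 = -1) (g1 : Sgn ε₁ I) (c1 : Continuous ε₁)
    (ht : t ^ 2 = (d : QB)) (g : Sgn η t) (c : Continuous η) :
    VanH (⊤ ⊓ ε₁.ker) (cyc ^ r * η) := by
  have e : (cyc ^ r * η * ε₁ : GQ →* ℤ_[2]ˣ) = cyc ^ r * (η * ε₁) := by
    ext σ
    simp only [MonoidHom.mul_apply, mul_assoc]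
  have a2 : VanH ⊤ (cyc ^ r * η * ε₁) := by
    rw [e]
    refine van_gen' hr h2 (s := t * I) ?_ (g.mul g1) (c.mul c1)
    rw [mul_pow, hI, ht]
    push_cast
    ring
  exact t_IND t_GRP t_IDX ⊤ _ ε₁ g1.pm ((cont_cyc r).mul c) c1 (van_gen' hr h1 ht g c) a2

/-- second step -/
theorem stepB' {r d : ℤ} (hr : r ≠ 0) (h1 : Okk r d) (h2 : Okk r (-d)) (h3 : Okk r (2 * d))
    (h4 : Okk r (-(2 * d))) {I u t : QB} {ε₁ ε₃ η : GQ →* ℤ_[2]ˣ} (hI : I ^ 2 = -1)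
    (g1 : Sgn ε₁ I) (c1 : Continuous ε₁) (hu : u ^ 2 = 2) (g3 : Sgn ε₃ u) (c3 : Continuous ε₃)
    (ht : t ^ 2 = (d : QB)) (g : Sgn η t) (c : Continuous η) :
    VanH ((⊤ ⊓ ε₁.ker) ⊓ ε₃.ker) (cyc ^ r * η) := by
  have e : (cyc ^ r * η * ε₃ : GQ →* ℤ_[2]ˣ) = cyc ^ r * (η * ε₃) := by
    ext σ
    simp only [MonoidHom.mul_apply, mul_assoc]
  have a2 : VanH (⊤ ⊓ ε₁.ker) (cyc ^ r * η * ε₃) := by
    rw [e]
    refine stepA' hr h3 h4 hI g1 c1 (t := t * u) ?_ (g.mul g3) (c.mul c3)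
    rw [mul_pow, hu, ht]
    push_cast
    ring
  exact t_IND t_GRP t_IDX _ _ ε₃ g3.pm ((cont_cyc r).mul c) c3 (stepA' hr h1 h2 hI g1 c1 ht g c) a2

theorem okk_of {r d : ℤ} (hd : Squarefree d) (h1 : d ≠ 1) (h2 : d ≠ -1) (o1 : OkE d)
    (o2 : OkE (-d)) : Okk r d :=
  ⟨hd, fun _ => Or.inr ⟨h1, o1⟩, fun _ => Or.inr ⟨h2, o2⟩⟩

theorem okk_of' {r d : ℤ} (hd : Squarefree d) (h1 : d ≠ 1) (h2 : d ≠ -1) (o1 : OkE d)
    (o2 : OkE (-d)) : Okk r (-d) :=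
  okk_of (sqf_neg hd) (by omega) (by omega) o2 (by rwa [neg_neg])

theorem okk_one (r : ℤ) : Okk r 1 := ⟨squarefree_one, fun _ => Or.inl rfl,
  fun _ => Or.inr ⟨by norm_num, Or.inl ⟨by norm_num, t_ONE.1⟩⟩⟩

theorem okk_neg_one (r : ℤ) : Okk r (-1) := ⟨sqf_neg squarefree_one,
  fun _ => Or.inr ⟨by norm_num, Or.inl ⟨by norm_num, t_ONE.1⟩⟩, fun _ => Or.inl rfl⟩

/-- from the kernel to the larger subgroups -/
theorem up_gen {N H : Subgroup GQ} {r : ℤ} (hN : N.Normal) (hNH : N ≤ H)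
    (hv : VanH N (cyc ^ r))
    (hnt : ∀ ι : QB →ₐ[ℚ] PadicAlgCl 2, ∃ σ ∈ DD ι, σ ∈ N ∧ vl (cyc ^ r) σ ≠ 1) :
    VanH H (cyc ^ r) ∧ ∀ ι : QB →ₐ[ℚ] PadicAlgCl 2, ∃ σ ∈ DD ι, σ ∈ H ∧ vl (cyc ^ r) σ ≠ 1 := by
  refine ⟨?_, fun ι => ?_⟩
  · have halg : Algebra.IsAlgebraic ℚ QB := AlgebraicClosure.isAlgebraic ℚ
    let ι₀ : QB →ₐ[ℚ] PadicAlgCl 2 := IsAlgClosed.lift
    obtain ⟨σ, -, q2, q3⟩ := hnt ι₀
    exact t_UP H _ (cyc ^ r) hN hNH ⟨σ, q2, q3⟩ hv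
  · obtain ⟨σ, q1, q2, q3⟩ := hnt ι
    exact ⟨σ, q1, hNH q2, q3⟩

theorem one_eq (r : ℤ) : (cyc ^ r * 1 : GQ →* ℤ_[2]ˣ) = cyc ^ r := by
  ext σ
  rw [MonoidHom.mul_apply, MonoidHom.one_apply, mul_one]

/-- one quadratic field -/
theorem g_quad {r d : ℤ} (hr : r ≠ 0) (hok : Okk r d) {t : QB} (ht : t ^ 2 = (d : QB))
    {H : Subgroup GQ} (hH : ∀ σ : GQ, σ t = t → σ ∈ H) :
    VanH H (cyc ^ r) ∧ ∀ ι : QB →ₐ[ℚ] PadicAlgCl 2, ∃ σ ∈ DD ι, σ ∈ H ∧ vl (cyc ^ r) σ ≠ 1 := by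
  obtain ⟨ε, g, c⟩ := exists_sgn hok.1.ne_zero ht
  have b1 : VanH ⊤ (cyc ^ r) := by
    have h := van_gen' hr (okk_one r) (s := 1) (ε := 1) (by simp) sgn_one continuous_const
    rwa [one_eq] at h
  refine up_gen (N := ⊤ ⊓ ε.ker) inferInstance (fun σ hσ => hH σ (g.fix hσ.2))
    (t_IND t_GRP t_IDX ⊤ _ ε g.pm (cont_cyc r) c b1 (van_gen' hr hok ht g c)) fun ι => ?_
  obtain ⟨σ, q1, q2, q3⟩ := t_NT3 t_SQR t_CYS t_GRP ι r hr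
  exact ⟨σ, q1, ⟨Subgroup.mem_top σ, q2 ε g.pm⟩, q3⟩

/-- the biquadratic field -/
theorem g_H {D : ℤ} (hD : Squarefree D) (hp : D ≠ 1) (hm : D ≠ -1) (o1 : OkE D) (o2 : OkE (-D))
    {r : ℤ} (hr : r ≠ 0) {I s : QB} (hI : I ^ 2 = -1) (hs : s ^ 2 = (D : QB)) {H : Subgroup GQ}
    (hH : ∀ σ : GQ, σ I = I → σ s = s → σ ∈ H) :
    VanH H (cyc ^ r) ∧ ∀ ι : QB →ₐ[ℚ] PadicAlgCl 2, ∃ σ ∈ DD ι, σ ∈ H ∧ vl (cyc ^ r) σ ≠ 1 := by
  obtain ⟨ε₁, g1, c1⟩ := exists_sgn (s := I) (m := -1) (by norm_num) (by rw [hI]; simp)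
  obtain ⟨ε₂, g2, c2⟩ := exists_sgn hD.ne_zero hs
  have b1 : VanH (⊤ ⊓ ε₁.ker) (cyc ^ r) := by
    have h := stepA' hr (okk_one r) (okk_neg_one r) hI g1 c1 (t := 1) (η := 1) (by simp) sgn_one
      continuous_const
    rwa [one_eq] at h
  have b2 : VanH (⊤ ⊓ ε₁.ker) (cyc ^ r * ε₂) :=
    stepA' hr (okk_of hD hp hm o1 o2) (okk_of' hD hp hm o1 o2) hI g1 c1 hs g2 c2
  refine up_gen (N := (⊤ ⊓ ε₁.ker) ⊓ ε₂.ker) inferInstance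
    (fun σ hσ => hH σ (g1.fix hσ.1.2) (g2.fix hσ.2))
    (t_IND t_GRP t_IDX _ _ ε₂ g2.pm (cont_cyc r) c2 b1 b2) fun ι => ?_
  obtain ⟨σ, q1, q2, q3⟩ := t_NT3 t_SQR t_CYS t_GRP ι r hr
  exact ⟨σ, q1, ⟨⟨Subgroup.mem_top σ, q2 ε₁ g1.pm⟩, q2 ε₂ g2.pm⟩, q3⟩

theorem sqf_two_mul {D : ℤ} (hD : Squarefree D) (h : D % 2 = 1) : Squarefree (2 * D) := by
  rw [← Int.squarefree_natAbs, Int.natAbs_mul]
  refine (Nat.squarefree_mul ?_).2 ⟨?_, Int.squarefree_natAbs.2 hD⟩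
  · show Nat.Coprime 2 D.natAbs
    rw [Nat.coprime_two_left, Int.natAbs_odd, Int.odd_iff]
    exact h
  · exact Nat.prime_two.squarefree

/-- the octic field -/
theorem g_H8 {D : ℤ} (hD : Squarefree D) (hp : D ≠ 1) (hm : D ≠ -1) (hodd : D % 2 = 1)
    (o1 : OkE D) (o2 : OkE (-D)) (o3 : OkE (2 * D)) (o4 : OkE (-(2 * D)))
    {r : ℤ} (hr : r ≠ 0) {I u s : QB} (hI : I ^ 2 = -1) (hu : u ^ 2 = 2)
    (hs : s ^ 2 = (D : QB)) {H : Subgroup GQ}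
    (hH : ∀ σ : GQ, σ I = I → σ u = u → σ s = s → σ ∈ H) :
    VanH H (cyc ^ r) ∧ ∀ ι : QB →ₐ[ℚ] PadicAlgCl 2, ∃ σ ∈ DD ι, σ ∈ H ∧ vl (cyc ^ r) σ ≠ 1 := by
  obtain ⟨ε₁, g1, c1⟩ := exists_sgn (s := I) (m := -1) (by norm_num) (by rw [hI]; simp)
  obtain ⟨ε₂, g2, c2⟩ := exists_sgn hD.ne_zero hs
  obtain ⟨ε₃, g3, c3⟩ := exists_sgn (s := u) (m := 2) (by norm_num) (by rw [hu]; simp)
  have s2 : Squarefree (2 : ℤ) := Int.prime_two.squarefree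
  have s2D := sqf_two_mul hD hodd
  have w1 : OkE (2 * 1) := Or.inl ⟨by norm_num, by rw [mul_one]; exact t_ONE.2⟩
  have w2 : OkE (-(2 * 1)) := Or.inl ⟨by norm_num, by rw [mul_one]; exact only_neg_two⟩
  have k2 : Okk r (2 * 1) := okk_of (by rwa [mul_one]) (by norm_num) (by norm_num) w1 w2
  have k2' : Okk r (-(2 * 1)) := okk_of' (by rwa [mul_one]) (by norm_num) (by norm_num) w1 w2
  have b1 : VanH ((⊤ ⊓ ε₁.ker) ⊓ ε₃.ker) (cyc ^ r) := by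
    have h := stepB' hr (okk_one r) (okk_neg_one r) k2 k2' hI g1 c1 hu g3 c3 (t := 1) (η := 1)
      (by simp) sgn_one continuous_const
    rwa [one_eq] at h
  have b2 : VanH ((⊤ ⊓ ε₁.ker) ⊓ ε₃.ker) (cyc ^ r * ε₂) :=
    stepB' hr (okk_of hD hp hm o1 o2) (okk_of' hD hp hm o1 o2)
      (okk_of s2D (by omega) (by omega) o3 o4) (okk_of' s2D (by omega) (by omega) o3 o4)
      hI g1 c1 hu g3 c3 hs g2 c2
  refine up_gen (N := ((⊤ ⊓ ε₁.ker) ⊓ ε₃.ker) ⊓ ε₂.ker) inferInstance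
    (fun σ hσ => hH σ (g1.fix hσ.1.1.2) (g3.fix hσ.1.2) (g2.fix hσ.2))
    (t_IND t_GRP t_IDX _ _ ε₂ g2.pm (cont_cyc r) c2 b1 b2) fun ι => ?_
  obtain ⟨σ, q1, q2, q3⟩ := t_NT3 t_SQR t_CYS t_GRP ι r hr
  exact ⟨σ, q1, ⟨⟨⟨Subgroup.mem_top σ, q2 ε₁ g1.pm⟩, q2 ε₃ g3.pm⟩, q2 ε₂ g2.pm⟩, q3⟩

end Pool.Agent.NH57.SQ
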