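import Mathlib
import Pool.Agent.R384.Sel

/-!
# Project SQ (helper57): Schneider's conjecture for `p = 2` over quadratic fields

`D < 0` squarefree, not `± 1` modulo `8`. If the systems of quadratic symbols of `D` and `-D` (local
conditions `LC`) have only the trivial solutions, then `Ш¹(O_{L,S}, ℤ_2(r)) = 0` for all `r ≠ 0`, all `S`
and all subfields `L` of `ℚ(i, √D)`. Statements of the parts. `Pool/Agent/R384/Sel.lean` has the cocycles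
`Coc`, `CobOn`, the values `vl`, the reduction `md` for an arbitrary group, with the basic lemmas.
-/

set_option autoImplicit false
set_option linter.unusedVariables false

namespace Pool.Agent.NH57.SQ

open Pool.Agent.R384 (Coc CobOn vl md)

/-- an algebraic closure of `ℚ` -/
abbrev QB : Type := AlgebraicClosure ℚ

/-- the absolute Galois group of `ℚ` -/
abbrev GQ : Type := QB ≃ₐ[ℚ] QB

/-- the 2-adic cyclotomic character -/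
noncomputable def cyc : GQ →* ℤ_[2]ˣ :=
  (cyclotomicCharacter QB 2).comp (MulSemiringAction.toRingAut GQ QB)

/-- the decomposition group -/
def DD {p : ℕ} [Fact p.Prime] (ι : QB →ₐ[ℚ] PadicAlgCl p) : Set GQ :=
  {σ | ∃ τ : PadicAlgCl p ≃ₐ[ℚ_[p]] PadicAlgCl p, ∀ x, τ (ι x) = ι (σ x)}

/-- the inertia group -/
def II {p : ℕ} [Fact p.Prime] (ι : QB →ₐ[ℚ] PadicAlgCl p) : Set GQ :=
  {σ | ∃ τ : PadicAlgCl p ≃ₐ[ℚ_[p]] PadicAlgCl p, (∀ x, τ (ι x) = ι (σ x)) ∧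
    ∀ z : PadicAlgCl p, ‖z‖ ≤ 1 → ‖τ z - z‖ < 1}

/-- `ε` is the quadratic character of `s` -/
def Sgn (ε : GQ →* ℤ_[2]ˣ) (s : QB) : Prop := ∀ σ : GQ, (σ s = s ∧ ε σ = 1) ∨ (σ s = -s ∧ ε σ = -1)

/-! ### Cocycles -/

/-- SQ-NRM: normalisation of a cocycle that is not a coboundary -/
def S_NRM : Prop := ∀ {G : Type} [Group G] [TopologicalSpace G] [CompactSpace G]
  {χ : G →* ℤ_[2]ˣ} {c : G → ℚ_[2]}, Continuous χ → Coc χ c → ∀ τ₀ : G, vl χ τ₀ ≠ 1 →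
  (¬ ∃ y : ℚ_[2], ∀ σ, c σ = (vl χ σ - 1) * y) →
  ∃ a y : ℚ_[2], (∀ σ, ‖a * c σ + (vl χ σ - 1) * y‖ ≤ 1) ∧
    (∃ σ, ‖a * c σ + (vl χ σ - 1) * y‖ = 1) ∧ a * c τ₀ + (vl χ τ₀ - 1) * y = 0

/-- SQ-LOCK: a class that is locally trivial, modulo two -/
def S_LOCK : Prop := ∀ {G : Type} [Group G] [TopologicalSpace G] {χ : G →* ℤ_[2]ˣ} {c : G → ℚ_[2]}
  {D : Set G} (ρ : ℝ), CobOn χ D c → (∀ σ, ‖c σ‖ ≤ 1) → (∀ σ, ‖vl χ σ - 1‖ ≤ ρ) → ∀ σ₀ ∈ D,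
  ‖vl χ σ₀ - 1‖ = ρ → 0 < ρ →
  (∀ σ ∈ D, md c σ = 0) ∨ ∀ σ ∈ D, (md c σ = 0 ↔ ‖vl χ σ - 1‖ < ρ)

/-! ### Kummer theory and local fields -/

/-- SQ-KUM: the quadratic characters of `GQ` -/
def S_KUM : Prop := ∀ h : GQ → ZMod 2, IsLocallyConstant h → (∀ σ τ, h (σ * τ) = h σ + h τ) →
  ∃ (x : ℤ) (s : QB), Squarefree x ∧ s ^ 2 = (x : QB) ∧ ∀ σ : GQ, σ s = s ↔ h σ = 0

/-- SQ-SQR: an integer whose root is fixed by the decomposition group is a square -/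
def S_SQR : Prop := ∀ (p : ℕ) [Fact p.Prime] (ι : QB →ₐ[ℚ] PadicAlgCl p) (t : QB) (m : ℤ),
  t ^ 2 = (m : QB) → (∀ σ ∈ DD ι, σ t = t) → IsSquare ((m : ℤ) : ℚ_[p])

/-- SQ-RAM: the inertia group moves the roots of the integers of odd valuation -/
def S_RAM : Prop := ∀ (p : ℕ) [Fact p.Prime] (ι : QB →ₐ[ℚ] PadicAlgCl p) (t : QB) (m : ℤ), p ≠ 2 →
  Squarefree m → (p : ℤ) ∣ m → t ^ 2 = (m : QB) → ∃ σ ∈ II ι, σ t = -t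

/-- SQ-UNR: the inertia group fixes the roots of the units -/
def S_UNR : Prop := ∀ (p : ℕ) [Fact p.Prime] (ι : QB →ₐ[ℚ] PadicAlgCl p) (t : QB) (m : ℤ), p ≠ 2 →
  ¬ (p : ℤ) ∣ m → t ^ 2 = (m : QB) → ∀ σ ∈ II ι, σ t = t

/-- SQ-CYI: the cyclotomic character on the inertia groups, and conjugation -/
def S_CYI : Prop := Continuous cyc ∧
  (∀ (p : ℕ) [Fact p.Prime] (ι : QB →ₐ[ℚ] PadicAlgCl p), p ≠ 2 → ∀ σ ∈ II ι, cyc σ = 1) ∧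
  ∀ (p : ℕ) [Fact p.Prime] (ι : QB →ₐ[ℚ] PadicAlgCl p), ∀ σ ∈ II ι, ∀ τ ∈ DD ι, τ⁻¹ * σ * τ ∈ II ι

/-- SQ-CYS: the cyclotomic character modulo four and modulo eight -/
def S_CYS : Prop := (∀ (I : QB), I ^ 2 = -1 → ∀ σ : GQ,
    (σ I = I ∧ (4 : ℤ_[2]) ∣ (cyc σ : ℤ_[2]) - 1) ∨ (σ I = -I ∧ (4 : ℤ_[2]) ∣ (cyc σ : ℤ_[2]) + 1)) ∧
  ∀ (u : QB), u ^ 2 = 2 → ∀ σ : GQ,
    (σ u = u ∧ ((8 : ℤ_[2]) ∣ (cyc σ : ℤ_[2]) - 1 ∨ (8 : ℤ_[2]) ∣ (cyc σ : ℤ_[2]) + 1)) ∨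
    (σ u = -u ∧ ((8 : ℤ_[2]) ∣ (cyc σ : ℤ_[2]) - 3 ∨ (8 : ℤ_[2]) ∣ (cyc σ : ℤ_[2]) + 3))

/-- complex conjugation -/
def IsCC (κ : GQ) : Prop := κ * κ = 1 ∧ cyc κ = -1 ∧
  ∀ (t : QB) (m : ℤ), m ≠ 0 → t ^ 2 = (m : QB) → (κ t = t ↔ 0 < m)

/-- SQ-CC: complex conjugation exists -/
def S_CC : Prop := ∃ κ : GQ, IsCC κ

/-! ### The local conditions and the characters -/

/-- the local conditions -/
structure LC (e x : ℤ) : Prop where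
  sqf : Squarefree x
  odd : ∀ (p : ℕ) [Fact p.Prime], p ≠ 2 → ¬ (p : ℤ) ∣ e → ¬ (p : ℤ) ∣ x
  sq : ∀ (p : ℕ) [Fact p.Prime], p = 2 ∨ (p : ℤ) ∣ e →
    IsSquare ((x : ℤ) : ℚ_[p]) ∨ IsSquare ((x * e : ℤ) : ℚ_[p])
  real : e ≠ 2 → 0 < e → 0 < x

/-- only the trivial solutions -/
def Only (e : ℤ) : Prop := ∀ x : ℤ, LC e x → x = 1 ∨ x = e

/-- the character `χ`: modulo its first digit it is the quadratic character of `u = √e` -/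
structure Dt (χ : GQ →* ℤ_[2]ˣ) (e : ℤ) (u : QB) (ρ : ℝ) : Prop where
  cont : Continuous χ
  sqf : Squarefree e
  ne : e ≠ 1
  sq2 : ∀ [Fact (Nat.Prime 2)], ¬ IsSquare ((e : ℤ) : ℚ_[2])
  hu : u ^ 2 = (e : QB)
  pos : 0 < ρ
  half : ρ ≤ 1 / 2
  le : ∀ σ, ‖vl χ σ - 1‖ ≤ ρ
  lt : ∀ σ, ‖vl χ σ - 1‖ < ρ ↔ σ u = u
  inr : ∀ (p : ℕ) [Fact p.Prime] (ι : QB →ₐ[ℚ] PadicAlgCl p), p ≠ 2 → ∀ σ ∈ II ι,
    vl χ σ = 1 ∨ vl χ σ = -1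
  cc : e ≠ 2 → 0 < e → ∀ κ : GQ, IsCC κ → vl χ κ = 1

/-- the vanishing for the character `χ` of the group of the field `ℚ` -/
def Van (χ : GQ →* ℤ_[2]ˣ) : Prop := ∀ c : GQ → ℚ_[2], Coc χ c →
  (∀ (p : ℕ) [Fact p.Prime] (ι : QB →ₐ[ℚ] PadicAlgCl p), p ≠ 2 → CobOn χ (II ι) c) →
  (∀ ι : QB →ₐ[ℚ] PadicAlgCl 2, CobOn χ (DD ι) c) →
  ∃ y : ℚ_[2], ∀ σ, c σ = (vl χ σ - 1) * y

/-- SQ-SEL: the integer of the reduction satisfies the local conditions -/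
def S_SEL : Prop := S_LOCK → S_SQR → S_RAM → S_UNR → S_CYI → S_CC →
  ∀ {χ : GQ →* ℤ_[2]ˣ} {e : ℤ} {u : QB} {ρ : ℝ}, Dt χ e u ρ → ∀ {c : GQ → ℚ_[2]}, Coc χ c →
  (∀ σ, ‖c σ‖ ≤ 1) →
  (∀ (p : ℕ) [Fact p.Prime] (ι : QB →ₐ[ℚ] PadicAlgCl p), p ≠ 2 → CobOn χ (II ι) c) →
  (∀ ι : QB →ₐ[ℚ] PadicAlgCl 2, CobOn χ (DD ι) c) →
  ∀ {x : ℤ} {s : QB}, Squarefree x → s ^ 2 = (x : QB) → (∀ σ : GQ, σ s = s ↔ md c σ = 0) → LC e x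

/-- SQ-VAN: the vanishing theorem for one character -/
def S_VAN : Prop := S_NRM → S_KUM → S_SEL → S_LOCK → S_SQR → S_RAM → S_UNR → S_CYI → S_CC →
  ∀ {χ : GQ →* ℤ_[2]ˣ} {e : ℤ} {u : QB} {ρ : ℝ}, Dt χ e u ρ → Only e → Van χ

/-- SQ-CHA: the characters `cyc ^ r ε`, first case: `e = (-1) ^ r d` is not `1` -/
def S_CHA : Prop := S_CYI → S_CYS → ∀ (r d : ℤ) (s : QB) (ε : GQ →* ℤ_[2]ˣ), Squarefree d →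
  s ^ 2 = (d : QB) → Sgn ε s → Continuous ε → ∀ e : ℤ, (Even r ∧ e = d) ∨ (Odd r ∧ e = -d) →
  (∀ [Fact (Nat.Prime 2)], ¬ IsSquare ((e : ℤ) : ℚ_[2])) →
  ∃ u : QB, Dt (cyc ^ r * ε) e u (1 / 2)

/-- SQ-CHB: the characters `cyc ^ r`, `r ≠ 0` even, and `cyc ^ r ε`, `r` odd, `ε` the character of `√-1` -/
def S_CHB : Prop := S_CYI → S_CYS → ∀ (r d : ℤ) (s : QB) (ε : GQ →* ℤ_[2]ˣ), r ≠ 0 →
  s ^ 2 = (d : QB) → Sgn ε s → Continuous ε → (Even r ∧ d = 1) ∨ (Odd r ∧ d = -1) →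
  ∃ (u : QB) (ρ : ℝ), Dt (cyc ^ r * ε) 2 u ρ

/-- SQ-ONE: no solutions without odd primes -/
def S_ONE : Prop := Only (-1) ∧ Only 2

/-! ### Subfields -/

/-- a continuous cocycle of the subgroup `H` -/
structure CocH (H : Subgroup GQ) (χ : GQ →* ℤ_[2]ˣ) (c : GQ → ℚ_[2]) : Prop where
  cont : ContinuousOn c (H : Set GQ)
  mul : ∀ σ ∈ H, ∀ τ ∈ H, c (σ * τ) = c σ + vl χ σ * c τ

/-- the vanishing for the subgroup `H` -/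
def VanH (H : Subgroup GQ) (χ : GQ →* ℤ_[2]ˣ) : Prop := ∀ c : GQ → ℚ_[2], CocH H χ c →
  (∀ (p : ℕ) [Fact p.Prime] (ι : QB →ₐ[ℚ] PadicAlgCl p), p ≠ 2 → CobOn χ (II ι ∩ (H : Set GQ)) c) →
  (∀ ι : QB →ₐ[ℚ] PadicAlgCl 2, CobOn χ (DD ι ∩ (H : Set GQ)) c) → CobOn χ (H : Set GQ) c

/-- SQ-GRP: the decomposition and inertia sets: groups, and conjugation -/
def S_GRP : Prop := ∀ (p : ℕ) [Fact p.Prime] (ι : QB →ₐ[ℚ] PadicAlgCl p),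
  (1 : GQ) ∈ II ι ∧ (1 : GQ) ∈ DD ι ∧ (∀ σ ∈ II ι, ∀ τ ∈ II ι, σ * τ ∈ II ι) ∧
  (∀ σ ∈ II ι, σ⁻¹ ∈ II ι) ∧ (∀ σ ∈ DD ι, ∀ τ ∈ DD ι, σ * τ ∈ DD ι) ∧ (∀ σ ∈ DD ι, σ⁻¹ ∈ DD ι) ∧
  ∀ t : GQ, ∃ ι' : QB →ₐ[ℚ] PadicAlgCl p, (∀ σ, σ ∈ II ι → t * σ * t⁻¹ ∈ II ι') ∧
    ∀ σ, σ ∈ DD ι → t * σ * t⁻¹ ∈ DD ι'

/-- SQ-IDX: a cocycle of a group that is a coboundary on a subgroup of index at most two -/
def S_IDX : Prop := ∀ (J : Subgroup GQ) (χ ε : GQ →* ℤ_[2]ˣ) (c : GQ → ℚ_[2]),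
  (∀ σ, ε σ = 1 ∨ ε σ = -1) → (∀ σ ∈ J, ∀ τ ∈ J, c (σ * τ) = c σ + vl χ σ * c τ) →
  (∃ y : ℚ_[2], ∀ σ ∈ J, ε σ = 1 → c σ = (vl χ σ - 1) * y) →
  ∃ y : ℚ_[2], ∀ σ ∈ J, c σ = (vl χ σ - 1) * y

/-- SQ-IND: from a group to the kernel of a quadratic character -/
def S_IND : Prop := S_GRP → S_IDX → ∀ (H : Subgroup GQ) (χ ε : GQ →* ℤ_[2]ˣ),
  (∀ σ, ε σ = 1 ∨ ε σ = -1) → Continuous χ → Continuous ε →
  VanH H χ → VanH H (χ * ε) → VanH (H ⊓ ε.ker) χ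

/-- SQ-UP: from a normal subgroup to a larger subgroup -/
def S_UP : Prop := ∀ (H N : Subgroup GQ) (χ : GQ →* ℤ_[2]ˣ), N.Normal → N ≤ H →
  (∃ σ ∈ N, vl χ σ ≠ 1) → VanH N χ → VanH H χ

/-- SQ-NT: twists are not trivial on the decomposition groups at two, on the group of a biquadratic field -/
def S_NT : Prop := S_SQR → S_CYS → S_GRP → ∀ (ε ε' : GQ →* ℤ_[2]ˣ), (∀ σ, ε σ = 1 ∨ ε σ = -1) →
  (∀ σ, ε' σ = 1 ∨ ε' σ = -1) → ∀ (ι : QB →ₐ[ℚ] PadicAlgCl 2) (r : ℤ), r ≠ 0 →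
  ∃ σ ∈ DD ι, ε σ = 1 ∧ ε' σ = 1 ∧ vl (cyc ^ r) σ ≠ 1

end Pool.Agent.NH57.SQ
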