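import Pool.Agent.NH57.SQ.Stm
import Pool.Agent.NH3.XT.Stm

/-!
# Project SQ (helper57): from the Selmer sets of project XT to the local conditions
-/

set_option autoImplicit false

open scoped Classical

namespace Pool.Agent.NH57.SQ

open Pool.Agent.NH3.XT (AS CS S_SQ2)

/-- SQ-DIO: if the sets `AS D` and `CS D` are as small as possible then there are only the trivial
solutions of the local conditions -/
def S_DIO : Prop := S_SQ2 → ∀ D : ℤ, D < 0 → Squarefree D → D % 8 ≠ 1 → D % 8 ≠ 7 →
  (AS D ×ˢ CS D).Finite → (AS D ×ˢ CS D).ncard = 4 → Only D ∧ Only (-D)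

end Pool.Agent.NH57.SQ
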